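import Pool.Agent.H900.P3.Df

/-! # Initial forms -/

set_option autoImplicit false
set_option linter.unusedSectionVars false

namespace Pool.Agent.H900.P3

open Polynomial

noncomputable section

namespace LTS

variable {E H k : Type} [Field E] [Field k] [AddCommGroup H] [LinearOrder H]
    [IsOrderedAddMonoid H] (L : LTS E H k)

theorem sy_def (N : H) {x : E} (hx : x ≠ 0) (h : L.v x = N) : L.sy N x = L.ac x :=
  if_pos ⟨hx, h⟩

theorem sy_zero (N : H) : L.sy N 0 = 0 := if_neg fun h => h.1 rfl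

theorem sy_of_ne (N : H) {x : E} (h : L.v x ≠ N) : L.sy N x = 0 := if_neg fun h' => h h'.2

theorem sy_ne {N : H} {x : E} (h : L.sy N x ≠ 0) :
    x ≠ 0 ∧ L.v x = N ∧ L.sy N x = L.ac x := by
  by_cases h1 : x ≠ 0 ∧ L.v x = N
  · exact ⟨h1.1, h1.2, if_pos h1⟩
  · exact absurd (if_neg h1) h

theorem ge_add {N : H} {x y : E} (hx : L.Ge N x) (hy : L.Ge N y) :
    L.Ge N (x + y) ∧ L.sy N (x + y) = L.sy N x + L.sy N y := L.add' N x y hx hy

theorem ge_zero (N : H) : L.Ge N 0 := Or.inl rfl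

theorem ge_mul {N M : H} {x y : E} (hx : L.Ge N x) (hy : L.Ge M y) :
    L.Ge (N + M) (x * y) ∧ L.sy (N + M) (x * y) = L.sy N x * L.sy M y := by
  by_cases h1 : x = 0
  · rw [h1, zero_mul, sy_zero, sy_zero, zero_mul]
    exact ⟨L.ge_zero _, rfl⟩
  by_cases h2 : y = 0
  · rw [h2, mul_zero, sy_zero, sy_zero, mul_zero]
    exact ⟨L.ge_zero _, rfl⟩
  have h3 := hx.resolve_left h1
  have h4 := hy.resolve_left h2
  refine ⟨Or.inr ?_, ?_⟩
  · rw [L.v_mul x y h1 h2]
    exact add_le_add h3 h4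
  · by_cases h5 : L.v x = N
    · by_cases h6 : L.v y = M
      · rw [L.sy_def N h1 h5, L.sy_def M h2 h6, L.sy_def _ (mul_ne_zero h1 h2) (by
          rw [L.v_mul x y h1 h2, h5, h6]), L.ac_mul]
      · rw [L.sy_of_ne M h6, mul_zero]
        apply L.sy_of_ne
        rw [L.v_mul x y h1 h2]
        exact (add_lt_add_of_le_of_lt h3 (lt_of_le_of_ne h4 (Ne.symm h6))).ne'
    · rw [L.sy_of_ne N h5, zero_mul]
      apply L.sy_of_ne
      rw [L.v_mul x y h1 h2]
      exact (add_lt_add_of_lt_of_le (lt_of_le_of_ne h3 (Ne.symm h5)) h4).ne'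

theorem ge_le {N M : H} {x : E} (h : M ≤ N) (hx : L.Ge N x) : L.Ge M x :=
  hx.imp id fun h' => h.trans h'

theorem sy_lt {N M : H} {x : E} (h : M < N) (hx : L.Ge N x) : L.sy M x = 0 := by
  rcases hx with h1 | h1
  · rw [h1, sy_zero]
  · exact L.sy_of_ne M (h.trans_le h1).ne'

theorem ge_sum {N : H} {J : Type} (s : Finset J) {f : J → E} (h : ∀ j ∈ s, L.Ge N (f j)) :
    L.Ge N (∑ j ∈ s, f j) ∧ L.sy N (∑ j ∈ s, f j) = ∑ j ∈ s, L.sy N (f j) := by
  classical
  induction s using Finset.induction_on with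
  | empty =>
    rw [Finset.sum_empty, Finset.sum_empty]
    exact ⟨L.ge_zero _, L.sy_zero _⟩
  | insert a s ha ih =>
    rw [Finset.sum_insert ha, Finset.sum_insert ha]
    obtain ⟨h1, h2⟩ := ih fun j hj => h j (Finset.mem_insert_of_mem hj)
    obtain ⟨h3, h4⟩ := L.ge_add (h a (Finset.mem_insert_self a s)) h1
    exact ⟨h3, by rw [h4, h2]⟩

theorem coeff_psy (γ N : H) (f : E[X]) (j : ℕ) :
    (L.psy γ N f).coeff j = L.sy (N - j • γ) (f.coeff j) := by
  unfold psy
  rw [finsetSum_coeff]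
  simp only [coeff_monomial]
  by_cases hj : j ∈ f.support
  · rw [Finset.sum_eq_single j]
    · rw [if_pos rfl]
    · intro i _ hi
      rw [if_neg hi]
    · intro h
      exact absurd hj h
  · rw [Finset.sum_eq_zero]
    · rw [notMem_support_iff.1 hj, sy_zero]
    · intro i hi
      rw [if_neg]
      rintro rfl
      exact hj hi

theorem psy_zero (γ N : H) : L.psy γ N 0 = 0 := by
  unfold psy
  rw [support_zero, Finset.sum_empty]

theorem pge_zero (γ N : H) : L.PGe γ N 0 := fun j => by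
  rw [coeff_zero]
  exact L.ge_zero _

theorem pge_add {γ N : H} {f g : E[X]} (hf : L.PGe γ N f) (hg : L.PGe γ N g) :
    L.PGe γ N (f + g) ∧ L.psy γ N (f + g) = L.psy γ N f + L.psy γ N g := by
  refine ⟨fun j => ?_, ?_⟩
  · rw [coeff_add]
    exact (L.ge_add (hf j) (hg j)).1
  · ext j
    rw [coeff_add, coeff_psy, coeff_psy, coeff_psy, coeff_add]
    exact (L.ge_add (hf j) (hg j)).2

theorem pge_mul {γ N M : H} {f g : E[X]} (hf : L.PGe γ N f) (hg : L.PGe γ M g) :
    L.PGe γ (N + M) (f * g) ∧ L.psy γ (N + M) (f * g) = L.psy γ N f * L.psy γ M g := by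
  have key : ∀ j, ∀ x ∈ Finset.HasAntidiagonal.antidiagonal j,
      L.Ge (N + M - j • γ) (f.coeff x.1 * g.coeff x.2) ∧
      L.sy (N + M - j • γ) (f.coeff x.1 * g.coeff x.2) =
        L.sy (N - x.1 • γ) (f.coeff x.1) * L.sy (M - x.2 • γ) (g.coeff x.2) := by
    intro j x hx
    have h1 : N + M - j • γ = (N - x.1 • γ) + (M - x.2 • γ) := by
      rw [← Finset.HasAntidiagonal.mem_antidiagonal.1 hx, add_smul]
      abel
    rw [h1]
    exact L.ge_mul (hf _) (hg _)
  refine ⟨fun j => ?_, ?_⟩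
  · rw [coeff_mul]
    exact (L.ge_sum _ fun x hx => (key j x hx).1).1
  · ext j
    rw [coeff_psy, coeff_mul, coeff_mul, (L.ge_sum _ fun x hx => (key j x hx).1).2]
    refine Finset.sum_congr rfl fun x hx => ?_
    rw [(key j x hx).2, coeff_psy, coeff_psy]

theorem pge_C {γ N : H} {a : E} (h : L.Ge N a) :
    L.PGe γ N (C a) ∧ L.psy γ N (C a) = C (L.sy N a) := by
  refine ⟨fun j => ?_, ?_⟩
  · rcases Nat.eq_zero_or_pos j with rfl | hj
    · rw [coeff_C_zero, zero_smul, sub_zero]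
      exact h
    · rw [coeff_C, if_neg hj.ne']
      exact L.ge_zero _
  · ext j
    rw [coeff_psy]
    rcases Nat.eq_zero_or_pos j with rfl | hj
    · rw [coeff_C_zero, coeff_C_zero, zero_smul, sub_zero]
    · rw [coeff_C, coeff_C, if_neg hj.ne', if_neg hj.ne', sy_zero]

theorem pge_le {γ N M : H} {f : E[X]} (h : M ≤ N) (hf : L.PGe γ N f) : L.PGe γ M f :=
  fun j => L.ge_le (sub_le_sub_right h _) (hf j)

theorem psy_lt {γ N M : H} {f : E[X]} (h : M < N) (hf : L.PGe γ N f) : L.psy γ M f = 0 := by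
  ext j
  rw [coeff_psy, coeff_zero]
  exact L.sy_lt (sub_lt_sub_right h _) (hf j)

theorem exists_lev (γ : H) {f : E[X]} (hf : f ≠ 0) : ∃ N, L.PGe γ N f ∧ L.psy γ N f ≠ 0 := by
  obtain ⟨i, hi, hmin⟩ := Finset.exists_min_image f.support (fun j => L.v (f.coeff j) + j • γ)
    (nonempty_support_iff.2 hf)
  have hi0 := mem_support_iff.1 hi
  refine ⟨L.v (f.coeff i) + i • γ, fun j => ?_, fun h => ?_⟩
  · by_cases hj : f.coeff j = 0
    · exact Or.inl hj
    · right
      have := hmin j (mem_support_iff.2 hj)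
      rw [sub_le_iff_le_add]
      exact this
  · have h1 := congrArg (fun g => g.coeff i) h
    simp only [coeff_psy, coeff_zero] at h1
    rw [add_sub_cancel_right, L.sy_def _ hi0 rfl] at h1
    exact L.ac_ne _ hi0 h1

theorem pge_sum {γ N : H} {J : Type} (s : Finset J) {f : J → E[X]}
    (h : ∀ j ∈ s, L.PGe γ N (f j)) :
    L.PGe γ N (∑ j ∈ s, f j) ∧ L.psy γ N (∑ j ∈ s, f j) = ∑ j ∈ s, L.psy γ N (f j) := by
  classical
  induction s using Finset.induction_on with
  | empty =>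
    rw [Finset.sum_empty, Finset.sum_empty]
    exact ⟨L.pge_zero _ _, L.psy_zero _ _⟩
  | insert a s ha ih =>
    rw [Finset.sum_insert ha, Finset.sum_insert ha]
    obtain ⟨h1, h2⟩ := ih fun j hj => h j (Finset.mem_insert_of_mem hj)
    obtain ⟨h3, h4⟩ := L.pge_add (h a (Finset.mem_insert_self a s)) h1
    exact ⟨h3, by rw [h4, h2]⟩

theorem v_one : L.v 1 = 0 := by
  have h := L.v_mul 1 1 one_ne_zero one_ne_zero
  rw [mul_one] at h
  exact left_eq_add.1 h

theorem ac_one : L.ac 1 = 1 := by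
  have h := L.ac_mul 1 1
  rw [mul_one] at h
  exact mul_left_cancel₀ (L.ac_ne 1 one_ne_zero) (by rw [← h, mul_one])

theorem v_neg_one : L.v (-1) = 0 := by
  have h := L.v_mul (-1) (-1) (neg_ne_zero.2 one_ne_zero) (neg_ne_zero.2 one_ne_zero)
  rw [neg_one_mul, neg_neg, v_one] at h
  rcases lt_trichotomy (L.v (-1)) 0 with h1 | h1 | h1
  · exact absurd h.symm (add_neg h1 h1).ne
  · exact h1
  · exact absurd h.symm (add_pos h1 h1).ne'

theorem v_neg (x : E) : L.v (-x) = L.v x := by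
  by_cases hx : x = 0
  · rw [hx, neg_zero]
  · rw [← neg_one_mul, L.v_mul _ _ (neg_ne_zero.2 one_ne_zero) hx, v_neg_one, zero_add]

theorem ac_neg (x : E) : L.ac (-x) = -L.ac x := by
  by_cases hx : x = 0
  · rw [hx, neg_zero, L.ac_zero, neg_zero]
  · have h1 := (L.ge_add (N := L.v x) (x := x) (y := -x) (Or.inr le_rfl)
      (Or.inr (L.v_neg x).ge)).2
    rw [add_neg_cancel, sy_zero, L.sy_def _ hx rfl, L.sy_def _ (neg_ne_zero.2 hx) (L.v_neg x)] at h1
    exact (neg_eq_of_add_eq_zero_right h1.symm).symm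

theorem v_pow {x : E} (hx : x ≠ 0) (n : ℕ) : L.v (x ^ n) = n • L.v x := by
  induction n with
  | zero => rw [pow_zero, v_one, zero_smul]
  | succ n ih => rw [pow_succ, L.v_mul _ _ (pow_ne_zero n hx) hx, ih, succ_nsmul]

theorem v_prod {J : Type} (s : Finset J) {f : J → E} (h : ∀ j ∈ s, f j ≠ 0) :
    L.v (∏ j ∈ s, f j) = ∑ j ∈ s, L.v (f j) := by
  classical
  induction s using Finset.induction_on with
  | empty => rw [Finset.prod_empty, Finset.sum_empty, v_one]
  | insert a s ha ih =>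
    rw [Finset.prod_insert ha, Finset.sum_insert ha,
      L.v_mul _ _ (h a (Finset.mem_insert_self a s))
        (Finset.prod_ne_zero_iff.2 fun j hj => h j (Finset.mem_insert_of_mem hj)),
      ih fun j hj => h j (Finset.mem_insert_of_mem hj)]

theorem ac_prod {J : Type} (s : Finset J) (f : J → E) :
    L.ac (∏ j ∈ s, f j) = ∏ j ∈ s, L.ac (f j) := by
  classical
  induction s using Finset.induction_on with
  | empty => rw [Finset.prod_empty, Finset.prod_empty, ac_one]
  | insert a s ha ih => rw [Finset.prod_insert ha, Finset.prod_insert ha, L.ac_mul, ih]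

end LTS

end

end Pool.Agent.H900.P3
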