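import Pool.Agent.H900.P3.Df
set_option autoImplicit false
namespace Pool.Agent.H900.P3
open Polynomial

theorem b1_mul {k : Type} [Field k] {x y : k} (hx : Cb x) (hy : Cb y) : Cb (x * y) := by
  obtain ⟨a, rfl⟩ := hx
  obtain ⟨b, rfl⟩ := hy
  exact ⟨a * b, by ring⟩

theorem b1_pow {k : Type} [Field k] {x : k} (hx : Cb x) (n : ℕ) : Cb (x ^ n) := by
  obtain ⟨a, rfl⟩ := hx
  exact ⟨a ^ n, by ring⟩

/-- the multiplicative function -/
noncomputable def b1_chi {k : Type} [Field k] (f : k[X]) : k := f.trailingCoeff * f.leadingCoeff ^ 2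

theorem b1_chi_mul {k : Type} [Field k] (f g : k[X]) : b1_chi (f * g) = b1_chi f * b1_chi g := by
  unfold b1_chi
  rw [trailingCoeff_mul, leadingCoeff_mul]
  ring

theorem b1_chi_one {k : Type} [Field k] : b1_chi (1 : k[X]) = 1 := by
  unfold b1_chi
  have h : (1 : k[X]).trailingCoeff = 1 := by
    unfold trailingCoeff
    rw [natTrailingDegree_one, coeff_one_zero]
  rw [h, leadingCoeff_one]
  ring

theorem b1_chi_pow {k : Type} [Field k] (f : k[X]) (n : ℕ) : b1_chi (f ^ n) = b1_chi f ^ n := by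
  induction n with
  | zero => rw [pow_zero, pow_zero, b1_chi_one]
  | succ n ih => rw [pow_succ, pow_succ, b1_chi_mul, ih]

theorem b1_chi_C {k : Type} [Field k] (c : k) : b1_chi (C c) = c ^ 3 := by
  unfold b1_chi
  have h : (C c : k[X]).trailingCoeff = c := by
    unfold trailingCoeff
    rw [natTrailingDegree_C, coeff_C_zero]
  rw [h, leadingCoeff_C]
  ring

theorem b1_chi_X {k : Type} [Field k] : b1_chi (X : k[X]) = 1 := by
  unfold b1_chi
  have h : (X : k[X]).trailingCoeff = 1 := by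
    unfold trailingCoeff
    rw [natTrailingDegree_X, coeff_X_one]
  rw [h, leadingCoeff_X]
  ring

theorem b1_main {k : Type} [Field k] (f : k[X]) : f ≠ 0 →
    (∀ q : k[X], Irreducible q → q.coeff 0 ≠ 0 → ∀ (m : ℕ) (g : k[X]), f = q ^ m * g →
      ¬ q ∣ g → ¬ 3 ∣ m → Cb (q.coeff 0 * q.leadingCoeff ^ 2)) → Cb (b1_chi f) := by
  induction f using UniqueFactorizationMonoid.induction_on_coprime with
  | h0 => exact fun h => absurd rfl h
  | h1 hx =>
    intro _ _
    obtain ⟨c, hc, rfl⟩ := Polynomial.isUnit_iff.1 hx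
    exact ⟨c, by rw [b1_chi_C]⟩
  | @hpr p i hp =>
    intro _ h
    rw [b1_chi_pow]
    by_cases hi : 3 ∣ i
    · obtain ⟨j, rfl⟩ := hi
      exact ⟨b1_chi p ^ j, by ring⟩
    · by_cases h0 : p.coeff 0 = 0
      · obtain ⟨r, hr⟩ := X_dvd_iff.2 h0
        have hu : IsUnit r := (hp.irreducible.isUnit_or_isUnit hr).resolve_left not_isUnit_X
        obtain ⟨c, hc, rfl⟩ := Polynomial.isUnit_iff.1 hu
        rw [hr, b1_chi_mul, b1_chi_X, b1_chi_C, one_mul]
        exact b1_pow ⟨c, rfl⟩ i
      · have h1 := h p hp.irreducible h0 i 1 (by rw [mul_one]) (fun hd => hp.not_isUnit (isUnit_of_dvd_one hd)) hi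
        have h2 : p.trailingCoeff = p.coeff 0 := by
          unfold trailingCoeff
          rw [natTrailingDegree_eq_zero.2 (Or.inr h0)]
        have h3 : b1_chi p = p.coeff 0 * p.leadingCoeff ^ 2 := by
          unfold b1_chi
          rw [h2]
        rw [h3]
        exact b1_pow h1 i
  | @hcp x y hxy ihx ihy =>
    intro h0 h
    rw [b1_chi_mul]
    have hx0 : x ≠ 0 := left_ne_zero_of_mul h0
    have hy0 : y ≠ 0 := right_ne_zero_of_mul h0
    refine b1_mul (ihx hx0 ?_) (ihy hy0 ?_)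
    · intro q hq hq0 m g hx hg hm
      have hm0 : m ≠ 0 := by rintro rfl; exact hm (dvd_zero 3)
      have hqx : q ∣ x := by
        rw [hx]
        exact (dvd_pow_self q hm0).mul_right g
      have hqy : ¬ q ∣ y := fun hd => hq.not_isUnit (hxy hqx hd)
      refine h q hq hq0 m (g * y) (by rw [hx]; ring) ?_ hm
      intro hd
      rcases hq.prime.dvd_or_dvd hd with hd | hd
      · exact hg hd
      · exact hqy hd
    · intro q hq hq0 m g hy hg hm
      have hm0 : m ≠ 0 := by rintro rfl; exact hm (dvd_zero 3)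
      have hqy : q ∣ y := by
        rw [hy]
        exact (dvd_pow_self q hm0).mul_right g
      have hqx : ¬ q ∣ x := fun hd => hq.not_isUnit (hxy hd hqy)
      refine h q hq hq0 m (x * g) (by rw [hy]; ring) ?_ hm
      intro hd
      rcases hq.prime.dvd_or_dvd hd with hd | hd
      · exact hqx hd
      · exact hg hd

/-- (B1) multiplicativity of `trailingCoeff * leadingCoeff ^ 2` modulo cubes -/
theorem chi_cube {k : Type} [Field k] {f : k[X]} (hf : f ≠ 0)
    (h : ∀ q : k[X], Irreducible q → q.coeff 0 ≠ 0 → ∀ (m : ℕ) (g : k[X]), f = q ^ m * g →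
      ¬ q ∣ g → ¬ 3 ∣ m → Cb (q.coeff 0 * q.leadingCoeff ^ 2)) :
    Cb (f.trailingCoeff * f.leadingCoeff ^ 2) := b1_main f hf h

end Pool.Agent.H900.P3
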