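import Pool.Agent.H900.P3.Df
set_option autoImplicit false
namespace Pool.Agent.H900.P3
open Polynomial

theorem B2_mul {k : Type} [Field k] {x y : k} (hx : Cb x) (hy : Cb y) : Cb (x * y) := by
  obtain ⟨a, rfl⟩ := hx
  obtain ⟨b, rfl⟩ := hy
  exact ⟨a * b, mul_pow a b 3⟩

theorem B2_neg_one_pow {k : Type} [Field k] (n : ℕ) : Cb ((-1 : k) ^ n) := by
  refine ⟨(-1) ^ n, ?_⟩
  rw [← pow_mul, mul_comm n 3, pow_mul]
  norm_num

/-- descent to a pair which is not divisible by `q` -/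
theorem B2_desc {k : Type} [Field k] {q g P Q : k[X]} (hq : Irreducible q) (hg : ¬ q ∣ g) (m : ℕ) :
    ∀ A B : k[X], P * A ^ 3 + Q * B ^ 3 = q ^ m * g → ¬ 3 ∣ m →
    ∃ A B : k[X], ¬ (q ∣ A ∧ q ∣ B) ∧ q ∣ P * A ^ 3 + Q * B ^ 3 := by
  induction m using Nat.strong_induction_on with
  | _ m ih =>
    intro A B h h3
    by_cases hAB : q ∣ A ∧ q ∣ B
    · obtain ⟨⟨A', hA⟩, ⟨B', hB⟩⟩ := hAB
      have e : q ^ 3 * (P * A' ^ 3 + Q * B' ^ 3) = q ^ m * g := by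
        rw [← h, hA, hB]
        ring
      by_cases hm : 3 ≤ m
      · obtain ⟨m', rfl⟩ : ∃ m', m = 3 + m' := ⟨m - 3, by omega⟩
        have e2 : P * A' ^ 3 + Q * B' ^ 3 = q ^ m' * g := by
          apply mul_left_cancel₀ (pow_ne_zero 3 hq.ne_zero)
          rw [e]
          ring
        exact ih m' (by omega) A' B' e2 (by omega)
      · exfalso
        apply hg
        obtain ⟨r, hr, hr3⟩ : ∃ r, 3 = m + (r + 1) ∧ True := ⟨3 - m - 1, by omega, trivial⟩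
        have e2 : q ^ (r + 1) * (P * A' ^ 3 + Q * B' ^ 3) = g := by
          apply mul_left_cancel₀ (pow_ne_zero m hq.ne_zero)
          rw [← e, ← mul_assoc, ← pow_add, ← hr]
        rw [← e2, pow_succ', mul_assoc]
        exact dvd_mul_right _ _
    · refine ⟨A, B, hAB, ?_⟩
      rw [h]
      have hm0 : m ≠ 0 := by
        rintro rfl
        exact h3 (dvd_zero 3)
      exact Dvd.dvd.mul_right (dvd_pow_self q hm0) g

/-- a field element with a power prime to three and a cube -/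
theorem B2_field {K : Type} [Field K] {x u v : K} (hx : x ≠ 0) (hu : u ≠ 0) {m1 m2 : ℕ}
    (hm : ¬ m1 ≡ m2 [MOD 3]) (h : x ^ m1 * u ^ 3 = x ^ m2 * v ^ 3) : Cb x := by
  have hv : v ≠ 0 := by
    rintro rfl
    have : x ^ m1 * u ^ 3 ≠ 0 := mul_ne_zero (pow_ne_zero _ hx) (pow_ne_zero _ hu)
    apply this
    rw [h]
    ring
  have h1 : ¬ (3 : ℤ) ∣ (m2 : ℤ) - m1 := by
    intro h2
    exact hm (Nat.modEq_iff_dvd.2 h2)
  obtain ⟨s, t, hst⟩ := (Int.prime_three.coprime_iff_not_dvd.2 h1).symm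
  have h2 : x ^ ((m2 : ℤ) - m1) = (u / v) ^ 3 := by
    rw [zpow_sub₀ hx, zpow_natCast, zpow_natCast, div_pow, div_eq_div_iff (pow_ne_zero _ hx)
      (pow_ne_zero _ hv), ← h]
    ring
  refine ⟨(u / v) ^ s * x ^ t, ?_⟩
  have h3 : x = (x ^ ((m2 : ℤ) - m1)) ^ s * (x ^ t) ^ 3 := by
    rw [← zpow_mul, ← zpow_natCast (x ^ t) 3, ← zpow_mul, ← zpow_add₀ hx]
    have : ((m2 : ℤ) - m1) * s + t * ((3 : ℕ) : ℤ) = 1 := by
      push_cast
      linarith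
    rw [this, zpow_one]
  rw [mul_pow]
  conv_rhs => rw [h3, h2]
  congr 1
  rw [← zpow_natCast, ← zpow_natCast, ← zpow_mul, ← zpow_mul, mul_comm]

/-- (B2) -/
theorem norm_cube {k : Type} [Field k] {q A B : k[X]} (hq : Irreducible q) (hq0 : q.coeff 0 ≠ 0)
    {c1 c2 : k} (h1 : c1 ≠ 0) (h2 : c2 ≠ 0) (hc1 : Cb c1) (hc2 : Cb c2) {m1 m2 : ℕ}
    (hm : ¬ m1 ≡ m2 [MOD 3]) {m : ℕ} {g : k[X]}
    (hg1 : C c1 * X ^ m1 * A ^ 3 + C c2 * X ^ m2 * B ^ 3 = q ^ m * g) (hg : ¬ q ∣ g)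
    (h3 : ¬ 3 ∣ m) : Cb (q.coeff 0 * q.leadingCoeff ^ 2) := by
  obtain ⟨A, B, hAB, hdvd⟩ := B2_desc hq hg m A B hg1 h3
  have : Fact (Irreducible q) := ⟨hq⟩
  obtain ⟨d1, rfl⟩ := hc1
  obtain ⟨d2, rfl⟩ := hc2
  have hd1 : d1 ≠ 0 := by
    rintro rfl
    exact h1 (by ring)
  have hd2 : d2 ≠ 0 := by
    rintro rfl
    exact h2 (by ring)
  have hx : AdjoinRoot.root q ≠ 0 := by
    intro h0
    have e : AdjoinRoot.mk q X = 0 := h0
    rw [AdjoinRoot.mk_eq_zero] at e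
    exact hq0 (X_dvd_iff.1 (hq.dvd_symm irreducible_X e))
  have hof : ∀ d : k, d ≠ 0 → AdjoinRoot.of q d ≠ 0 := fun d hd => by
    rwa [Ne, map_eq_zero]
  have hrel : AdjoinRoot.root q ^ m1 * (AdjoinRoot.of q d1 * AdjoinRoot.mk q A) ^ 3 =
      AdjoinRoot.root q ^ m2 * (-(AdjoinRoot.of q d2 * AdjoinRoot.mk q B)) ^ 3 := by
    have e := AdjoinRoot.mk_eq_zero.2 hdvd
    simp only [map_add, map_mul, map_pow, AdjoinRoot.mk_C, AdjoinRoot.mk_X] at e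
    linear_combination e
  have hA : AdjoinRoot.mk q A ≠ 0 := by
    intro hA
    have hB : AdjoinRoot.mk q B = 0 := by
      by_contra hB
      have e : AdjoinRoot.root q ^ m2 * (-(AdjoinRoot.of q d2 * AdjoinRoot.mk q B)) ^ 3 ≠ 0 :=
        mul_ne_zero (pow_ne_zero _ hx) (pow_ne_zero _ (neg_ne_zero.2 (mul_ne_zero (hof d2 hd2) hB)))
      apply e
      rw [← hrel, hA]
      ring
    exact hAB ⟨AdjoinRoot.mk_eq_zero.1 hA, AdjoinRoot.mk_eq_zero.1 hB⟩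
  obtain ⟨y, hy⟩ := B2_field hx (mul_ne_zero (hof d1 hd1) hA) hm hrel
  have hq00 := hq.ne_zero
  have hN : Algebra.norm k (AdjoinRoot.root q) =
      (-1) ^ q.natDegree * (q.coeff 0 * q.leadingCoeff⁻¹) := by
    have e := Algebra.PowerBasis.norm_gen_eq_coeff_zero_minpoly (AdjoinRoot.powerBasis hq00)
    rw [AdjoinRoot.powerBasis_gen, AdjoinRoot.powerBasis_dim, AdjoinRoot.minpoly_root hq00,
      coeff_mul_C] at e
    exact e
  have hlc : q.leadingCoeff ≠ 0 := leadingCoeff_ne_zero.2 hq00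
  have hcN : Cb ((-1) ^ q.natDegree * (q.coeff 0 * q.leadingCoeff⁻¹)) := by
    rw [← hN, ← hy]
    exact ⟨Algebra.norm k y, (map_pow _ _ _).symm⟩
  have hfin := B2_mul (B2_mul hcN (B2_neg_one_pow q.natDegree))
    (⟨q.leadingCoeff, rfl⟩ : Cb (q.leadingCoeff ^ 3))
  have e : (-1) ^ q.natDegree * (q.coeff 0 * q.leadingCoeff⁻¹) * (-1) ^ q.natDegree *
      q.leadingCoeff ^ 3 = q.coeff 0 * q.leadingCoeff ^ 2 := by
    have e1 : ((-1 : k) ^ q.natDegree) * (-1) ^ q.natDegree = 1 := by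
      rw [← mul_pow]
      norm_num
    have e2 : q.leadingCoeff⁻¹ * q.leadingCoeff ^ 3 = q.leadingCoeff ^ 2 := by
      field_simp
    calc _ = ((-1 : k) ^ q.natDegree * (-1) ^ q.natDegree) * q.coeff 0 *
        (q.leadingCoeff⁻¹ * q.leadingCoeff ^ 3) := by ring
      _ = _ := by rw [e1, e2, one_mul]
  rwa [e] at hfin

end Pool.Agent.H900.P3
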