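import Pool.Agent.H900.P3.Df
import Pool.Agent.H900.P3.B2
import Pool.Agent.H900.P3.B1
set_option autoImplicit false
namespace Pool.Agent.H900.P3
open Polynomial
theorem b3_cb_mul {k : Type} [Field k] {x y : k} (hx : Cb x) (hy : Cb y) : Cb (x * y) := by
  obtain ⟨a, rfl⟩ := hx
  obtain ⟨b, rfl⟩ := hy
  exact ⟨a * b, by ring⟩

theorem b3_cb_div {k : Type} [Field k] {x y z : k} (hz : z ≠ 0) (hx : Cb x) (hy : Cb z)
    (h : x = z * y) : Cb y := by
  obtain ⟨a, rfl⟩ := hx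
  obtain ⟨b, rfl⟩ := hy
  refine ⟨a / b, ?_⟩
  rw [div_pow, h]
  exact mul_div_cancel_left₀ y hz

theorem b3_exp_unique {k : Type} [Field k] {q : k[X]} (hq : Irreducible q) {m n : ℕ}
    {g h : k[X]} (he : q ^ m * g = q ^ n * h) (hg : ¬ q ∣ g) (hh : ¬ q ∣ h) : m = n := by
  have hq0 : q ≠ 0 := hq.ne_zero
  rcases lt_trichotomy m n with hlt | heq | hgt
  · exfalso
    obtain ⟨d, rfl⟩ := Nat.exists_eq_add_of_lt hlt
    apply hg
    have h1 : q ^ m * g = q ^ m * (q ^ (d + 1) * h) := by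
      rw [he]; ring
    have h2 := mul_left_cancel₀ (pow_ne_zero m hq0) h1
    rw [h2]
    exact Dvd.dvd.mul_right (dvd_pow_self q (by omega)) h
  · exact heq
  · exfalso
    obtain ⟨d, rfl⟩ := Nat.exists_eq_add_of_lt hgt
    apply hh
    have h1 : q ^ n * h = q ^ n * (q ^ (d + 1) * g) := by
      rw [← he]; ring
    have h2 := mul_left_cancel₀ (pow_ne_zero n hq0) h1
    rw [h2]
    exact Dvd.dvd.mul_right (dvd_pow_self q (by omega)) g

theorem b3_tc {k : Type} [Field k] (u w : k[X]) :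
    (u * w ^ 2).trailingCoeff = u.trailingCoeff * w.trailingCoeff ^ 2 := by
  have e : u * w ^ 2 = u * w * w := by ring
  rw [e, trailingCoeff_mul, trailingCoeff_mul]
  ring

theorem b3_rhs_lc {k : Type} [Field k] {A B : k[X]} {c1 c2 : k} (h1 : c1 ≠ 0) (h2 : c2 ≠ 0)
    (hc1 : Cb c1) (hc2 : Cb c2) {m1 m2 : ℕ} (hm : ¬ m1 ≡ m2 [MOD 3]) (hA : A ≠ 0) :
    Cb (C c1 * X ^ m1 * A ^ 3 + C c2 * X ^ m2 * B ^ 3).leadingCoeff := by
  have hl1 : (C c1 * X ^ m1 * A ^ 3).leadingCoeff = c1 * A.leadingCoeff ^ 3 := by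
    rw [leadingCoeff_mul, leadingCoeff_mul, leadingCoeff_C, leadingCoeff_X_pow, leadingCoeff_pow,
      mul_one]
  have hl2 : (C c2 * X ^ m2 * B ^ 3).leadingCoeff = c2 * B.leadingCoeff ^ 3 := by
    rw [leadingCoeff_mul, leadingCoeff_mul, leadingCoeff_C, leadingCoeff_X_pow, leadingCoeff_pow,
      mul_one]
  have hcb1 : Cb (c1 * A.leadingCoeff ^ 3) := b3_cb_mul hc1 ⟨_, rfl⟩
  have hcb2 : Cb (c2 * B.leadingCoeff ^ 3) := b3_cb_mul hc2 ⟨_, rfl⟩
  by_cases hB : B = 0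
  · have : C c1 * X ^ m1 * A ^ 3 + C c2 * X ^ m2 * B ^ 3 = C c1 * X ^ m1 * A ^ 3 := by
      rw [hB]; ring
    rw [this, hl1]
    exact hcb1
  · have hne1 : C c1 * X ^ m1 * A ^ 3 ≠ 0 := by
      simp [h1, hA]
    have hne2 : C c2 * X ^ m2 * B ^ 3 ≠ 0 := by
      simp [h2, hB]
    have hd1 : (C c1 * X ^ m1 * A ^ 3).natDegree = m1 + 3 * A.natDegree := by
      rw [mul_assoc, natDegree_C_mul h1, natDegree_mul (by simp) (pow_ne_zero 3 hA),
        natDegree_X_pow, natDegree_pow]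
    have hd2 : (C c2 * X ^ m2 * B ^ 3).natDegree = m2 + 3 * B.natDegree := by
      rw [mul_assoc, natDegree_C_mul h2, natDegree_mul (by simp) (pow_ne_zero 3 hB),
        natDegree_X_pow, natDegree_pow]
    have hm' : m1 % 3 ≠ m2 % 3 := hm
    rcases lt_trichotomy (m1 + 3 * A.natDegree) (m2 + 3 * B.natDegree) with hlt | heq | hgt
    · rw [leadingCoeff_add_of_degree_lt (degree_lt_degree (by rw [hd1, hd2]; exact hlt)), hl2]
      exact hcb2
    · omega
    · rw [leadingCoeff_add_of_degree_lt' (degree_lt_degree (by rw [hd1, hd2]; exact hgt)), hl1]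
      exact hcb1

/-- (B3), from (B1) and (B2) -/
theorem loc_poly {k : Type} [Field k] {u w A B : k[X]} (hu : u ≠ 0) (hw : w ≠ 0)
    (huw : u + w ≠ 0) {c1 c2 : k} (h1 : c1 ≠ 0) (h2 : c2 ≠ 0) (hc1 : Cb c1) (hc2 : Cb c2)
    {m1 m2 : ℕ} (hm : ¬ m1 ≡ m2 [MOD 3]) (hA : A ≠ 0)
    (h : u * w * (u + w) = C c1 * X ^ m1 * A ^ 3 + C c2 * X ^ m2 * B ^ 3)
    (ht : ¬ Cb (u.trailingCoeff * w.trailingCoeff ^ 2)) :
    u.natDegree = w.natDegree ∧ ¬ Cb (u.leadingCoeff * w.leadingCoeff ^ 2) := by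
  have hf : u * w ^ 2 ≠ 0 := mul_ne_zero hu (pow_ne_zero 2 hw)
  have hchi : Cb ((u * w ^ 2).trailingCoeff * (u * w ^ 2).leadingCoeff ^ 2) := by
    refine chi_cube hf ?_
    intro q hq hq0 m g hmg hqg h3
    obtain ⟨a, u1, hu1, hua⟩ := WfDvdMonoid.max_power_factor hu hq
    obtain ⟨b, w1, hw1, hwb⟩ := WfDvdMonoid.max_power_factor hw hq
    have hpr : Prime q := hq.prime
    have hne : ¬ q ∣ u1 * w1 ^ 2 := by
      intro hd
      rcases hpr.dvd_or_dvd hd with h' | h'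
      · exact hu1 h'
      · exact hw1 (hpr.dvd_of_dvd_pow h')
    have hmab : m = a + 2 * b := by
      refine b3_exp_unique hq (g := g) (h := u1 * w1 ^ 2) ?_ hqg hne
      rw [← hmg, hua, hwb]
      ring
    rcases lt_trichotomy a b with hlt | heq | hgt
    · obtain ⟨d, hd⟩ := Nat.exists_eq_add_of_lt hlt
      have e1 : u * w * (u + w) = q ^ (2 * a + b) * (u1 * w1 * (u1 + q ^ (d + 1) * w1)) := by
        rw [hua, hwb, hd]; ring
      have e2 : ¬ q ∣ u1 * w1 * (u1 + q ^ (d + 1) * w1) := by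
        intro hdv
        rcases hpr.dvd_or_dvd hdv with h' | h'
        · rcases hpr.dvd_or_dvd h' with h'' | h''
          · exact hu1 h''
          · exact hw1 h''
        · apply hu1
          have h5 : q ∣ q ^ (d + 1) * w1 := Dvd.dvd.mul_right (dvd_pow_self q (by omega)) w1
          exact (dvd_add_left h5).1 h'
      exact norm_cube hq hq0 h1 h2 hc1 hc2 hm (h.symm.trans e1) e2 (by omega)
    · exfalso
      apply h3
      rw [hmab, heq]
      exact ⟨b, by ring⟩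
    · obtain ⟨d, hd⟩ := Nat.exists_eq_add_of_lt hgt
      have e1 : u * w * (u + w) = q ^ (a + 2 * b) * (u1 * w1 * (q ^ (d + 1) * u1 + w1)) := by
        rw [hua, hwb, hd]; ring
      have e2 : ¬ q ∣ u1 * w1 * (q ^ (d + 1) * u1 + w1) := by
        intro hdv
        rcases hpr.dvd_or_dvd hdv with h' | h'
        · rcases hpr.dvd_or_dvd h' with h'' | h''
          · exact hu1 h''
          · exact hw1 h''
        · apply hw1
          have h5 : q ∣ q ^ (d + 1) * u1 := Dvd.dvd.mul_right (dvd_pow_self q (by omega)) u1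
          exact (dvd_add_right h5).1 h'
      exact norm_cube hq hq0 h1 h2 hc1 hc2 hm (h.symm.trans e1) e2 (by omega)
  rw [b3_tc, leadingCoeff_mul, leadingCoeff_pow] at hchi
  have hlu : u.leadingCoeff ≠ 0 := leadingCoeff_ne_zero.2 hu
  have hlw : w.leadingCoeff ≠ 0 := leadingCoeff_ne_zero.2 hw
  have hlc : ¬ Cb (u.leadingCoeff * w.leadingCoeff ^ 2) := by
    intro hc
    apply ht
    refine b3_cb_div (z := (u.leadingCoeff * w.leadingCoeff ^ 2) ^ 2)
      (pow_ne_zero 2 (mul_ne_zero hlu (pow_ne_zero 2 hlw))) hchi ?_ (by ring)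
    have := b3_cb_mul hc hc
    rwa [← sq] at this
  refine ⟨?_, hlc⟩
  have hr := b3_rhs_lc (B := B) h1 h2 hc1 hc2 hm hA
  rw [← h, leadingCoeff_mul, leadingCoeff_mul] at hr
  rcases lt_trichotomy u.natDegree w.natDegree with hlt | heq | hgt
  · exfalso
    apply hlc
    rw [leadingCoeff_add_of_degree_lt (degree_lt_degree hlt)] at hr
    have e : u.leadingCoeff * w.leadingCoeff ^ 2 = u.leadingCoeff * w.leadingCoeff *
      w.leadingCoeff := by ring
    rw [e]
    exact hr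
  · exact heq
  · exfalso
    apply hlc
    rw [leadingCoeff_add_of_degree_lt' (degree_lt_degree hgt)] at hr
    refine b3_cb_div (z := u.leadingCoeff ^ 3) (pow_ne_zero 3 hlu) (b3_cb_mul hr hr) ⟨_, rfl⟩ ?_
    ring
end Pool.Agent.H900.P3
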