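import Pool.Agent.H900.P3.Df
set_option autoImplicit false
namespace Pool.Agent.H900.P3
open Polynomial

theorem c1_cube_td {k : Type} [Field k] {A : k[X]} (hA : A ≠ 0) :
    (A ^ 3).natTrailingDegree = 3 * A.natTrailingDegree := by
  have h2 : A * A ≠ 0 := mul_ne_zero hA hA
  have e : A ^ 3 = A * A * A := by ring
  rw [e, natTrailingDegree_mul h2 hA, natTrailingDegree_mul hA hA]
  omega

theorem c1_cube_tc {k : Type} [Field k] {A : k[X]} :
    (A ^ 3).trailingCoeff = A.trailingCoeff ^ 3 := by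
  have e : A ^ 3 = A * A * A := by ring
  rw [e, trailingCoeff_mul, trailingCoeff_mul]
  ring

/-- (C1) -/
theorem sum_ne {H k J : Type} [AddCommGroup H] [Field k] [Fintype J] {Γ : AddSubgroup H}
    {γ μ : H} {β : J → H} {A : J → k[X]} (hβ : Cap Γ β) (hL : Lev Γ γ μ β A) {c : J → k}
    (hc : ∀ j, c j ≠ 0) (hne : ∃ j, A j ≠ 0) : ∑ j, C (c j) * A j ^ 3 ≠ 0 := by
  classical
  have hdist : ∀ i j, i ≠ j → A i ≠ 0 → A j ≠ 0 →
      (A i).natTrailingDegree ≠ (A j).natTrailingDegree := by
    intro i j hij hi hj he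
    obtain ⟨αi, h1, h2⟩ := hL i hi
    obtain ⟨αj, h3, h4⟩ := hL j hj
    have h5 := h2 _ (natTrailingDegree_mem_support_of_nonzero hi)
    have h6 := h4 _ (natTrailingDegree_mem_support_of_nonzero hj)
    rw [he] at h5
    have h7 := Γ.sub_mem h6 h5
    have h8 : αj - (A j).natTrailingDegree • γ - (αi - (A j).natTrailingDegree • γ) = αj - αi := by
      abel
    rw [h8] at h7
    refine hβ.2.1 i j hij _ h7 ?_
    have h9 : β i = μ - 3 • αi := by rw [← h1]; abel
    have h10 : β j = μ - 3 • αj := by rw [← h3]; abel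
    rw [h9, h10, smul_sub]
    abel
  obtain ⟨j1, hj1⟩ := hne
  obtain ⟨j0, hj0, hmin⟩ := (Finset.univ.filter (fun j => A j ≠ 0)).exists_min_image
    (fun j => (A j).natTrailingDegree) ⟨j1, by simpa using hj1⟩
  have hA0 : A j0 ≠ 0 := by simpa using hj0
  intro hz
  have hco := congrArg (fun P : k[X] => P.coeff (3 * (A j0).natTrailingDegree)) hz
  simp only [finsetSum_coeff, coeff_C_mul, coeff_zero] at hco
  rw [Finset.sum_eq_single j0] at hco
  · have h1 : (A j0 ^ 3).coeff (3 * (A j0).natTrailingDegree) = (A j0 ^ 3).trailingCoeff := by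
      rw [trailingCoeff, c1_cube_td hA0]
    rw [h1, c1_cube_tc] at hco
    exact mul_ne_zero (hc j0) (pow_ne_zero 3 (trailingCoeff_nonzero_iff_nonzero.2 hA0)) hco
  · intro j _ hj
    by_cases hAj : A j = 0
    · simp [hAj]
    · have h2 : (A j0).natTrailingDegree ≤ (A j).natTrailingDegree := hmin j (by simpa using hAj)
      have h3 := hdist j j0 hj hAj hA0
      rw [coeff_eq_zero_of_lt_natTrailingDegree, mul_zero]
      rw [c1_cube_td hAj]
      omega
  · intro h
    exact absurd (Finset.mem_univ _) h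
end Pool.Agent.H900.P3
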