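import Pool.Agent.H900.P3.Df
import Pool.Agent.H900.P3.B3
set_option autoImplicit false
namespace Pool.Agent.H900.P3
open Polynomial
/-- a polynomial whose exponents are congruent to `l` modulo `b` -/
theorem C2_exists_expand {k : Type} [Field k] (P : k[X]) (b l : ℕ)
    (h : ∀ i ∈ P.support, l ≤ i ∧ b ∣ i - l) : ∃ P' : k[X], P = X ^ l * expand k b P' := by
  refine ⟨∑ i ∈ P.support, monomial ((i - l) / b) (P.coeff i), ?_⟩
  rw [map_sum, Finset.mul_sum]
  conv_lhs => rw [P.as_sum_support]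
  apply Finset.sum_congr rfl
  intro i hi
  obtain ⟨h1, h2⟩ := h i hi
  rw [expand_monomial, Nat.div_mul_cancel h2, X_pow_mul_monomial, Nat.sub_add_cancel h1]


/-- the trailing coefficient of `P'` if `P = X ^ l * expand b P'` -/
theorem C2_trailing {k : Type} [Field k] {P P' : k[X]} {b l : ℕ} (hb : 0 < b) (hP : P ≠ 0)
    (h : P = X ^ l * expand k b P') (hl : P.natTrailingDegree = l) :
    P'.trailingCoeff = P.trailingCoeff := by
  have h0 : P'.coeff 0 = P.coeff l := by
    have h3 := coeff_X_pow_mul (expand k b P') l 0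
    rw [zero_add, ← h, coeff_expand hb] at h3
    rw [h3]
    simp
  have h1 : P.trailingCoeff = P.coeff l := by
    rw [trailingCoeff, hl]
  have h2 : P'.coeff 0 ≠ 0 := by
    rw [h0, ← h1]
    exact (trailingCoeff_nonzero_iff_nonzero).2 hP
  rw [h1, ← h0, trailingCoeff, natTrailingDegree_eq_zero.2 (Or.inr h2)]

theorem C2_deg {k : Type} [Field k] {P P' : k[X]} {b l : ℕ} (hb : 0 < b) (hP : P ≠ 0)
    (h : P = X ^ l * expand k b P') :
    P.natDegree = l + P'.natDegree * b ∧ P.leadingCoeff = P'.leadingCoeff := by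
  have hP' : expand k b P' ≠ 0 := by
    intro h0
    apply hP
    rw [h, h0, mul_zero]
  constructor
  · rw [h, natDegree_X_pow_mul _ hP', natDegree_expand]
    ring
  · rw [h, leadingCoeff_mul, leadingCoeff_expand hb]
    simp

theorem C2_order {H : Type} [AddCommGroup H] {Γ : AddSubgroup H} {γ : H} {e : ℕ} (he : e ≠ 0)
    (heγ : e • γ ∈ Γ) : ∃ b : ℕ, 0 < b ∧ ∀ n : ℤ, n • γ ∈ Γ ↔ (b : ℤ) ∣ n := by
  refine ⟨addOrderOf (QuotientAddGroup.mk γ : H ⧸ Γ), ?_, ?_⟩
  · rw [addOrderOf_pos_iff, isOfFinAddOrder_iff_nsmul_eq_zero]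
    refine ⟨e, Nat.pos_of_ne_zero he, ?_⟩
    rw [← QuotientAddGroup.mk_nsmul]
    exact (QuotientAddGroup.eq_zero_iff _).2 heγ
  · intro n
    rw [addOrderOf_dvd_iff_zsmul_eq_zero, ← QuotientAddGroup.mk_zsmul,
      QuotientAddGroup.eq_zero_iff]

theorem C2_supp {H k : Type} [AddCommGroup H] [Field k] {Γ : AddSubgroup H} {γ α : H} {b : ℕ}
    (hb : ∀ n : ℤ, n • γ ∈ Γ ↔ (b : ℤ) ∣ n) {P : k[X]} (hP : P ≠ 0)
    (h : ∀ i ∈ P.support, α - i • γ ∈ Γ) :
    ∀ i ∈ P.support, P.natTrailingDegree ≤ i ∧ b ∣ i - P.natTrailingDegree := by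
  intro i hi
  have h1 := natTrailingDegree_le_of_mem_supp i hi
  refine ⟨h1, ?_⟩
  have h2 := h i hi
  have h3 := h _ (natTrailingDegree_mem_support_of_nonzero hP)
  have h4 := Γ.sub_mem h3 h2
  have h5 : ((i - P.natTrailingDegree : ℕ) : ℤ) • γ ∈ Γ := by
    convert h4 using 1
    rw [Nat.cast_sub h1]
    module
  exact Int.natCast_dvd_natCast.1 ((hb _).1 h5)

/-- arithmetic: three numbers, distinct modulo `b`, equal modulo `b` after multiplication
by three -/
theorem C2_three {b : ℕ} {x y : ℤ} (hx : ¬ (b : ℤ) ∣ x) (hy : ¬ (b : ℤ) ∣ y)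
    (hxy : ¬ (b : ℤ) ∣ x - y) (h3x : (b : ℤ) ∣ 3 * x) (h3y : (b : ℤ) ∣ 3 * y) :
    (b : ℤ) ∣ x + y := by
  have h3 : (3 : ℤ) ∣ b := by
    by_contra hn
    have hc : IsCoprime (b : ℤ) 3 := by
      have hp : Prime (3 : ℤ) := Int.prime_three
      exact ((Prime.coprime_iff_not_dvd hp).2 hn).symm
    exact hx (hc.dvd_of_dvd_mul_left h3x)
  obtain ⟨c, hc⟩ := h3
  have hc0 : c ≠ 0 := by
    rintro rfl
    obtain ⟨t, ht⟩ := h3x
    rw [hc] at ht
    apply hx
    have : x = 0 := by linarith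
    rw [this]
    exact dvd_zero _
  obtain ⟨x', hx'⟩ := h3x
  obtain ⟨y', hy'⟩ := h3y
  have ex : x = c * x' := by
    rw [hc] at hx'
    linarith
  have ey : y = c * y' := by
    rw [hc] at hy'
    linarith
  rw [hc] at hx hy hxy ⊢
  have key : ∀ z : ℤ, 3 * c ∣ c * z ↔ (3 : ℤ) ∣ z := by
    intro z
    rw [mul_comm 3 c]
    exact mul_dvd_mul_iff_left hc0
  rw [ex, key] at hx
  rw [ey, key] at hy
  rw [ex, ey, ← mul_sub, key] at hxy
  rw [ex, ey, ← mul_add, key]
  have a1 : x' % 3 = 1 ∨ x' % 3 = 2 := by omega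
  have a2 : y' % 3 = 1 ∨ y' % 3 = 2 := by omega
  rcases a1 with a1 | a1 <;> rcases a2 with a2 | a2 <;> omega

/-- (C2), from (B3) -/
theorem exp_step {H k J : Type} [AddCommGroup H] [Field k] [Fintype J] {Γ : AddSubgroup H}
    {γ ν : H} {e : ℕ} (he : e ≠ 0) (heγ : e • γ ∈ Γ) {β : J → H} {A : J → k[X]} (hβ : Cap Γ β)
    (hL : Lev Γ γ (3 • ν) β A) {c : J → k} (hc : ∀ j, c j ≠ 0 ∧ Cb (c j)) {u w : k[X]}
    (hu : u ≠ 0) (hw : w ≠ 0) (huw : u + w ≠ 0) (hsu : ∀ i ∈ u.support, ν - i • γ ∈ Γ)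
    (hsw : ∀ i ∈ w.support, ν - i • γ ∈ Γ) (h : u * w * (u + w) = ∑ j, C (c j) * A j ^ 3)
    (ht : u.natTrailingDegree = w.natTrailingDegree)
    (hcb : ¬ Cb (u.trailingCoeff * w.trailingCoeff ^ 2)) :
    u.natDegree = w.natDegree ∧ ¬ Cb (u.leadingCoeff * w.leadingCoeff ^ 2) := by
  classical
  obtain ⟨b, hb0, hb⟩ := C2_order he heγ
  obtain ⟨hβ1, hβ2, hβ3⟩ := hβ
  set l := u.natTrailingDegree with hl
  -- the polynomials `u` and `w`
  obtain ⟨u', hu'⟩ := C2_exists_expand u b l (C2_supp hb hu hsu)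
  obtain ⟨w', hw'⟩ := C2_exists_expand w b l (by rw [ht]; exact C2_supp hb hw hsw)
  have hνl : ν - l • γ ∈ Γ := hsu _ (natTrailingDegree_mem_support_of_nonzero hu)
  -- the polynomials `A j`
  set r : J → ℕ := fun j => (A j).natTrailingDegree with hr
  have hA : ∀ j, ∃ A' : k[X], A j = X ^ r j * expand k b A' := by
    intro j
    by_cases hj : A j = 0
    · exact ⟨0, by rw [hj]; simp⟩
    · obtain ⟨α, -, h2⟩ := hL j hj
      exact C2_exists_expand (A j) b (r j) (C2_supp hb hj h2)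
  choose A' hA' using hA
  have hα : ∀ j, ∃ α : H, A j ≠ 0 → β j + 3 • α = 3 • ν ∧ α - r j • γ ∈ Γ := by
    intro j
    by_cases hj : A j = 0
    · exact ⟨0, fun h => absurd hj h⟩
    · obtain ⟨α, h1, h2⟩ := hL j hj
      exact ⟨α, fun _ => ⟨h1, h2 _ (natTrailingDegree_mem_support_of_nonzero hj)⟩⟩
  choose α hα using hα
  -- the differences
  have K1 : ∀ i j, A i ≠ 0 → A j ≠ 0 → β i - β j = 3 • (α j - α i) := by
    intro i j hi hj
    have h1 := (hα i hi).1
    have h2 := (hα j hj).1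
    have h3 : β i + 3 • α i = β j + 3 • α j := by rw [h1, h2]
    have h4 : β i - β j = 3 • α j - 3 • α i := by
      rw [sub_eq_sub_iff_add_eq_add, h3]; abel
    rw [h4, smul_sub]
  have K1' : ∀ i j, A i ≠ 0 → A j ≠ 0 → (α j - α i) - ((r j : ℤ) - r i) • γ ∈ Γ := by
    intro i j hi hj
    have h1 := Γ.sub_mem (hα j hj).2 (hα i hi).2
    convert h1 using 1
    module
  have K2 : ∀ i j, A i ≠ 0 → A j ≠ 0 → i ≠ j → ¬ (b : ℤ) ∣ (r j : ℤ) - r i := by
    intro i j hi hj hij hd
    have h1 := (hb _).2 hd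
    have h2 := Γ.add_mem (K1' i j hi hj) h1
    rw [sub_add_cancel] at h2
    exact hβ2 i j hij _ h2 (K1 i j hi hj)
  have K2' : ∀ i j, A i ≠ 0 → A j ≠ 0 → (b : ℤ) ∣ 3 * ((r j : ℤ) - r i) := by
    intro i j hi hj
    rw [← hb]
    have h1 := Γ.nsmul_mem (K1' i j hi hj) 3
    have h2 : 3 • (α j - α i) ∈ Γ := by
      rw [← K1 i j hi hj]
      exact Γ.sub_mem (hβ1 i) (hβ1 j)
    have h3 := Γ.sub_mem h2 h1
    convert h3 using 1
    module
  have K3 : ∀ j, A j ≠ 0 → (b : ℤ) ∣ 3 * (r j : ℤ) - 3 * l := by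
    intro j hj
    rw [← hb]
    have h1 := Γ.nsmul_mem hνl 3
    have h2 := Γ.nsmul_mem (hα j hj).2 3
    have h3 := Γ.sub_mem (Γ.sub_mem h1 h2) (hβ1 j)
    convert h3 using 1
    have h4 := (hα j hj).1
    have h5 : β j = 3 • ν - 3 • α j := by rw [← h4]; abel
    rw [h5]
    module
  have K4 : ∀ i j m, A i ≠ 0 → A j ≠ 0 → A m ≠ 0 → i ≠ j → i ≠ m → j ≠ m → False := by
    intro i j m hi hj hm hij him hjm
    have h1 := C2_three (K2 i j hi hj hij) (K2 i m hi hm him)
      (by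
        have e1 : ((r j : ℤ) - r i) - ((r m : ℤ) - r i) = (r j : ℤ) - r m := by ring
        rw [e1]
        exact K2 m j hm hj hjm.symm) (K2' i j hi hj) (K2' i m hi hm)
    have h2 := (hb _).2 h1
    have h3 := Γ.add_mem (Γ.add_mem (K1' i j hi hj) (K1' i m hi hm)) h2
    apply hβ3 i j m hij him hjm _ h3
    have h4 := K1 i j hi hj
    have h5 := K1 i m hi hm
    have h6 : 2 • β i - β j - β m = (β i - β j) + (β i - β m) := by rw [two_smul]; abel
    rw [h6, h4, h5]
    module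
  -- the exponents
  have hfac : u * w * (u + w) = X ^ (3 * l) * expand k b (u' * w' * (u' + w')) := by
    rw [hu', hw', map_mul, map_mul, map_add]
    ring
  have K5 : ∀ j, A j ≠ 0 → l ≤ r j := by
    intro j hj
    by_contra hlt
    push Not at hlt
    obtain ⟨j0, hj0, hmin⟩ := Finset.exists_min_image (Finset.univ.filter fun j => A j ≠ 0) r
      ⟨j, by simp [hj]⟩
    rw [Finset.mem_filter] at hj0
    have hj0' := hj0.2
    have h0 : r j0 < l := lt_of_le_of_lt (hmin j (by simp [hj])) hlt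
    have hcoef : (u * w * (u + w)).coeff (3 * r j0) = 0 := by
      rw [hfac, coeff_X_pow_mul', if_neg (by omega)]
    rw [h, finsetSum_coeff, Finset.sum_eq_single j0] at hcoef
    · rw [coeff_C_mul, mul_eq_zero] at hcoef
      rcases hcoef with hcoef | hcoef
      · exact (hc j0).1 hcoef
      · have h1 : (A j0 ^ 3).coeff (3 * r j0) = (A j0).trailingCoeff ^ 3 := by
          rw [hA' j0, mul_pow, ← pow_mul, mul_comm 3 (r j0)]
          have h3 := coeff_X_pow_mul ((expand k b (A' j0)) ^ 3) (r j0 * 3) 0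
          rw [zero_add] at h3
          rw [h3, coeff_zero_eq_eval_zero, eval_pow, ← coeff_zero_eq_eval_zero]
          have h4 := coeff_X_pow_mul ((expand k b (A' j0))) (r j0) 0
          rw [zero_add, ← hA' j0] at h4
          rw [← h4, ← hA' j0]
          rfl
        rw [h1] at hcoef
        have h2 : (A j0).trailingCoeff = 0 := by
          exact pow_eq_zero_iff (by norm_num) |>.1 hcoef
        exact hj0' (trailingCoeff_eq_zero.1 h2)
    · intro i _ hi
      rw [coeff_C_mul]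
      by_cases hAi : A i = 0
      · rw [hAi]; simp
      · have h1 : r j0 ≤ r i := hmin i (by simp [hAi])
        have h2 : r j0 ≠ r i := by
          intro h3
          apply K2 i j0 hAi hj0' hi
          rw [h3, sub_self]
          exact dvd_zero _
        rw [hA' i, mul_pow, ← pow_mul, coeff_X_pow_mul', if_neg (by omega), mul_zero]
    · intro h1
      exact absurd (Finset.mem_univ _) h1
  have K6 : ∀ j, ∃ m : ℕ, A j ≠ 0 → 3 * r j = 3 * l + b * m := by
    intro j
    by_cases hj : A j = 0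
    · exact ⟨0, fun h => absurd hj h⟩
    · obtain ⟨m, hm⟩ := K3 j hj
      have h1 := K5 j hj
      have hm0 : 0 ≤ m := by
        by_contra hneg
        push Not at hneg
        have : (b : ℤ) * m < 0 := mul_neg_of_pos_of_neg (by exact_mod_cast hb0) hneg
        omega
      refine ⟨m.toNat, fun _ => ?_⟩
      have h2 : ((3 * r j : ℕ) : ℤ) = ((3 * l + b * m.toNat : ℕ) : ℤ) := by
        push_cast
        rw [Int.toNat_of_nonneg hm0, ← hm]
        ring
      exact_mod_cast h2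
  choose m hm using K6
  have K7 : ∀ i j, A i ≠ 0 → A j ≠ 0 → i ≠ j → ¬ m i ≡ m j [MOD 3] := by
    intro i j hi hj hij hmod
    have h1 := (Nat.modEq_iff_dvd.1 hmod)
    obtain ⟨t, ht⟩ := h1
    push_cast at ht
    apply K2 i j hi hj hij
    refine ⟨t, ?_⟩
    have h2 := hm i hi
    have h3 := hm j hj
    have h4 : (3 : ℤ) * r i = 3 * l + b * m i := by exact_mod_cast h2
    have h5 : (3 : ℤ) * r j = 3 * l + b * m j := by exact_mod_cast h3
    have h6 : (3 : ℤ) * (r j - r i) = 3 * (b * t) := by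
      have h7 : (m j : ℤ) = m i + 3 * t := by linarith
      rw [h7] at h5
      linear_combination h5 - h4
    linarith
  have K8 : ∀ j, C (c j) * A j ^ 3 = X ^ (3 * l) * expand k b (C (c j) * X ^ (m j) * A' j ^ 3) := by
    intro j
    by_cases hj : A j = 0
    · have h0 : A' j = 0 := by
        have h1 := hA' j
        rw [hj] at h1
        have h2 : expand k b (A' j) = 0 := by
          rcases mul_eq_zero.1 h1.symm with h2 | h2
          · exact absurd h2 (pow_ne_zero _ X_ne_zero)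
          · exact h2
        exact (expand_eq_zero hb0).1 h2
      rw [hj, h0]
      simp
    · have h1 := hm j hj
      rw [hA' j, map_mul, map_mul, map_pow, map_pow, expand_C, expand_X, mul_pow, ← pow_mul,
        mul_comm (r j) 3, h1, pow_add, pow_mul]
      ring
  have hX : (X : k[X]) ^ (3 * l) ≠ 0 := pow_ne_zero _ X_ne_zero
  have hmain : u' * w' * (u' + w') = ∑ j, C (c j) * X ^ (m j) * A' j ^ 3 := by
    apply expand_injective hb0
    apply mul_left_cancel₀ hX
    rw [← hfac, h, map_sum, Finset.mul_sum]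
    exact Finset.sum_congr rfl fun j _ => K8 j
  have hu0 : u' ≠ 0 := by
    rintro rfl
    apply hu
    rw [hu']; simp
  have hw0 : w' ≠ 0 := by
    rintro rfl
    apply hw
    rw [hw']; simp
  have huw0 : u' + w' ≠ 0 := by
    intro h0
    apply huw
    rw [hu', hw', ← mul_add, ← map_add, h0]; simp
  have hne : u' * w' * (u' + w') ≠ 0 := mul_ne_zero (mul_ne_zero hu0 hw0) huw0
  have htr : ¬ Cb (u'.trailingCoeff * w'.trailingCoeff ^ 2) := by
    rw [C2_trailing hb0 hu hu' hl.symm, C2_trailing hb0 hw hw' ht.symm]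
    exact hcb
  have hA0 : ∀ j, A j ≠ 0 → A' j ≠ 0 := by
    intro j hj h0
    apply hj
    rw [hA' j, h0]; simp
  have hA0' : ∀ j, A j = 0 → A' j = 0 := by
    intro j hj
    have h1 := hA' j
    rw [hj] at h1
    have h2 : expand k b (A' j) = 0 := by
      rcases mul_eq_zero.1 h1.symm with h2 | h2
      · exact absurd h2 (pow_ne_zero _ X_ne_zero)
      · exact h2
    exact (expand_eq_zero hb0).1 h2
  -- the conclusion for `u'` and `w'`
  have hfin : u'.natDegree = w'.natDegree ∧ ¬ Cb (u'.leadingCoeff * w'.leadingCoeff ^ 2) := by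
    have hex : ∃ j, A j ≠ 0 := by
      by_contra hno
      push Not at hno
      apply hne
      rw [hmain]
      apply Finset.sum_eq_zero
      intro j _
      rw [hA0' j (hno j)]
      simp
    obtain ⟨j1, hj1⟩ := hex
    by_cases h2 : ∃ j2, j2 ≠ j1 ∧ A j2 ≠ 0
    · obtain ⟨j2, hj21, hj2⟩ := h2
      rw [Finset.sum_eq_add j1 j2 hj21.symm ?_ ?_ ?_] at hmain
      · exact loc_poly hu0 hw0 huw0 (hc j1).1 (hc j2).1 (hc j1).2 (hc j2).2
          (K7 j1 j2 hj1 hj2 hj21.symm) (hA0 j1 hj1) hmain htr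
      · rintro j _ ⟨h3, h4⟩
        by_cases hj : A j = 0
        · rw [hA0' j hj]; simp
        · exact (K4 j1 j2 j hj1 hj2 hj hj21.symm h3.symm h4.symm).elim
      · intro h3; exact absurd (Finset.mem_univ _) h3
      · intro h3; exact absurd (Finset.mem_univ _) h3
    · push Not at h2
      rw [Finset.sum_eq_single j1 ?_ ?_] at hmain
      · refine loc_poly (A := A' j1) (B := 0) (c2 := 1) (m1 := m j1) (m2 := m j1 + 1)
          hu0 hw0 huw0 (hc j1).1 one_ne_zero (hc j1).2 ⟨1, one_pow _⟩ ?_ (hA0 j1 hj1) ?_ htr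
        · intro h3
          have h4 := Nat.modEq_iff_dvd.1 h3
          push_cast at h4
          omega
        · rw [hmain]; simp
      · intro j _ hj
        rw [hA0' j (h2 j hj)]; simp
      · intro h3; exact absurd (Finset.mem_univ _) h3
  obtain ⟨hd1, hd2⟩ := C2_deg hb0 hu hu'
  obtain ⟨he1, he2⟩ := C2_deg hb0 hw hw'
  rw [hd1, he1, hd2, he2, hfin.1]
  exact ⟨rfl, hfin.2⟩

end Pool.Agent.H900.P3
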