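import Pool.Agent.H900.P3.Df
set_option autoImplicit false
namespace Pool.Agent.H900.P3
open MvPolynomial Module

theorem g_cube_rat {K κ : Type} [Field K] [Field κ] [Algebra K κ] {t : κ}
    (ht : Transcendental K t) {R : Polynomial K} (hR : R ≠ 0) {y : κ}
    (hy : y ∈ IntermediateField.adjoin K {t}) (h : y ^ 3 = Polynomial.aeval t R) :
    ∃ g : Polynomial K, g ^ 3 = R := by
  have hinj := transcendental_iff_injective.1 ht
  obtain ⟨P, Q, hPQ⟩ := (IntermediateField.mem_adjoin_simple_iff K y).1 hy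
  have hRt : Polynomial.aeval t R ≠ 0 := fun h0 => hR (hinj (by rw [h0, map_zero]))
  have hQt : Polynomial.aeval t Q ≠ 0 := by
    intro h0
    rw [h0, div_zero] at hPQ
    rw [hPQ] at h
    exact hRt (by rw [← h]; ring)
  have hQ : Q ≠ 0 := fun h0 => hQt (by rw [h0, map_zero])
  have e1 : P ^ 3 = R * Q ^ 3 := by
    apply hinj
    rw [map_pow, map_mul, map_pow, ← h, hPQ, div_pow]
    field_simp
  have hdvd : Q ∣ P := (UniqueFactorizationMonoid.pow_dvd_pow_iff_dvd (n := 3) (by norm_num)).1 ⟨R, by rw [e1]; ring⟩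
  obtain ⟨g, hg⟩ := hdvd
  refine ⟨g, ?_⟩
  have e2 : Q ^ 3 * g ^ 3 = Q ^ 3 * R := by
    rw [← mul_pow, ← hg, e1]; ring
  exact mul_left_cancel₀ (pow_ne_zero 3 hQ) e2

theorem g_finrank_three {F κ : Type} [Field F] [Field κ] [Algebra F κ] {a : κ} {r : F}
    (ha : a ^ 3 = algebraMap F κ r) (hr : ∀ b : F, b ^ 3 ≠ r) :
    finrank F (IntermediateField.adjoin F {a}) = 3 := by
  have hirr : Irreducible (Polynomial.X ^ 3 - Polynomial.C r) :=
    X_pow_sub_C_irreducible_of_prime Nat.prime_three hr
  have hmon : (Polynomial.X ^ 3 - Polynomial.C r).Monic :=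
    Polynomial.monic_X_pow_sub_C r (by norm_num)
  have hev : Polynomial.aeval a (Polynomial.X ^ 3 - Polynomial.C r) = 0 := by
    rw [map_sub, map_pow, Polynomial.aeval_X, Polynomial.aeval_C, ha, sub_self]
  have hmin := minpoly.eq_of_irreducible_of_monic hirr hev hmon
  have hint : IsIntegral F a := ⟨_, hmon, by rwa [← Polynomial.aeval_def]⟩
  rw [IntermediateField.adjoin.finrank hint, ← hmin, Polynomial.natDegree_X_pow_sub_C]

theorem g_dvd {F κ : Type} [Field F] [Field κ] [Algebra F κ] {a : κ} {r : F}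
    (ha : a ^ 3 = algebraMap F κ r) (hr : ∀ b : F, b ^ 3 ≠ r) : 3 ∣ finrank F κ := by
  have h1 := g_finrank_three ha hr
  have h2 := Module.finrank_mul_finrank F (IntermediateField.adjoin F {a}) κ
  rw [h1] at h2
  exact ⟨_, h2.symm⟩

section

variable {Ω κ σ : Type} [Field Ω] [Field κ] [Algebra Ω κ]

theorem g_transc {V : σ → κ} (hV : AlgebraicIndependent Ω V) (i0 : σ) :
    Transcendental (IntermediateField.adjoin Ω (V '' {i | i ≠ i0})) (V i0) := by
  rw [IntermediateField.transcendental_adjoin_iff]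
  exact hV.transcendental_adjoin (s := {i | i ≠ i0}) (i := i0) (by simp)

theorem g_rho (V : σ → κ) {i0 : σ} {p : MvPolynomial σ Ω} (hp : i0 ∉ p.vars) :
    aeval V p ∈ IntermediateField.adjoin Ω (V '' {i | i ≠ i0}) := by
  have h1 : p ∈ supported Ω {i | i ≠ i0} := by
    rw [mem_supported]
    intro i hi
    show i ≠ i0
    rintro rfl
    exact hp hi
  have h2 : supported Ω {i | i ≠ i0} ≤
      (IntermediateField.adjoin Ω (V '' {i | i ≠ i0})).toSubalgebra.comap (aeval V) := by
    rw [supported_eq_adjoin_X, Algebra.adjoin_le_iff]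
    rintro _ ⟨i, hi, rfl⟩
    simp only [Subalgebra.coe_comap, Set.mem_preimage, aeval_X]
    exact IntermediateField.subset_adjoin Ω _ ⟨i, hi, rfl⟩
  exact h2 h1

theorem g_incl (V : σ → κ) (i0 : σ) {S : Set κ} {t : κ}
    (hS : S ⊆ {t}) (h0 : V i0 ∈ IntermediateField.adjoin
      (IntermediateField.adjoin Ω (V '' {i | i ≠ i0})) {t}) {y : κ}
    (hy : y ∈ IntermediateField.adjoin Ω (Set.range V ∪ S)) :
    y ∈ IntermediateField.adjoin (IntermediateField.adjoin Ω (V '' {i | i ≠ i0})) {t} := by
  have h1 : IntermediateField.adjoin Ω (Set.range V ∪ S) ≤ IntermediateField.restrictScalars Ω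
      (IntermediateField.adjoin (IntermediateField.adjoin Ω (V '' {i | i ≠ i0})) {t}) := by
    rw [IntermediateField.adjoin_le_iff]
    rintro x (⟨i, rfl⟩ | hx)
    · by_cases hi : i = i0
      · rw [hi]
        exact h0
      · have h2 : V i ∈ IntermediateField.adjoin Ω (V '' {i | i ≠ i0}) :=
          IntermediateField.subset_adjoin Ω _ ⟨i, hi, rfl⟩
        exact IntermediateField.algebraMap_mem (IntermediateField.adjoin
          (IntermediateField.adjoin Ω (V '' {i | i ≠ i0})) {t}) ⟨V i, h2⟩
    · rw [hS hx]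
      exact IntermediateField.mem_adjoin_simple_self _ t
  exact h1 hy

end

theorem g_natDegree_cube {K : Type} [Field K] {g R : Polynomial K} (h : g ^ 3 = R) :
    3 ∣ R.natDegree := by
  rw [← h, Polynomial.natDegree_pow]
  exact dvd_mul_right _ _

theorem g_deg2 {K : Type} [Field K] (c : K) :
    (Polynomial.X ^ 2 + Polynomial.X + Polynomial.C c).natDegree = 2 := by
  compute_degree!

theorem g_no6 {K : Type} [Field K] [CharZero K] (c : K) (g : Polynomial K)
    (h : g ^ 3 = Polynomial.X ^ 6 + Polynomial.X ^ 3 + Polynomial.C c) : False := by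
  have hd6 : (Polynomial.X ^ 6 + Polynomial.X ^ 3 + Polynomial.C c).natDegree = 6 := by
    compute_degree!
  have hd : g.natDegree = 2 := by
    have h1 := congrArg Polynomial.natDegree h
    rw [hd6, Polynomial.natDegree_pow] at h1
    omega
  have hg : g = Polynomial.C (g.coeff 2) * Polynomial.X ^ 2 + Polynomial.C (g.coeff 1) *
      Polynomial.X + Polynomial.C (g.coeff 0) := by
    conv_lhs => rw [g.as_sum_range_C_mul_X_pow' (n := 3) (by omega)]
    simp [Finset.sum_range_succ]
    ring
  set a := g.coeff 2 with ha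
  set b := g.coeff 1 with hb
  set d := g.coeff 0 with hd0
  have hexp : g ^ 3 = Polynomial.C (a ^ 3) * Polynomial.X ^ 6 +
      Polynomial.C (3 * a ^ 2 * b) * Polynomial.X ^ 5 +
      Polynomial.C (3 * a ^ 2 * d + 3 * a * b ^ 2) * Polynomial.X ^ 4 +
      Polynomial.C (b ^ 3 + 6 * a * b * d) * Polynomial.X ^ 3 +
      Polynomial.C (3 * a * d ^ 2 + 3 * b ^ 2 * d) * Polynomial.X ^ 2 +
      Polynomial.C (3 * b * d ^ 2) * Polynomial.X + Polynomial.C (d ^ 3) := by
    rw [hg]
    simp only [map_mul, map_pow, map_add, map_ofNat]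
    ring
  rw [hexp] at h
  have c6 := congrArg (fun P : Polynomial K => P.coeff 6) h
  have c5 := congrArg (fun P : Polynomial K => P.coeff 5) h
  have c4 := congrArg (fun P : Polynomial K => P.coeff 4) h
  have c3 := congrArg (fun P : Polynomial K => P.coeff 3) h
  simp only [Polynomial.coeff_add, Polynomial.coeff_C_mul, Polynomial.coeff_X_pow,
    Polynomial.coeff_X, Polynomial.coeff_C] at c6 c5 c4 c3
  norm_num at c6 c5 c4 c3
  have ha0 : a ≠ 0 := by
    rintro h0
    rw [h0] at c6
    norm_num at c6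
  have hb0 : b = 0 := c5.resolve_left ha0
  rw [hb0] at c4 c3
  have hd0' : d = 0 := by
    have h3 : a ^ 2 * d = 0 := by linear_combination c4 / 3
    rcases mul_eq_zero.1 h3 with h4 | h4
    · exact absurd h4 (pow_ne_zero 2 ha0)
    · exact h4
  rw [hd0'] at c3
  norm_num at c3

/-- (G1) -/
theorem three_dvd {Ω κ σ : Type} [Field Ω] [CharZero Ω] [Field κ] [Algebra Ω κ] [Finite σ]
    {V : σ → κ} (hV : AlgebraicIndependent Ω V) {i0 : σ} {p : MvPolynomial σ Ω} (hp : i0 ∉ p.vars)
    {a : κ} (ha : a ^ 3 = V i0 ^ 2 + V i0 + aeval V p) :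
    3 ∣ finrank (IntermediateField.adjoin Ω (Set.range V)) κ := by
  have hK := g_rho V hp
  have hVF : V i0 ∈ IntermediateField.adjoin Ω (Set.range V) :=
    IntermediateField.subset_adjoin Ω _ ⟨i0, rfl⟩
  have hle : IntermediateField.adjoin Ω (V '' {i | i ≠ i0}) ≤
      IntermediateField.adjoin Ω (Set.range V) :=
    IntermediateField.adjoin.mono Ω _ _ (Set.image_subset_range _ _)
  have hr : V i0 ^ 2 + V i0 + aeval V p ∈ IntermediateField.adjoin Ω (Set.range V) :=
    add_mem (add_mem (pow_mem hVF 2) hVF) (hle hK)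
  refine g_dvd (r := ⟨_, hr⟩) ha ?_
  intro b hb
  have hb' : (b : κ) ^ 3 = V i0 ^ 2 + V i0 + aeval V p := congrArg Subtype.val hb
  have hbm := g_incl V i0 (S := ∅) (t := V i0) (Set.empty_subset _)
    (IntermediateField.mem_adjoin_simple_self _ _) (y := (b : κ))
    (by rw [Set.union_empty]; exact b.2)
  obtain ⟨g, hg⟩ := g_cube_rat (g_transc hV i0) (R := Polynomial.X ^ 2 + Polynomial.X +
    Polynomial.C (⟨aeval V p, hK⟩ : IntermediateField.adjoin Ω (V '' {i | i ≠ i0}))) (by
      intro h0
      have := g_deg2 (⟨aeval V p, hK⟩ : IntermediateField.adjoin Ω (V '' {i | i ≠ i0}))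
      rw [h0, Polynomial.natDegree_zero] at this
      omega) hbm (by
      rw [hb', map_add, map_add, map_pow, Polynomial.aeval_X, Polynomial.aeval_C]
      rfl)
  have h3 := g_natDegree_cube hg
  rw [g_deg2] at h3
  omega
/-- (G2) -/
theorem base_ncube {Ω κ σ : Type} [Field Ω] [CharZero Ω] [Field κ] [Algebra Ω κ] [Finite σ]
    {V : σ → κ} (hV : AlgebraicIndependent Ω V) {i0 : σ} {p : MvPolynomial σ Ω} (hp : i0 ∉ p.vars)
    {a : κ} (ha : a ^ 3 = V i0 ^ 2 + V i0 + aeval V p) {N : ℕ} (hN : ¬ 3 ∣ N)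
    (hfr : finrank (IntermediateField.adjoin Ω (Set.range V)) κ = 3 * N) : ¬ Cb (V i0) := by
  rintro ⟨m, hm⟩
  have hK := g_rho V hp
  have hVF : V i0 ∈ IntermediateField.adjoin Ω (Set.range V) :=
    IntermediateField.subset_adjoin Ω _ ⟨i0, rfl⟩
  have hle : IntermediateField.adjoin Ω (V '' {i | i ≠ i0}) ≤
      IntermediateField.adjoin Ω (Set.range V) :=
    IntermediateField.adjoin.mono Ω _ _ (Set.image_subset_range _ _)
  have htr := g_transc hV i0
  have htm : Transcendental (IntermediateField.adjoin Ω (V '' {i | i ≠ i0})) m := by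
    intro h0
    apply htr
    rw [← hm]
    exact h0.pow 3
  have h1 : finrank (IntermediateField.adjoin Ω (Set.range V)) (IntermediateField.adjoin
      (IntermediateField.adjoin Ω (Set.range V)) {m}) = 3 := by
    refine g_finrank_three (r := ⟨_, hVF⟩) hm ?_
    intro b hb
    have hb' : (b : κ) ^ 3 = V i0 := congrArg Subtype.val hb
    have hbm := g_incl V i0 (S := ∅) (t := V i0) (Set.empty_subset _)
      (IntermediateField.mem_adjoin_simple_self _ _) (y := (b : κ))
      (by rw [Set.union_empty]; exact b.2)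
    obtain ⟨g, hg⟩ := g_cube_rat htr (R := Polynomial.X) Polynomial.X_ne_zero hbm
      (by rw [hb', Polynomial.aeval_X])
    have h3 := g_natDegree_cube hg
    rw [Polynomial.natDegree_X] at h3
    omega
  have hmM : m ∈ IntermediateField.adjoin (IntermediateField.adjoin Ω (Set.range V)) {m} :=
    IntermediateField.mem_adjoin_simple_self _ m
  have hrM : (aeval V p : κ) ∈
      IntermediateField.adjoin (IntermediateField.adjoin Ω (Set.range V)) {m} :=
    IntermediateField.algebraMap_mem (IntermediateField.adjoin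
      (IntermediateField.adjoin Ω (Set.range V)) {m}) ⟨aeval V p, hle hK⟩
  have hr : m ^ 6 + m ^ 3 + aeval V p ∈
      IntermediateField.adjoin (IntermediateField.adjoin Ω (Set.range V)) {m} :=
    add_mem (add_mem (pow_mem hmM 6) (pow_mem hmM 3)) hrM
  have ha' : a ^ 3 = m ^ 6 + m ^ 3 + aeval V p := by
    rw [ha, ← hm]; ring
  have h2 : 3 ∣ finrank (IntermediateField.adjoin
      (IntermediateField.adjoin Ω (Set.range V)) {m}) κ := by
    refine g_dvd (r := ⟨_, hr⟩) ha' ?_
    intro b hb
    have hb' : (b : κ) ^ 3 = m ^ 6 + m ^ 3 + aeval V p := congrArg Subtype.val hb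
    have hbm := g_incl V i0 (S := {m}) (t := m) subset_rfl
      (by rw [← hm]; exact pow_mem (IntermediateField.mem_adjoin_simple_self _ m) 3)
      (y := (b : κ)) (by
        rw [← IntermediateField.adjoin_adjoin_left Ω (Set.range V) {m},
          IntermediateField.mem_restrictScalars]
        exact b.2)
    obtain ⟨g, hg⟩ := g_cube_rat htm (R := Polynomial.X ^ 6 + Polynomial.X ^ 3 +
      Polynomial.C (⟨aeval V p, hK⟩ : IntermediateField.adjoin Ω (V '' {i | i ≠ i0}))) (by
        intro h0
        have : (Polynomial.X ^ 6 + Polynomial.X ^ 3 +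
          Polynomial.C (⟨aeval V p, hK⟩ : IntermediateField.adjoin Ω
            (V '' {i | i ≠ i0}))).natDegree = 6 := by
          compute_degree!
        rw [h0, Polynomial.natDegree_zero] at this
        omega) hbm (by
        rw [hb', map_add, map_add, map_pow, map_pow, Polynomial.aeval_X, Polynomial.aeval_C]
        rfl)
    have : CharZero (IntermediateField.adjoin Ω (V '' {i | i ≠ i0})) :=
      charZero_of_injective_algebraMap (algebraMap Ω _).injective
    exact g_no6 _ g hg
  have h3 := Module.finrank_mul_finrank (IntermediateField.adjoin Ω (Set.range V))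
    (IntermediateField.adjoin (IntermediateField.adjoin Ω (Set.range V)) {m}) κ
  rw [h1, hfr] at h3
  apply hN
  have h4 : finrank (IntermediateField.adjoin
      (IntermediateField.adjoin Ω (Set.range V)) {m}) κ = N := by omega
  rw [← h4]
  exact h2
end Pool.Agent.H900.P3
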