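import Pool.Agent.H900.P3.Df
import Pool.Agent.H900.PN.Co
import Pool.Agent.H900.P3.G
set_option autoImplicit false
namespace Pool.Agent.H900.P3
open MvPolynomial Module FF
theorem ord_unit {Ω K E : Type} [Field Ω] [IsAlgClosed Ω] [CharZero Ω] [Field K] [Field E]
    [Algebra Ω K] [Algebra K E] [Algebra Ω E] [IsScalarTower Ω K E] [IsFF Ω K]
    (P : Place Ω K) (w : Place Ω E)
    (hr : ∀ a : K, P.Reg a → w.Reg (algebraMap K E a)) {u : K} (hu : u ≠ 0) (hPu : P.ord u = 0) :
    w.ord (algebraMap K E u) = 0 := by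
  have hu' : algebraMap K E u ≠ 0 := by rwa [Ne, map_eq_zero]
  have h1 := (w.reg_iff hu').1 (hr u (Or.inr hPu.ge))
  have h2 := (w.reg_iff (by
    rw [Ne, map_eq_zero]
    exact inv_ne_zero hu)).1 (hr u⁻¹ (Or.inr (by rw [P.ord_inv, hPu]; norm_num)))
  rw [map_inv₀, w.ord_inv] at h2
  omega

/-- (H) one specialization -/
theorem stage {Ω K E : Type} [Field Ω] [IsAlgClosed Ω] [CharZero Ω] [Field K] [Field E]
    [Algebra Ω K] [Algebra K E] [Algebra Ω E] [IsScalarTower Ω K E] [IsFF Ω K] {c : K}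
    (hc : Transcendental Ω c) {r : ℕ} {U : Fin r → E} (hU : AlgebraicIndependent K U)
    {i0 : Fin r} {p : MvPolynomial (Fin r) Ω} (hp : i0 ∉ p.vars)
    (hred : ∀ w : Place Ω E, 0 < w.ord (algebraMap K E c) → (∀ j, w.Reg (U j)) →
      AlgebraicIndependent Ω (fun j => w.red (U j)) → ∃ a : w.RF,
        a ^ 3 = w.red (U i0) ^ 2 + w.red (U i0) + aeval (fun j => w.red (U j)) p)
    {N : ℕ} (hN : ¬ 3 ∣ N)
    (hfr : finrank (IntermediateField.adjoin K (Set.range U)) E = 3 * N) :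
    ∃ w : Place Ω E, 0 < w.ord (algebraMap K E c) ∧
      (finrank (IntermediateField.adjoin Ω {c}) K = 1 →
        ¬ (3 : ℤ) ∣ w.ord (algebraMap K E c)) ∧
      (∀ j, w.Reg (U j)) ∧ AlgebraicIndependent Ω (fun j => w.red (U j)) ∧
      (∃ N' : ℕ, ¬ 3 ∣ N' ∧
        finrank (IntermediateField.adjoin Ω (Set.range fun j => w.red (U j))) w.RF = 3 * N') ∧
      ∀ (m : ℕ) (y : Fin m → E), (∀ j, w.Reg (y j)) →
        AlgebraicIndependent Ω (fun j => w.red (y j)) → AlgebraicIndependent K y := by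
  classical
  obtain ⟨SP, hSP, hSP2, hSP3⟩ := FF.zeros (k := Ω) (K := K) hc
  have hfd : FiniteDimensional (IntermediateField.adjoin Ω {c}) K := IsFF.finite hc
  have hpos : 0 < finrank (IntermediateField.adjoin Ω {c}) K := finrank_pos
  have hne : SP.Nonempty := by
    rw [Finset.nonempty_iff_ne_empty]
    rintro rfl
    rw [Finset.sum_empty] at hSP3
    omega
  obtain ⟨P, hP⟩ := hne
  have hPc : 0 < P.ord c := (hSP P).1 hP
  have hPc1 : finrank (IntermediateField.adjoin Ω {c}) K = 1 → P.ord c = 1 := by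
    intro h1
    rw [h1] at hSP3
    have h2 := Finset.single_le_sum (f := fun w : Place Ω K => Int.toNat (w.ord c) * w.deg)
      (fun _ _ => Nat.zero_le _) hP
    rw [hSP3] at h2
    have h3 := hSP2 P hP
    have h4 : Int.toNat (P.ord c) ≤ 1 := by
      refine le_trans ?_ h2
      exact Nat.le_mul_of_pos_right _ h3
    omega
  obtain ⟨ϖ, h0, h1⟩ := P.surj
  have hc0 : c ≠ 0 := by
    rintro rfl
    rw [P.ord_zero] at hPc
    exact lt_irrefl _ hPc
  have hfin : FiniteDimensional (IntermediateField.adjoin K (Set.range U)) E := by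
    apply FiniteDimensional.of_finrank_pos
    rw [hfr]
    have : N ≠ 0 := by
      rintro rfl
      exact hN (dvd_zero 3)
    omega
  obtain ⟨S, hS, hsum⟩ := Pool.Agent.R845.E3.gfi Ω K E _ P ϖ U h0 h1 hU hfin
  -- the facts for all places of `S`
  have hfact : ∀ w ∈ S, 0 < w.ord (algebraMap K E c) ∧
      (∀ j, w.Reg (U j)) ∧ AlgebraicIndependent Ω (fun j => w.red (U j)) ∧
      (Subfield.closure ({c : w.RF | ∃ a : K, P.Reg a ∧ w.red (algebraMap K E a) = c} ∪
          Set.range fun j => w.red (U j)) =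
        Subfield.closure (Set.range (algebraMap Ω w.RF) ∪ Set.range fun j => w.red (U j))) ∧
      (∀ (m : ℕ) (y : Fin m → E), (∀ j, w.Reg (y j)) →
        AlgebraicIndependent Ω (fun j => w.red (y j)) → AlgebraicIndependent K y) ∧
      w.ord (algebraMap K E c) = P.ord c * w.ord (algebraMap K E ϖ) := by
    intro w hwS
    obtain ⟨hwr, hww, hUr, hUg⟩ := (hS w).1 hwS
    have hwc : 0 < w.ord (algebraMap K E c) :=
      Pool.Agent.Helper93K9.PAR.ResL.ord_pos P w h0 h1 hwr hww hc0 hPc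
    obtain ⟨r1, r2⟩ := Pool.Agent.Helper93K9.PAR.res Ω K E P w ϖ h0 h1 hwr hww
    have hind := (r2 _ U hUr).1.2 hUg
    refine ⟨hwc, hUr, hind, by rw [r1], fun m y hy => (r2 m y hy).2, ?_⟩
    -- `c = ϖ ^ n * u`
    obtain ⟨n, hn⟩ : ∃ n : ℕ, P.ord c = n := ⟨(P.ord c).toNat, by omega⟩
    have hpn : ϖ ^ n ≠ 0 := pow_ne_zero n h0
    have hPpow : P.ord (ϖ ^ n) = n := by
      rw [P.ord_pow, h1, mul_one]
    have hu : c / ϖ ^ n ≠ 0 := div_ne_zero hc0 hpn
    have hPu : P.ord (c / ϖ ^ n) = 0 := by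
      rw [P.ord_div hc0 hpn, hPpow, hn, sub_self]
    have hwu := ord_unit P w hwr hu hPu
    have e : c = ϖ ^ n * (c / ϖ ^ n) := by field_simp
    have hϖ' : algebraMap K E ϖ ≠ 0 := by rwa [Ne, map_eq_zero]
    calc w.ord (algebraMap K E c) = w.ord (algebraMap K E ϖ ^ n * algebraMap K E (c / ϖ ^ n)) := by
          rw [← map_pow, ← map_mul, ← e]
      _ = n * w.ord (algebraMap K E ϖ) + 0 := by
          rw [w.ord_mul (pow_ne_zero n hϖ') (by rwa [Ne, map_eq_zero]), w.ord_pow, hwu]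
      _ = _ := by rw [hn, add_zero]
  have hthree : ∀ w ∈ S, 3 ∣ finrank (IntermediateField.adjoin Ω
      (Set.range fun j => w.red (U j))) w.RF := by
    intro w hwS
    obtain ⟨hwc, hUr, hind, -, -, -⟩ := hfact w hwS
    obtain ⟨a, ha⟩ := hred w hwc hUr hind
    exact three_dvd hind hp ha
  have hfe : ∀ w ∈ S, finrank (Subfield.closure
      ({c : w.RF | ∃ a : K, P.Reg a ∧ w.red (algebraMap K E a) = c} ∪
          Set.range fun j => w.red (U j))) w.RF =
      finrank (IntermediateField.adjoin Ω (Set.range fun j => w.red (U j))) w.RF := by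
    intro w hwS
    rw [(hfact w hwS).2.2.2.1]
    rfl
  obtain ⟨w, hwS, hw3⟩ : ∃ w ∈ S, ¬ 3 ∣ (w.ord (algebraMap K E ϖ)).toNat *
      (finrank (IntermediateField.adjoin Ω (Set.range fun j => w.red (U j))) w.RF / 3) := by
    by_contra hcon
    push Not at hcon
    apply hN
    have h2 : 3 * 3 ∣ 3 * N := by
      rw [← hfr, ← hsum]
      apply Finset.dvd_sum
      intro w hw
      rw [hfe w hw]
      obtain ⟨f, hf⟩ := hthree w hw
      have h3 := hcon w hw
      rw [hf, Nat.mul_div_cancel_left f (by norm_num)] at h3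
      rw [hf]
      obtain ⟨g, hg⟩ := h3
      exact ⟨g, by rw [Nat.mul_left_comm, hg]; ring⟩
    exact Nat.dvd_of_mul_dvd_mul_left (by norm_num) h2
  obtain ⟨hwc, hUr, hind, -, hlast, hord⟩ := hfact w hwS
  obtain ⟨f, hf⟩ := hthree w hwS
  rw [hf, Nat.mul_div_cancel_left f (by norm_num)] at hw3
  refine ⟨w, hwc, ?_, hUr, hind, ⟨f, ?_, hf⟩, hlast⟩
  · intro hfr1 h3
    rw [hord, hPc1 hfr1, one_mul] at h3
    apply hw3
    apply Dvd.dvd.mul_right
    have hww := ((hS w).1 hwS).2.1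
    have : ((3 : ℕ) : ℤ) ∣ (((w.ord (algebraMap K E ϖ)).toNat : ℕ) : ℤ) := by
      rw [Int.toNat_of_nonneg hww.le]
      exact h3
    exact_mod_cast this
  · intro h3
    exact hw3 (h3.mul_left _)
end Pool.Agent.H900.P3
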