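import Pool.Agent.H900.P3.Gd
set_option autoImplicit false
namespace Pool.Agent.H900.P3
open MvPolynomial Module FF

/-- the trivial valuation -/
noncomputable def trivLTS (E : Type) [Field E] : LTS E ℚ E where
  v := fun _ => 0
  ac := fun x => x
  ac_zero := rfl
  ac_ne := fun x hx => hx
  v_mul := fun x y _ _ => (add_zero 0).symm
  ac_mul := fun x y => rfl
  add' := by
    intro N x y hx hy
    have h0 : ∀ z : E, syv (fun _ : E => (0 : ℚ)) (fun x : E => x) 0 z = z := by
      intro z
      unfold syv
      by_cases hz : z = 0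
      · rw [if_neg (fun h => h.1 hz), hz]
      · rw [if_pos ⟨hz, rfl⟩]
    have h1 : ∀ z : E, N ≠ 0 → syv (fun _ : E => (0 : ℚ)) (fun x : E => x) N z = 0 := by
      intro z hN
      unfold syv
      rw [if_neg (fun h => hN h.2.symm)]
    refine ⟨?_, ?_⟩
    · rcases hx with hx | hx
      · rcases hy with hy | hy
        · exact Or.inl (by rw [hx, hy, add_zero])
        · exact Or.inr hy
      · exact Or.inr hx
    · by_cases hN : N = 0
      · subst hN
        rw [h0, h0, h0]
      · rw [h1 _ hN, h1 _ hN, h1 _ hN, add_zero]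

/-- (I0) the trivial valuation -/
theorem good_base {Ω E : Type} [Field Ω] [IsAlgClosed Ω] [Field E] [Algebra Ω E]
    (t : Fin 0 → E) {a : E} (ha : ¬ Cb a) : Good Ω t a := by
  refine ⟨ℚ, E, inferInstance, inferInstance, inferInstance, inferInstance, trivLTS E, ⊥,
    ⟨?_, ?_, ?_, ?_, ?_, ?_, ?_⟩, ?_⟩
  · intro n hn x
    refine ⟨x / n, ?_⟩
    rw [nsmul_eq_mul]
    have : (n : ℚ) ≠ 0 := Nat.cast_ne_zero.2 hn
    field_simp
  · intro x _
    exact AddSubgroup.zero_mem _
  · intro b _
    rfl
  · intro i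
    exact i.elim0
  · intro m _ i
    exact i.elim0
  · rfl
  · exact ha
  · intro x hx hind _
    have h1 : ¬ Transcendental Ω x := by
      intro h
      apply hind
      exact (algebraicIndependent_unique_type_iff (ι := Fin 1)
        (x := (Fin.cons x t : Fin 1 → E))).2 h
    have h2 : IsAlgebraic Ω x := by
      by_contra h
      exact h1 h
    have h3 : IsIntegral Ω x := h2.isIntegral
    have h4 : x ∈ (algebraMap Ω E).range :=
      minpoly.mem_range_of_degree_eq_one Ω x
        (IsAlgClosed.degree_eq_one_of_irreducible Ω (minpoly.irreducible h3))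
    obtain ⟨b, hb⟩ := h4
    obtain ⟨c, hc⟩ := IsAlgClosed.exists_pow_nat_eq b (show 0 < 3 by norm_num)
    refine ⟨algebraMap Ω E c, ?_⟩
    show (algebraMap Ω E c) ^ 3 = x
    rw [← map_pow, hc, hb]
end Pool.Agent.H900.P3
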