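import Pool.Agent.H900.P3.Gd

set_option autoImplicit false

/-!
# Composition of a discrete place with a valuation (P3-F for helper900)
-/

namespace Pool.Agent.H900.P3

open Polynomial FF

noncomputable section

namespace FcAux

variable {Ω E : Type} [Field Ω] [Field E] [Algebra Ω E] (w : Place Ω E) {ϖ : E} (h0 : ϖ ≠ 0)
  (h1 : w.ord ϖ = 1)

include h0 h1

theorem ord_sh {x : E} (hx : x ≠ 0) (n : ℤ) : w.ord (x * ϖ ^ (-n)) = w.ord x - n := by
  rw [w.ord_mul hx (zpow_ne_zero _ h0), w.ord_zpow, h1]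
  ring

theorem reg_sh {x : E} {n : ℤ} (h : x = 0 ∨ n ≤ w.ord x) : w.Reg (x * ϖ ^ (-n)) := by
  by_cases hx : x = 0
  · rw [hx, zero_mul]
    exact w.reg_zero
  · right
    rw [ord_sh w h0 h1 hx]
    have := h.resolve_left hx
    omega

theorem red_sh_zero {x : E} {n : ℤ} (h : x = 0 ∨ n < w.ord x) :
    w.red (x * ϖ ^ (-n)) = 0 := by
  rw [w.red_eq_zero_iff (reg_sh w h0 h1 (h.imp id le_of_lt))]
  by_cases hx : x = 0
  · left
    rw [hx, zero_mul]
  · right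
    rw [ord_sh w h0 h1 hx]
    have := h.resolve_left hx
    omega

theorem rr_ne {x : E} (hx : x ≠ 0) : w.red (x * ϖ ^ (-w.ord x)) ≠ 0 := by
  apply w.red_ne_zero (mul_ne_zero hx (zpow_ne_zero _ h0))
  rw [ord_sh w h0 h1 hx, sub_self]

theorem rr_mul {x y : E} (hx : x ≠ 0) (hy : y ≠ 0) : w.red (x * y * ϖ ^ (-w.ord (x * y))) =
    w.red (x * ϖ ^ (-w.ord x)) * w.red (y * ϖ ^ (-w.ord y)) := by
  rw [← w.red_mul (reg_sh w h0 h1 (Or.inr le_rfl)) (reg_sh w h0 h1 (Or.inr le_rfl)),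
    w.ord_mul hx hy, neg_add, zpow_add₀ h0]
  congr 1
  ring

theorem red_sh_add {x y : E} {n : ℤ} (hx : x = 0 ∨ n ≤ w.ord x) (hy : y = 0 ∨ n ≤ w.ord y) :
    w.red ((x + y) * ϖ ^ (-n)) = w.red (x * ϖ ^ (-n)) + w.red (y * ϖ ^ (-n)) := by
  rw [add_mul, w.red_add (reg_sh w h0 h1 hx) (reg_sh w h0 h1 hy)]

omit h0 h1 in
theorem ge_add {x y : E} {n : ℤ} (hx : x = 0 ∨ n ≤ w.ord x) (hy : y = 0 ∨ n ≤ w.ord y) :
    x + y = 0 ∨ n ≤ w.ord (x + y) := by
  by_cases h1 : x = 0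
  · rwa [h1, zero_add]
  by_cases h2 : y = 0
  · rwa [h2, add_zero]
  by_cases h3 : x + y = 0
  · exact Or.inl h3
  · exact Or.inr ((le_min (hx.resolve_left h1) (hy.resolve_left h2)).trans (w.ord_add h1 h2 h3))

omit h0 h1 in
theorem gt_add {x y : E} {q : ℚ} (hx : x = 0 ∨ q < w.ord x) (hy : y = 0 ∨ q < w.ord y) :
    x + y = 0 ∨ q < w.ord (x + y) := by
  by_cases h1 : x = 0
  · rwa [h1, zero_add]
  by_cases h2 : y = 0
  · rwa [h2, add_zero]
  by_cases h3 : x + y = 0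
  · exact Or.inl h3
  · right
    have h4 : (min (w.ord x) (w.ord y) : ℤ) ≤ w.ord (x + y) := w.ord_add h1 h2 h3
    have h5 : ((min (w.ord x) (w.ord y) : ℤ) : ℚ) ≤ w.ord (x + y) := by exact_mod_cast h4
    refine lt_of_lt_of_le ?_ h5
    rcases min_choice (w.ord x) (w.ord y) with h | h
    · rw [h]; exact hx.resolve_left h1
    · rw [h]; exact hy.resolve_left h2

variable {H k : Type} [Field k] [AddCommGroup H] [LinearOrder H] [IsOrderedAddMonoid H]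
  (L : LTS w.RF H k)

/-- the condition in integral degree -/
theorem ge_iff (n : ℤ) (b : H) (x : E) :
    (x = 0 ∨ (toLex ((n : ℚ), b) : ℚ ×ₗ H) ≤ compV w ϖ L x) ↔
      (x = 0 ∨ n ≤ w.ord x) ∧
        (w.red (x * ϖ ^ (-n)) = 0 ∨ b ≤ L.v (w.red (x * ϖ ^ (-n)))) := by
  by_cases hx : x = 0
  · have h2 : w.red (x * ϖ ^ (-n)) = 0 := red_sh_zero w h0 h1 (Or.inl hx)
    exact ⟨fun _ => ⟨Or.inl hx, Or.inl h2⟩, fun _ => Or.inl hx⟩
  · unfold compV
    rw [Prod.Lex.toLex_le_toLex]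
    dsimp only
    rcases lt_trichotomy n (w.ord x) with h | h | h
    · have h2 : w.red (x * ϖ ^ (-n)) = 0 := red_sh_zero w h0 h1 (Or.inr h)
      refine ⟨fun _ => ⟨Or.inr h.le, Or.inl h2⟩, fun _ => Or.inr (Or.inl ?_)⟩
      exact_mod_cast h
    · rw [← h]
      have h3 : w.red (x * ϖ ^ (-n)) ≠ 0 := by
        have h4 := rr_ne w h0 h1 hx
        rwa [← h] at h4
      constructor
      · rintro (h4 | h4 | h4)
        · exact absurd h4 hx
        · exact absurd h4 (lt_irrefl _)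
        · exact ⟨Or.inr le_rfl, Or.inr h4.2⟩
      · rintro ⟨_, h4⟩
        exact Or.inr (Or.inr ⟨rfl, h4.resolve_left h3⟩)
    · constructor
      · rintro (h4 | h4 | h4)
        · exact absurd h4 hx
        · have h5 : n < w.ord x := by exact_mod_cast h4
          omega
        · have h5 : n = w.ord x := by exact_mod_cast h4.1
          omega
      · rintro ⟨h4 | h4, _⟩
        · exact absurd h4 hx
        · omega

/-- the coefficient in integral degree -/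
theorem syv_eq (n : ℤ) (b : H) (x : E) (hx : x = 0 ∨ n ≤ w.ord x) :
    syv (compV w ϖ L) (compAc w ϖ L) (toLex ((n : ℚ), b) : ℚ ×ₗ H) x =
      syv L.v L.ac b (w.red (x * ϖ ^ (-n))) := by
  classical
  unfold syv
  by_cases hx0 : x = 0
  · have h2 : w.red (x * ϖ ^ (-n)) = 0 := red_sh_zero w h0 h1 (Or.inl hx0)
    rw [if_neg (fun h => h.1 hx0), if_neg (fun h => h.1 h2)]
  · rcases lt_or_eq_of_le (hx.resolve_left hx0) with h | h
    · have h2 : w.red (x * ϖ ^ (-n)) = 0 := red_sh_zero w h0 h1 (Or.inr h)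
      rw [if_neg, if_neg (fun h => h.1 h2)]
      rintro ⟨_, h3⟩
      have h4 : ((w.ord x : ℚ)) = (n : ℚ) := congrArg (fun z : ℚ ×ₗ H => (ofLex z).1) h3
      have h5 : w.ord x = n := by exact_mod_cast h4
      omega
    · have h3 : w.red (x * ϖ ^ (-n)) ≠ 0 := by
        have h4 := rr_ne w h0 h1 hx0
        rwa [← h] at h4
      have h4 : compV w ϖ L x = (toLex ((n : ℚ), L.v (w.red (x * ϖ ^ (-n)))) : ℚ ×ₗ H) := by
        unfold compV
        rw [← h]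
      have h5 : compAc w ϖ L x = L.ac (w.red (x * ϖ ^ (-n))) := by
        unfold compAc
        rw [← h]
      rw [h4, h5]
      by_cases h6 : L.v (w.red (x * ϖ ^ (-n))) = b
      · rw [if_pos ⟨hx0, by rw [h6]⟩, if_pos ⟨h3, h6⟩]
      · rw [if_neg, if_neg (fun h => h6 h.2)]
        rintro ⟨_, h7⟩
        exact h6 (congrArg (fun z : ℚ ×ₗ H => (ofLex z).2) h7)

theorem add_int (n : ℤ) (b : H) (x y : E)
    (hx : x = 0 ∨ (toLex ((n : ℚ), b) : ℚ ×ₗ H) ≤ compV w ϖ L x)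
    (hy : y = 0 ∨ (toLex ((n : ℚ), b) : ℚ ×ₗ H) ≤ compV w ϖ L y) :
    (x + y = 0 ∨ (toLex ((n : ℚ), b) : ℚ ×ₗ H) ≤ compV w ϖ L (x + y)) ∧
      syv (compV w ϖ L) (compAc w ϖ L) (toLex ((n : ℚ), b) : ℚ ×ₗ H) (x + y) =
        syv (compV w ϖ L) (compAc w ϖ L) (toLex ((n : ℚ), b) : ℚ ×ₗ H) x +
          syv (compV w ϖ L) (compAc w ϖ L) (toLex ((n : ℚ), b) : ℚ ×ₗ H) y := by
  rw [ge_iff w h0 h1 L] at hx hy ⊢
  have h2 := ge_add w hx.1 hy.1
  have h3 := L.add' b _ _ hx.2 hy.2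
  rw [syv_eq w h0 h1 L n b _ h2, syv_eq w h0 h1 L n b _ hx.1, syv_eq w h0 h1 L n b _ hy.1,
    red_sh_add w h0 h1 hx.1 hy.1]
  exact ⟨⟨h2, h3.1⟩, h3.2⟩

omit h0 h1 in
theorem gt_iff {q : ℚ} (hq : ∀ n : ℤ, (n : ℚ) ≠ q) (b : H) (x : E) :
    (x = 0 ∨ (toLex (q, b) : ℚ ×ₗ H) ≤ compV w ϖ L x) ↔ (x = 0 ∨ q < w.ord x) := by
  unfold compV
  rw [Prod.Lex.toLex_le_toLex]
  dsimp only
  constructor
  · rintro (h | h | h)
    · exact Or.inl h
    · exact Or.inr h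
    · exact absurd h.1.symm (hq _)
  · rintro (h | h)
    · exact Or.inl h
    · exact Or.inr (Or.inl h)

omit h0 h1 in
theorem syv_non {q : ℚ} (hq : ∀ n : ℤ, (n : ℚ) ≠ q) (b : H) (x : E) :
    syv (compV w ϖ L) (compAc w ϖ L) (toLex (q, b) : ℚ ×ₗ H) x = 0 := by
  classical
  unfold syv
  rw [if_neg]
  rintro ⟨_, h⟩
  exact hq (w.ord x) (congrArg (fun z : ℚ ×ₗ H => (ofLex z).1) h)

end FcAux

/-- (F) -/
def comp {Ω E H k : Type} [Field Ω] [Field E] [Algebra Ω E] [Field k] [AddCommGroup H]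
    [LinearOrder H] [IsOrderedAddMonoid H] (w : Place Ω E) {ϖ : E} (h0 : ϖ ≠ 0)
    (h1 : w.ord ϖ = 1) (L : LTS w.RF H k) : LTS E (ℚ ×ₗ H) k where
  v := compV w ϖ L
  ac := compAc w ϖ L
  ac_zero := by
    unfold compAc
    rw [zero_mul, w.red_zero, L.ac_zero]
  ac_ne := fun x hx => L.ac_ne _ (FcAux.rr_ne w h0 h1 hx)
  v_mul := by
    intro x y hx hy
    unfold compV
    rw [FcAux.rr_mul w h0 h1 hx hy, L.v_mul _ _ (FcAux.rr_ne w h0 h1 hx)
      (FcAux.rr_ne w h0 h1 hy), w.ord_mul hx hy, Int.cast_add]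
    rfl
  ac_mul := by
    intro x y
    unfold compAc
    by_cases hx : x = 0
    · rw [hx, zero_mul, zero_mul, w.red_zero, L.ac_zero, zero_mul]
    by_cases hy : y = 0
    · rw [hy, mul_zero, zero_mul, w.red_zero, L.ac_zero, mul_zero]
    rw [FcAux.rr_mul w h0 h1 hx hy, L.ac_mul]
  add' := by
    intro N x y hx hy
    obtain ⟨⟨q, b⟩, rfl⟩ := toLex.surjective N
    by_cases hq : ∃ n : ℤ, (n : ℚ) = q
    · obtain ⟨n, rfl⟩ := hq
      exact FcAux.add_int w h0 h1 L n b x y hx hy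
    · have hq' : ∀ n : ℤ, (n : ℚ) ≠ q := fun n hn => hq ⟨n, hn⟩
      rw [FcAux.gt_iff w L hq'] at hx hy
      rw [FcAux.gt_iff w L hq', FcAux.syv_non w L hq', FcAux.syv_non w L hq',
        FcAux.syv_non w L hq', add_zero]
      exact ⟨FcAux.gt_add w hx hy, rfl⟩

end

end Pool.Agent.H900.P3
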