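import Pool.Agent.H900.P3.Gd
import Pool.Agent.H900.P3.Fc
set_option autoImplicit false
namespace Pool.Agent.H900.P3
open MvPolynomial Module FF
noncomputable section
section i1

variable {Ω E : Type} [Field Ω] [Field E] [Algebra Ω E]

theorem i1_inv (w : Place Ω E) {x : E} (h0 : x ≠ 0) (h : w.ord x = 0) :
    w.red x⁻¹ = (w.red x)⁻¹ := by
  have h1 : w.Reg x := Or.inr h.ge
  have h2 : w.Reg x⁻¹ := Or.inr (by rw [w.ord_inv, h, neg_zero])
  have h3 := w.red_mul h1 h2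
  rw [mul_inv_cancel₀ h0, w.red_one] at h3
  exact (eq_inv_of_mul_eq_one_right h3.symm)

theorem i1_zpow (w : Place Ω E) {x : E} (h0 : x ≠ 0) (h : w.ord x = 0) (n : ℤ) :
    w.red (x ^ n) = w.red x ^ n := by
  have h1 : w.Reg x := Or.inr h.ge
  cases n with
  | ofNat n =>
    rw [Int.ofNat_eq_natCast, zpow_natCast, zpow_natCast, w.red_pow h1]
  | negSucc n =>
    rw [zpow_negSucc, zpow_negSucc, i1_inv w (pow_ne_zero _ h0) (by rw [w.ord_pow, h, mul_zero]),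
      w.red_pow h1]

theorem i1_nz (w : Place Ω E) {x : E} (hx : w.Reg x) (h : w.red x ≠ 0) : x ≠ 0 ∧ w.ord x = 0 := by
  rw [Ne, w.red_eq_zero_iff hx] at h
  push Not at h
  have h1 := (w.reg_iff h.1).1 hx
  exact ⟨h.1, by omega⟩

variable {H k : Type} [Field k] [AddCommGroup H] [LinearOrder H] [IsOrderedAddMonoid H]

theorem i1_v (w : Place Ω E) (ϖ : E) (L : LTS w.RF H k) {x : E} (h : w.ord x = 0) :
    compV w ϖ L x = toLex ((0 : ℚ), L.v (w.red x)) := by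
  unfold compV
  rw [h, neg_zero, zpow_zero, mul_one, Int.cast_zero]

theorem i1_ac (w : Place Ω E) (ϖ : E) (L : LTS w.RF H k) {x : E} (h : w.ord x = 0) :
    compAc w ϖ L x = L.ac (w.red x) := by
  unfold compAc
  rw [h, neg_zero, zpow_zero, mul_one]

theorem i1_cube {F : Type} [Field F] (L : LTS F H k) (y : F) : Cb (L.ac (y ^ 3)) := by
  refine ⟨L.ac y, ?_⟩
  rw [pow_succ, pow_succ, pow_one, pow_succ, pow_succ, pow_one, L.ac_mul, L.ac_mul]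

/-- first coordinate -/
def i1_f : (ℚ ×ₗ H) →+ ℚ where
  toFun x := (ofLex x).1
  map_zero' := rfl
  map_add' _ _ := rfl

/-- second coordinate -/
def i1_s : (ℚ ×ₗ H) →+ H where
  toFun x := (ofLex x).2
  map_zero' := rfl
  map_add' _ _ := rfl

theorem i1_f_mk (a : ℚ) (b : H) : i1_f (toLex (a, b)) = a := rfl

theorem i1_s_mk (a : ℚ) (b : H) : i1_s (toLex (a, b)) = b := rfl

theorem i1_ext {x y : ℚ ×ₗ H} (h1 : i1_f x = i1_f y) (h2 : i1_s x = i1_s y) : x = y := by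
  have h3 : ofLex x = ofLex y := Prod.ext h1 h2
  exact ofLex.injective h3

/-- the value group -/
def i1_G (Γ : AddSubgroup H) : AddSubgroup (ℚ ×ₗ H) where
  carrier := {x | (∃ n : ℤ, (n : ℚ) = (ofLex x).1) ∧ (ofLex x).2 ∈ Γ}
  add_mem' := by
    rintro x y ⟨⟨n, hn⟩, hx⟩ ⟨⟨m, hm⟩, hy⟩
    refine ⟨⟨n + m, ?_⟩, ?_⟩
    · rw [ofLex_add, Prod.fst_add, ← hn, ← hm]
      push_cast
      ring
    · rw [ofLex_add, Prod.snd_add]
      exact Γ.add_mem hx hy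
  zero_mem' := ⟨⟨0, by rw [ofLex_zero, Prod.fst_zero, Int.cast_zero]⟩, by
    rw [ofLex_zero, Prod.snd_zero]
    exact Γ.zero_mem⟩
  neg_mem' := by
    rintro x ⟨⟨n, hn⟩, hx⟩
    refine ⟨⟨-n, ?_⟩, ?_⟩
    · rw [ofLex_neg, Prod.fst_neg, ← hn]
      push_cast
      ring
    · rw [ofLex_neg, Prod.snd_neg]
      exact Γ.neg_mem hx

theorem i1_mem (Γ : AddSubgroup H) (x : ℚ ×ₗ H) :
    x ∈ i1_G Γ ↔ (∃ n : ℤ, (n : ℚ) = (ofLex x).1) ∧ (ofLex x).2 ∈ Γ := Iff.rfl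

end i1

/-- (I1) -/
theorem good_step {Ω E : Type} [Field Ω] [Field E] [Algebra Ω E] {s : ℕ} (w : Place Ω E)
    {t : Fin s → E} {τ a : E} (hτ : ¬ (3 : ℤ) ∣ w.ord τ) (ht : ∀ i, w.Reg (t i)) (ha : w.Reg a)
    (hG : Good Ω (fun i => w.red (t i)) (w.red a))
    (halg : ∀ x : E, w.Reg x →
      AlgebraicIndependent Ω (Fin.cons (w.red x) (fun i => w.red (t i)) : Fin (s + 1) → w.RF) →
      AlgebraicIndependent Ω (Fin.cons x (Fin.snoc t τ : Fin (s + 1) → E) : Fin (s + 2) → E)) :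
    Good Ω (Fin.snoc t τ : Fin (s + 1) → E) a := by
  obtain ⟨H, k, i1, i2, i3, i4, L', Γ', hL, hlast⟩ := hG
  obtain ⟨e, he⟩ : ∃ e, e = w.ord τ := ⟨_, rfl⟩
  have hτ0 : τ ≠ 0 := by
    rintro rfl
    rw [w.ord_zero] at hτ
    exact hτ (dvd_zero _)
  rw [← he] at hτ
  obtain ⟨π₀, hπ₀, hπ₁⟩ := w.surj
  have hρo : w.ord (τ * π₀ ^ (-e)) = 0 := by
    rw [w.ord_mul hτ0 (zpow_ne_zero _ hπ₀), w.ord_zpow, hπ₁, he]
    ring
  have hρ1 : τ * π₀ ^ (-e) ≠ 0 := mul_ne_zero hτ0 (zpow_ne_zero _ hπ₀)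
  obtain ⟨ρ, hρ⟩ : ∃ ρ, ρ = w.red (τ * π₀ ^ (-e)) := ⟨_, rfl⟩
  have hρ0 : ρ ≠ 0 := by
    rw [hρ]
    exact w.red_ne_zero hρ1 hρo
  obtain ⟨η, hη, hηr⟩ := w.red_surjective (ρ ^ e)
  obtain ⟨hη0, hηo⟩ := i1_nz w hη (by rw [hηr]; exact zpow_ne_zero _ hρ0)
  obtain ⟨ϖ, hϖ⟩ : ∃ ϖ, ϖ = π₀ * η := ⟨_, rfl⟩
  have hϖ0 : ϖ ≠ 0 := by
    rw [hϖ]
    exact mul_ne_zero hπ₀ hη0
  have hϖ1 : w.ord ϖ = 1 := by
    rw [hϖ, w.ord_mul hπ₀ hη0, hπ₁, hηo, add_zero]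
  obtain ⟨κ, hκ⟩ : ∃ κ : ℤ, 1 - e * e = 3 * κ := by
    have h1 : (3 : ℤ) ∣ 1 - e * e := by
      have h2 : e % 3 = 1 ∨ e % 3 = 2 := by omega
      have h3 : (1 - e * e) % 3 = 0 := by
        rcases h2 with h2 | h2
        · rw [Int.sub_emod, Int.mul_emod, h2]
          norm_num
        · rw [Int.sub_emod, Int.mul_emod, h2]
          norm_num
      exact Int.dvd_of_emod_eq_zero h3
    exact h1
  have hcube : w.red (τ * ϖ ^ (-e)) = (ρ ^ κ) ^ 3 := by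
    have h1 : τ * ϖ ^ (-e) = τ * π₀ ^ (-e) * η ^ (-e) := by
      rw [hϖ, mul_zpow, mul_assoc]
    have h2 : w.ord (η ^ (-e)) = 0 := by rw [w.ord_zpow, hηo, mul_zero]
    rw [h1, w.red_mul (Or.inr hρo.ge) (Or.inr h2.ge), ← hρ, i1_zpow w hη0 hηo, hηr,
      ← zpow_mul, ← zpow_natCast, ← zpow_mul, ← zpow_one_add₀ hρ0]
    congr 1
    push_cast
    linarith
  obtain ⟨L, hLd⟩ : ∃ L : LTS E (ℚ ×ₗ H) k, L = comp w hϖ0 hϖ1 L' := ⟨_, rfl⟩
  have hLv : ∀ x, L.v x = compV w ϖ L' x := by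
    intro x
    rw [hLd]
    rfl
  have hLac : ∀ x, L.ac x = compAc w ϖ L' x := by
    intro x
    rw [hLd]
    rfl
  have hcubeτ : compV w ϖ L' τ = toLex ((e : ℚ), L'.v ((ρ ^ κ) ^ 3)) := by
    unfold compV
    rw [← he, hcube]
  have ht0 : ∀ i, t i ≠ 0 ∧ w.ord (t i) = 0 := fun i => i1_nz w (ht i) (hL.cube i).1
  have hared : w.red a ≠ 0 := by
    intro h0
    apply hL.ncube
    rw [h0, L'.ac_zero]
    exact ⟨0, by norm_num⟩
  obtain ⟨ha0, hao⟩ := i1_nz w ha hared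
  refine ⟨ℚ ×ₗ H, k, inferInstance, inferInstance, inferInstance, i4, L, i1_G Γ', ?_, ?_⟩
  · refine ⟨?_, ?_, ?_, ?_, ?_, ?_, ?_⟩
    · intro n hn x
      obtain ⟨y, hy⟩ := hL.div n hn (ofLex x).2
      refine ⟨toLex ((ofLex x).1 / n, y), i1_ext ?_ ?_⟩
      · have hn' : (n : ℚ) ≠ 0 := by exact_mod_cast hn
        rw [map_nsmul, i1_f_mk, nsmul_eq_mul, mul_div_cancel₀ _ hn']
        rfl
      · rw [map_nsmul, i1_s_mk, hy]
        rfl
    · intro x hx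
      rw [hLv, i1_mem]
      refine ⟨⟨w.ord x, rfl⟩, hL.mem _ (w.red_ne_zero (mul_ne_zero hx (zpow_ne_zero _ hϖ0)) ?_)⟩
      rw [w.ord_mul hx (zpow_ne_zero _ hϖ0), w.ord_zpow, hϖ1]
      ring
    · intro b hb
      have h1 := hL.const b hb
      rw [w.algebraMap_RF] at h1
      rw [hLv, i1_v w ϖ L' (w.ord_const hb), h1]
      rfl
    · intro i
      refine Fin.lastCases ?_ (fun i => ?_) i
      · rw [Fin.snoc_last]
        refine ⟨hτ0, ?_⟩
        rw [hLac]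
        unfold compAc
        rw [← he, hcube]
        exact i1_cube L' _
      · rw [Fin.snoc_castSucc]
        refine ⟨(ht0 i).1, ?_⟩
        rw [hLac, i1_ac w ϖ L' (ht0 i).2]
        exact (hL.cube i).2
    · rintro m ⟨x, hx, hsum⟩
      rw [i1_mem] at hx
      obtain ⟨⟨n, hn⟩, hx2⟩ := hx
      rw [Fin.sum_univ_castSucc] at hsum
      simp only [Fin.snoc_castSucc, Fin.snoc_last] at hsum
      have h1 : ∀ i, L.v (t i) = toLex ((0 : ℚ), L'.v (w.red (t i))) := fun i => by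
        rw [hLv, i1_v w ϖ L' (ht0 i).2]
      have h1' : L.v τ = toLex ((e : ℚ), L'.v ((ρ ^ κ) ^ 3)) := by rw [hLv, hcubeτ]
      simp only [h1, h1'] at hsum
      have h2 := congrArg i1_f hsum
      have h3 := congrArg i1_s hsum
      simp only [map_add, map_sum, map_zsmul, map_nsmul, i1_f_mk, smul_zero,
        Finset.sum_const_zero, zero_add] at h2
      simp only [map_add, map_sum, map_zsmul, map_nsmul, i1_s_mk] at h3
      have h4 : i1_f x = (n : ℚ) := hn.symm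
      rw [h4, zsmul_eq_mul, nsmul_eq_mul] at h2
      have h5 : m (Fin.last s) * e = 3 * n := by
        have h6 : ((m (Fin.last s) * e : ℤ) : ℚ) = ((3 * n : ℤ) : ℚ) := by
          push_cast
          exact h2
        exact_mod_cast h6
      have h6 : (3 : ℤ) ∣ m (Fin.last s) := by
        have h7 : (3 : ℤ) ∣ m (Fin.last s) * e := ⟨n, h5⟩
        exact (Int.prime_three.dvd_or_dvd h7).resolve_right hτ
      obtain ⟨m', hm'⟩ := h6
      have h7 := hL.indep (fun i => m (Fin.castSucc i)) ⟨i1_s x - m' • L'.v ((ρ ^ κ) ^ 3),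
        Γ'.sub_mem hx2 (Γ'.zsmul_mem (hL.mem _ (pow_ne_zero _ (zpow_ne_zero _ hρ0))) _), by
          rw [hm'] at h3
          rw [nsmul_sub, ← h3, mul_zsmul]
          have h8 : (3 : ℕ) • m' • L'.v ((ρ ^ κ) ^ 3) = (3 : ℤ) • m' • L'.v ((ρ ^ κ) ^ 3) := by
            rw [← natCast_zsmul]
            rfl
          rw [h8, add_sub_cancel_right]⟩
      intro i
      refine Fin.lastCases ?_ (fun i => ?_) i
      · exact ⟨m', hm'⟩
      · exact h7 i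
    · rw [hLv, i1_v w ϖ L' hao, hL.v_zero]
      rfl
    · rw [hLac, i1_ac w ϖ L' hao]
      exact hL.ncube
  · intro x hx hna hv
    rw [hLv] at hv
    have h1 : ((w.ord x : ℤ) : ℚ) = 0 := congrArg (fun z : ℚ ×ₗ H => (ofLex z).1) hv
    have h2 : w.ord x = 0 := by exact_mod_cast h1
    rw [i1_v w ϖ L' h2] at hv
    have h3 : L'.v (w.red x) = 0 := congrArg (fun z : ℚ ×ₗ H => (ofLex z).2) hv
    rw [hLac, i1_ac w ϖ L' h2]
    exact hlast _ (w.red_ne_zero hx h2) (fun h4 => hna (halg x (Or.inr h2.ge) h4)) h3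
end
end Pool.Agent.H900.P3
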