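import Pool.Agent.H900.P3.Gd
import Pool.Agent.H900.PN.Co
import Pool.Agent.H900.P3.I1
import Pool.Agent.H900.P3.I0
import Pool.Agent.H900.P3.Hs
import Pool.Agent.H900.P3.G
set_option autoImplicit false
namespace Pool.Agent.H900.P3
open MvPolynomial Module FF
/-- independence over a simple transcendental extension -/
theorem ai_adj {Ω E ι : Type} [Field Ω] [Field E] [Algebra Ω E] {v : ι → E} {τ : E} :
    AlgebraicIndependent Ω (Sum.elim v fun _ : Unit => τ) ↔
      Transcendental Ω τ ∧ AlgebraicIndependent (IntermediateField.adjoin Ω {τ}) v := by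
  rw [AlgebraicIndependent.sumElim_iff, algebraicIndependent_unique_type_iff,
    IntermediateField.algebraicIndependent_adjoin_iff]
  have h : Set.range (fun _ : Unit => τ) = {τ} := Set.range_const
  rw [h]

/-- the reduction of a polynomial over the constants -/
theorem red_aev {Ω E ι : Type} [Field Ω] [Field E] [Algebra Ω E] (w : Place Ω E) {y : ι → E}
    (hy : ∀ j, w.Reg (y j)) (p : MvPolynomial ι Ω) :
    w.Reg (aeval y p) ∧ w.red (aeval y p) = aeval (fun j => w.red (y j)) p := by
  induction p using MvPolynomial.induction_on with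
  | C a =>
    rw [aeval_C, aeval_C]
    exact ⟨w.reg_const a, rfl⟩
  | add p q hp hq =>
    rw [map_add, map_add]
    exact ⟨w.reg_add hp.1 hq.1, by rw [w.red_add hp.1 hq.1, hp.2, hq.2]⟩
  | mul_X p j hp =>
    rw [map_mul, map_mul, aeval_X, aeval_X]
    exact ⟨w.reg_mul hp.1 (hy j), by rw [w.red_mul hp.1 (hy j), hp.2]⟩

/-- an element is regular if its cube is -/
theorem reg_cube {Ω E : Type} [Field Ω] [Field E] [Algebra Ω E] (w : Place Ω E) {a : E}
    (h : w.Reg (a ^ 3)) : w.Reg a := by
  by_cases h0 : a = 0
  · exact Or.inl h0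
  · rcases h with h | h
    · exact absurd (pow_eq_zero_iff (by norm_num)|>.1 h) h0
    · right
      rw [w.ord_pow] at h
      push_cast at h
      omega

/-- the substitution `t_s = 0` -/
noncomputable def sb (Ω : Type) [Field Ω] (s q : ℕ) :
    Fin (s + 1) ⊕ Fin q → MvPolynomial (Fin s ⊕ Fin q) Ω :=
  Sum.elim (Fin.snoc (fun i => X (Sum.inl i)) 0) fun j => X (Sum.inr j)

theorem sb_last (Ω : Type) [Field Ω] (s q : ℕ) : sb Ω s q (Sum.inl (Fin.last s)) = 0 := by
  change (Fin.snoc (fun i => X (Sum.inl i)) 0 : Fin (s + 1) → MvPolynomial (Fin s ⊕ Fin q) Ω)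
    (Fin.last s) = 0
  exact Fin.snoc_last (α := fun _ => MvPolynomial (Fin s ⊕ Fin q) Ω) _ _

theorem sb_castSucc (Ω : Type) [Field Ω] (s q : ℕ) (i : Fin s) :
    sb Ω s q (Sum.inl i.castSucc) = X (Sum.inl i) := by
  change (Fin.snoc (fun i => X (Sum.inl i)) 0 : Fin (s + 1) → MvPolynomial (Fin s ⊕ Fin q) Ω)
    i.castSucc = X (Sum.inl i)
  exact Fin.snoc_castSucc (α := fun _ => MvPolynomial (Fin s ⊕ Fin q) Ω) _ _ _

theorem sb_vars {Ω : Type} [Field Ω] {s q : ℕ} {i0 : Fin q}
    {p : MvPolynomial (Fin (s + 1) ⊕ Fin q) Ω} (hp : Sum.inr i0 ∉ p.vars) :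
    Sum.inr i0 ∉ (bind₁ (sb Ω s q) p).vars := by
  intro h
  obtain ⟨v, hv, hv2⟩ := mem_vars_bind₁ _ _ h
  rcases v with i | j
  · have h2 : Sum.inr i0 ∈ ((Fin.snoc (fun i => X (Sum.inl i)) 0 :
      Fin (s + 1) → MvPolynomial (Fin s ⊕ Fin q) Ω) i).vars := hv2
    refine Fin.lastCases (motive := fun i => Sum.inr i0 ∈ ((Fin.snoc (fun i => X (Sum.inl i)) 0 :
      Fin (s + 1) → MvPolynomial (Fin s ⊕ Fin q) Ω) i).vars → False) ?_ (fun i => ?_) i h2
    · rw [Fin.snoc_last, vars_0]
      intro h3
      exact absurd h3 (Finset.notMem_empty _)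
    · rw [Fin.snoc_castSucc, vars_X, Finset.mem_singleton]
      intro h3
      exact absurd h3 (by simp)
  · have h2 : Sum.inr i0 ∈ (X (Sum.inr j) : MvPolynomial (Fin s ⊕ Fin q) Ω).vars := hv2
    rw [vars_X, Finset.mem_singleton] at h2
    have h3 : i0 = j := Sum.inr_injective h2
    rw [h3] at hp
    exact hp hv

/-- (I2) induction on `s`, from (G2), (H), (I0) and (I1) -/
theorem exists_good_aux {Ω : Type} [Field Ω] [IsAlgClosed Ω] [CharZero Ω] {q : ℕ} (i0 : Fin q)
    (s : ℕ) : ∀ (E : Type) [Field E] [Algebra Ω E] (t : Fin s → E) (x : Fin q → E)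
    (p : MvPolynomial (Fin s ⊕ Fin q) Ω) (_ : Sum.inr i0 ∉ p.vars)
    (_ : AlgebraicIndependent Ω (Sum.elim t x)) {a : E}
    (_ : a ^ 3 = x i0 ^ 2 + x i0 + aeval (Sum.elim t x) p) {N : ℕ} (_ : ¬ 3 ∣ N)
    (_ : finrank (IntermediateField.adjoin Ω (Set.range (Sum.elim t x))) E = 3 * N),
    Good Ω t (x i0) := by
  induction s with
  | zero =>
    intro E _ _ t x p hp hV a ha N hN hfr
    exact good_base t (base_ncube (V := Sum.elim t x) (i0 := Sum.inr i0) hV hp ha hN hfr)
  | succ s ih =>
    intro E _ _ t x p hp hV a ha N hN hfr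
    obtain ⟨τ, hτ⟩ : ∃ τ, τ = t (Fin.last s) := ⟨_, rfl⟩
    obtain ⟨t', ht'⟩ : ∃ t' : Fin s → E, t' = fun i => t i.castSucc := ⟨_, rfl⟩
    have ht : t = Fin.snoc t' τ := by
      funext i
      refine Fin.lastCases ?_ (fun i => ?_) i
      · rw [Fin.snoc_last, hτ]
      · rw [Fin.snoc_castSucc, ht']
    -- the function field
    obtain ⟨e, he⟩ : ∃ e : Fin s ⊕ Fin q ≃ Fin (s + q), e = finSumFinEquiv := ⟨_, rfl⟩
    obtain ⟨U, hU⟩ : ∃ U : Fin (s + q) → E, U = Sum.elim t' x ∘ e.symm := ⟨_, rfl⟩
    have hUe : ∀ v, U (e v) = Sum.elim t' x v := by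
      intro v
      rw [hU, Function.comp_apply, Equiv.symm_apply_apply]
    have hai : Transcendental Ω τ ∧
        AlgebraicIndependent (IntermediateField.adjoin Ω {τ}) (Sum.elim t' x) := by
      rw [← ai_adj]
      obtain ⟨g, hg⟩ : ∃ g : (Fin s ⊕ Fin q) ⊕ Unit → Fin (s + 1) ⊕ Fin q,
          g = Sum.elim (Sum.elim (fun i => Sum.inl i.castSucc) fun j => Sum.inr j)
            fun _ => Sum.inl (Fin.last s) := ⟨_, rfl⟩
      have hgi : Function.Injective g := by
        rw [hg]
        rintro ((i | j) | u) ((i' | j') | u') h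
        · have h2 : i.castSucc = i'.castSucc := Sum.inl_injective h
          rw [Fin.castSucc_injective _ h2]
        · exact absurd h (by simp)
        · have h2 : i.castSucc = Fin.last s := Sum.inl_injective h
          exact absurd h2 (Fin.castSucc_lt_last i).ne
        · exact absurd h (by simp)
        · have h2 : j = j' := Sum.inr_injective h
          rw [h2]
        · exact absurd h (by simp)
        · have h2 : Fin.last s = i'.castSucc := Sum.inl_injective h
          exact absurd h2.symm (Fin.castSucc_lt_last i').ne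
        · exact absurd h (by simp)
        · rfl
      have h2 := hV.comp g hgi
      have h3 : Sum.elim t x ∘ g = Sum.elim (Sum.elim t' x) fun _ => τ := by
        rw [hg, ht', hτ]
        funext v
        rcases v with (i | j) | u
        · rfl
        · rfl
        · rfl
      rw [h3] at h2
      exact h2
    obtain ⟨hτt, hai⟩ := hai
    obtain ⟨c, hc⟩ : ∃ c : IntermediateField.adjoin Ω {τ},
        c = IntermediateField.AdjoinSimple.gen Ω τ := ⟨_, rfl⟩
    have hcτ : algebraMap (IntermediateField.adjoin Ω {τ}) E c = τ := by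
      rw [hc]
      exact IntermediateField.AdjoinSimple.algebraMap_gen Ω τ
    have hct : Transcendental Ω c := by
      intro h
      apply hτt
      have h2 := h.algebraMap (A := E)
      rw [hcτ] at h2
      exact h2
    have htop : IntermediateField.adjoin Ω {c} =
        (⊤ : IntermediateField Ω (IntermediateField.adjoin Ω {τ})) := by
      apply IntermediateField.lift_injective
      rw [IntermediateField.lift_adjoin, IntermediateField.lift_top, Set.image_singleton]
      congr 1
      rw [hc]
      rfl
    have hf1 : finrank (IntermediateField.adjoin Ω {c}) (IntermediateField.adjoin Ω {τ}) = 1 := by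
      rw [htop]
      exact IntermediateField.finrank_top
    have hFF : IsFF Ω (IntermediateField.adjoin Ω {τ}) := by
      refine IsFF.of_finite hct ?_
      apply FiniteDimensional.of_finrank_pos
      rw [hf1]
      exact Nat.one_pos
    have hUi : AlgebraicIndependent (IntermediateField.adjoin Ω {τ}) U := by
      rw [hU]
      exact hai.comp _ e.symm.injective
    have hUr : Set.range U = Set.range (Sum.elim t' x) := by
      rw [hU]
      exact e.symm.surjective.range_comp _
    have hfrU : finrank (IntermediateField.adjoin (IntermediateField.adjoin Ω {τ})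
        (Set.range U)) E = 3 * N := by
      have h1 : (IntermediateField.adjoin (IntermediateField.adjoin Ω {τ})
          (Set.range U)).restrictScalars Ω =
          IntermediateField.adjoin Ω (Set.range (Sum.elim t x)) := by
        rw [IntermediateField.adjoin_adjoin_left]
        congr 1
        rw [hUr]
        ext z
        constructor
        · rintro (h | ⟨v, rfl⟩)
          · rw [Set.mem_singleton_iff] at h
            exact ⟨Sum.inl (Fin.last s), by rw [h, hτ]; rfl⟩
          · rcases v with i | j
            · exact ⟨Sum.inl i.castSucc, by rw [ht']; rfl⟩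
            · exact ⟨Sum.inr j, rfl⟩
        · rintro ⟨v, rfl⟩
          rcases v with i | j
          · refine Fin.lastCases ?_ (fun i => ?_) i
            · left
              rw [Set.mem_singleton_iff, hτ]
              rfl
            · right
              exact ⟨Sum.inl i, by rw [ht']; rfl⟩
          · right
            exact ⟨Sum.inr j, rfl⟩
      have h2 : finrank (IntermediateField.adjoin (IntermediateField.adjoin Ω {τ})
          (Set.range U)) E = finrank ((IntermediateField.adjoin (IntermediateField.adjoin Ω {τ})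
          (Set.range U)).restrictScalars Ω) E := rfl
      rw [h2, h1, hfr]
    -- the polynomial
    obtain ⟨pp, hpp⟩ : ∃ pp, pp = bind₁ (sb Ω s q) p := ⟨_, rfl⟩
    have hppv : Sum.inr i0 ∉ pp.vars := by
      rw [hpp]
      exact sb_vars hp
    have hp0 : e (Sum.inr i0) ∉ (rename e pp).vars := by
      intro h
      obtain ⟨v, hv, hv2⟩ := mem_vars_rename _ _ h
      rw [e.injective hv2] at hv
      exact hppv hv
    have hred : ∀ w : Place Ω E, 0 < w.ord (algebraMap (IntermediateField.adjoin Ω {τ}) E c) →
        (∀ j, w.Reg (U j)) → ∃ a : w.RF,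
          a ^ 3 = w.red (x i0) ^ 2 + w.red (x i0) +
            aeval (Sum.elim (fun i => w.red (t' i)) fun j => w.red (x j)) pp := by
      intro w hw hr
      rw [hcτ] at hw
      have hr2 : ∀ v, w.Reg (Sum.elim t' x v) := by
        intro v
        rw [← hUe]
        exact hr _
      have hrt : ∀ i, w.Reg (t i) := by
        intro i
        refine Fin.lastCases ?_ (fun i => ?_) i
        · right
          rw [← hτ]
          exact hw.le
        · have h2 := hr2 (Sum.inl i)
          rw [ht'] at h2
          exact h2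
      have hrx : ∀ j, w.Reg (x j) := fun j => hr2 (Sum.inr j)
      have hrv : ∀ v, w.Reg (Sum.elim t x v) := by
        rintro (i | j)
        · exact hrt i
        · exact hrx j
      obtain ⟨h1, h2⟩ := red_aev w hrv p
      have h3 : w.Reg (x i0 ^ 2) := by
        rw [pow_two]
        exact w.reg_mul (hrx i0) (hrx i0)
      have h4 : w.Reg (x i0 ^ 2 + x i0) := w.reg_add h3 (hrx i0)
      have h5 : w.Reg (a ^ 3) := by
        rw [ha]
        exact w.reg_add h4 h1
      have h6 : w.Reg a := reg_cube w h5
      refine ⟨w.red a, ?_⟩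
      rw [← w.red_pow h6, ha, w.red_add h4 h1, w.red_add h3 (hrx i0), w.red_pow (hrx i0), h2, hpp,
        aeval_bind₁]
      congr 2
      congr 1
      funext v
      rcases v with i | j
      · refine Fin.lastCases ?_ (fun i => ?_) i
        · rw [sb_last, map_zero]
          have h8 : Sum.elim t x (Sum.inl (Fin.last s)) = τ := hτ.symm
          rw [h8]
          exact (w.red_eq_zero_iff (Or.inr hw.le)).2 (Or.inr hw)
        · rw [sb_castSucc, aeval_X, ht']
          rfl
      · have h7 : sb Ω s q (Sum.inr j) = X (Sum.inr j) := rfl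
        rw [h7, aeval_X]
        rfl
    have hUred : ∀ w : Place Ω E, (Sum.elim (fun i => w.red (t' i)) fun j => w.red (x j)) =
        (fun j => w.red (U j)) ∘ e := by
      intro w
      funext v
      rw [Function.comp_apply, hUe]
      rcases v with i | j
      · rfl
      · rfl
    have hUx : U (e (Sum.inr i0)) = x i0 := hUe _
    obtain ⟨w, hw1, hw2, hw3, hw4, ⟨N', hN', hfr'⟩, hw6⟩ := stage (Ω := Ω)
      (K := IntermediateField.adjoin Ω {τ}) (E := E) (c := c) hct (U := U) hUi
      (i0 := e (Sum.inr i0)) (p := rename e pp) hp0 (by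
        intro w hw hr _
        obtain ⟨b, hb⟩ := hred w hw hr
        refine ⟨b, ?_⟩
        rw [hb, hUred, hUx, aeval_rename]) hN hfrU
    have hw2' := hw2 hf1
    rw [hcτ] at hw1 hw2'
    have hr2 : ∀ v, w.Reg (Sum.elim t' x v) := by
      intro v
      rw [← hUe]
      exact hw3 _
    obtain ⟨b, hb⟩ := hred w (by rw [hcτ]; exact hw1) hw3
    have hV' : AlgebraicIndependent Ω
        (Sum.elim (fun i => w.red (t' i)) fun j => w.red (x j)) := by
      rw [hUred]
      exact hw4.comp _ e.injective
    have hG := ih w.RF (fun i => w.red (t' i)) (fun j => w.red (x j)) pp hppv hV' hb hN' (by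
      rw [hUred, e.surjective.range_comp]
      exact hfr')
    rw [ht]
    refine good_step w hw2' (fun i => hr2 (Sum.inl i)) (hr2 (Sum.inr i0)) hG ?_
    intro y hy hyi
    have h1 : AlgebraicIndependent (IntermediateField.adjoin Ω {τ})
        (Fin.cons y t' : Fin (s + 1) → E) := by
      refine hw6 (s + 1) (Fin.cons y t') ?_ ?_
      · intro j
        refine Fin.cases ?_ (fun j => ?_) j
        · exact hy
        · exact hr2 (Sum.inl j)
      · have h2 : (fun j => w.red ((Fin.cons y t' : Fin (s + 1) → E) j)) =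
            Fin.cons (w.red y) (fun i => w.red (t' i)) := by
          funext j
          refine Fin.cases ?_ (fun j => ?_) j
          · rfl
          · rfl
        rw [h2]
        exact hyi
    have h2 := ai_adj.2 ⟨hτt, h1⟩
    obtain ⟨g, hg⟩ : ∃ g : Fin (s + 2) → Fin (s + 1) ⊕ Unit,
        g = Fin.snoc (fun i => Sum.inl i) (Sum.inr ()) := ⟨_, rfl⟩
    have hgi : Function.Injective g := by
      intro i j
      rw [hg]
      refine Fin.lastCases ?_ (fun i => ?_) i
      · refine Fin.lastCases ?_ (fun j => ?_) j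
        · intro _
          rfl
        · rw [Fin.snoc_last, Fin.snoc_castSucc]
          intro h
          exact absurd h (by simp)
      · refine Fin.lastCases ?_ (fun j => ?_) j
        · rw [Fin.snoc_last, Fin.snoc_castSucc]
          intro h
          exact absurd h (by simp)
        · rw [Fin.snoc_castSucc, Fin.snoc_castSucc]
          intro h
          rw [Sum.inl_injective h]
    have h3 := h2.comp g hgi
    have h4 : (Sum.elim (Fin.cons y t' : Fin (s + 1) → E) fun _ : Unit => τ) ∘ g =
        (Fin.cons y (Fin.snoc t' τ : Fin (s + 1) → E) : Fin (s + 2) → E) := by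
      rw [Fin.cons_snoc_eq_snoc_cons, hg]
      funext i
      refine Fin.lastCases ?_ (fun i => ?_) i
      · rw [Function.comp_apply, Fin.snoc_last, Fin.snoc_last]
        rfl
      · rw [Function.comp_apply, Fin.snoc_castSucc, Fin.snoc_castSucc]
        rfl
    rw [h4] at h3
    exact h3

/-- (I2) induction on `s`, from (G2), (H), (I0) and (I1) -/
theorem exists_good {Ω : Type} [Field Ω] [IsAlgClosed Ω] [CharZero Ω] {q : ℕ} (i0 : Fin q) (s : ℕ)
    (E : Type) [Field E] [Algebra Ω E] (t : Fin s → E) (x : Fin q → E)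
    (p : MvPolynomial (Fin s ⊕ Fin q) Ω) (hp : Sum.inr i0 ∉ p.vars)
    (hV : AlgebraicIndependent Ω (Sum.elim t x)) {a : E}
    (ha : a ^ 3 = x i0 ^ 2 + x i0 + aeval (Sum.elim t x) p) {N : ℕ} (hN : ¬ 3 ∣ N)
    (hfr : finrank (IntermediateField.adjoin Ω (Set.range (Sum.elim t x))) E = 3 * N) :
    Good Ω t (x i0) :=
  exists_good_aux i0 s E t x p hp hV ha hN hfr
end Pool.Agent.H900.P3
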