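import Pool.Agent.H900.P3.Gd
import Pool.Agent.H900.P3.Fc
set_option autoImplicit false
namespace Pool.Agent.H900.P3
open MvPolynomial Module FF
noncomputable section
/-- the subgroup of the values -/
def gamI {H : Type} [AddCommGroup H] (Γ' : AddSubgroup H) : AddSubgroup (ℚ ×ₗ H) where
  carrier := {z | (∃ n : ℤ, (ofLex z).1 = n) ∧ (ofLex z).2 ∈ Γ'}
  add_mem' := by
    rintro x y ⟨⟨n, hn⟩, hx⟩ ⟨⟨m, hm⟩, hy⟩
    refine ⟨⟨n + m, ?_⟩, ?_⟩
    · rw [ofLex_add, Prod.fst_add, hn, hm]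
      push_cast
      rfl
    · rw [ofLex_add, Prod.snd_add]
      exact Γ'.add_mem hx hy
  zero_mem' := ⟨⟨0, by rw [ofLex_zero]; simp⟩, by rw [ofLex_zero]; exact Γ'.zero_mem⟩
  neg_mem' := by
    rintro x ⟨⟨n, hn⟩, hx⟩
    refine ⟨⟨-n, ?_⟩, ?_⟩
    · rw [ofLex_neg, Prod.fst_neg, hn]
      push_cast
      rfl
    · rw [ofLex_neg, Prod.snd_neg]
      exact Γ'.neg_mem hx

/-- the first coordinate -/
def fstI (H : Type) [AddCommGroup H] : (ℚ ×ₗ H) →+ ℚ where
  toFun z := (ofLex z).1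
  map_zero' := rfl
  map_add' _ _ := rfl

/-- the second coordinate -/
def sndI (H : Type) [AddCommGroup H] : (ℚ ×ₗ H) →+ H where
  toFun z := (ofLex z).2
  map_zero' := rfl
  map_add' _ _ := rfl

lemma ord_of_red {Ω E : Type} [Field Ω] [Field E] [Algebra Ω E] (w : Place Ω E) {x : E}
    (hx : w.Reg x) (hr : w.red x ≠ 0) : x ≠ 0 ∧ w.ord x = 0 := by
  have h1 : ¬ (x = 0 ∨ 0 < w.ord x) := fun h => hr ((w.red_eq_zero_iff hx).2 h)
  rw [not_or, not_lt] at h1
  exact ⟨h1.1, le_antisymm h1.2 ((w.reg_iff h1.1).1 hx)⟩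

/-- (I3) the last composition, with the place where `c` vanishes -/
theorem good_c {Ω K E : Type} [Field Ω] [Field K] [Field E] [Algebra Ω E] [Algebra K E] {s : ℕ}
    (w : Place Ω E) {t : Fin s → E} {c a : E} (hc : 0 < w.ord c) (ht : ∀ i, w.Reg (t i))
    (ha : w.Reg a) (hG : Good Ω (fun i => w.red (t i)) (w.red a))
    (halg : ∀ x : E, w.Reg x →
      AlgebraicIndependent Ω (Fin.cons (w.red x) (fun i => w.red (t i)) : Fin (s + 1) → w.RF) →
      AlgebraicIndependent K (Fin.cons x t : Fin (s + 1) → E)) :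
    ∃ (H k : Type) (_ : AddCommGroup H) (_ : LinearOrder H) (_ : IsOrderedAddMonoid H)
      (_ : Field k) (L : LTS E H k) (Γ : AddSubgroup H) (h : H →+ ℚ), GoodL Ω L Γ t a ∧
      (∀ x : E, x ≠ 0 → ¬ AlgebraicIndependent K (Fin.cons x t : Fin (s + 1) → E) → L.v x = 0 →
        Cb (L.ac x)) ∧
      Monotone h ∧ 0 < h (L.v c) ∧ ∀ i, h (L.v (t i)) = 0 := by
  obtain ⟨H', k, _, _, _, _, L', Γ', hL, hcub⟩ := hG
  obtain ⟨ϖ, h0, h1⟩ := w.surj
  -- values of units
  have hvu : ∀ x : E, w.ord x = 0 → (comp w h0 h1 L').v x = toLex ((0 : ℚ), L'.v (w.red x)) := by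
    intro x hx
    change toLex ((w.ord x : ℚ), L'.v (w.red (x * ϖ ^ (-w.ord x)))) = _
    rw [hx, neg_zero, zpow_zero, mul_one, Int.cast_zero]
  have hau : ∀ x : E, w.ord x = 0 → (comp w h0 h1 L').ac x = L'.ac (w.red x) := by
    intro x hx
    change L'.ac (w.red (x * ϖ ^ (-w.ord x))) = _
    rw [hx, neg_zero, zpow_zero, mul_one]
  have ht0 : ∀ i, t i ≠ 0 ∧ w.ord (t i) = 0 := fun i =>
    ord_of_red w (ht i) (hL.cube i).1
  have ha0 : a ≠ 0 ∧ w.ord a = 0 := by
    refine ord_of_red w ha fun h => hL.ncube ?_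
    rw [h, L'.ac_zero]
    exact ⟨0, by ring⟩
  refine ⟨ℚ ×ₗ H', k, inferInstance, inferInstance, inferInstance, inferInstance,
    comp w h0 h1 L', gamI Γ', fstI H', ?_, ?_, ?_, ?_, ?_⟩
  · constructor
    · intro n hn x
      obtain ⟨y, hy⟩ := hL.div n hn (ofLex x).2
      refine ⟨toLex ((ofLex x).1 / n, y), ?_⟩
      have hn' : (n : ℚ) ≠ 0 := by exact_mod_cast hn
      apply ofLex.injective
      refine Prod.ext ?_ ?_
      · change n • ((ofLex x).1 / n) = (ofLex x).1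
        rw [nsmul_eq_mul]
        field_simp
      · exact hy
    · intro x hx
      refine ⟨⟨w.ord x, rfl⟩, ?_⟩
      change L'.v (w.red (x * ϖ ^ (-w.ord x))) ∈ Γ'
      refine hL.mem _ (w.red_ne_zero (mul_ne_zero hx (zpow_ne_zero _ h0)) ?_)
      rw [w.ord_mul hx (zpow_ne_zero _ h0), w.ord_zpow, h1]
      ring
    · intro b hb
      rw [hvu _ (w.ord_const hb), ← w.algebraMap_RF, hL.const b hb]
      rfl
    · intro i
      refine ⟨(ht0 i).1, ?_⟩
      rw [hau _ (ht0 i).2]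
      exact (hL.cube i).2
    · rintro m ⟨x, ⟨_, hx⟩, hmx⟩
      refine hL.indep m ⟨(ofLex x).2, hx, ?_⟩
      have h2 := congrArg (sndI H') hmx
      rw [map_sum, map_nsmul] at h2
      have h3 : ∀ i, sndI H' (m i • (comp w h0 h1 L').v (t i)) = m i • L'.v (w.red (t i)) := by
        intro i
        rw [map_zsmul, hvu _ (ht0 i).2]
        rfl
      simp only [h3] at h2
      exact h2
    · rw [hvu _ ha0.2, hL.v_zero]
      rfl
    · rw [hau _ ha0.2]
      exact hL.ncube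
  · intro x hx hnot hv
    have hord : w.ord x = 0 := by
      have h2 : ((w.ord x : ℤ) : ℚ) = 0 := congrArg (fstI H') hv
      exact_mod_cast h2
    rw [hau _ hord]
    have hv' : L'.v (w.red x) = 0 := by
      have h2 := congrArg (sndI H') hv
      rw [hvu _ hord] at h2
      exact h2
    have hreg : w.Reg x := Or.inr hord.ge
    exact hcub (w.red x) (w.red_ne_zero hx hord) (fun h2 => hnot (halg x hreg h2)) hv'
  · intro x y hxy
    exact Prod.Lex.monotone_fst x y hxy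
  · change (0 : ℚ) < ((w.ord c : ℤ) : ℚ)
    exact_mod_cast hc
  · intro i
    rw [hvu _ (ht0 i).2]
    rfl
end
end Pool.Agent.H900.P3
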