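import Pool.Agent.H900.P3.Cu
import Pool.Agent.H900.P3.I3
import Pool.Agent.H900.P3.I2

/-! # The theorem over function fields, for the prime three -/

set_option autoImplicit false
set_option linter.unusedSectionVars false
set_option linter.unusedVariables false

namespace Pool.Agent.H900.P3

open FF Module Pool.Agent.Helper93K9.PAR
open Pool.Agent.H900.PN (fv fv_smul eqn UU uu eqv Lkk rsum rprod red_fv)

noncomputable section

section spq

theorem spq_map {n : ℕ} {ι A B : Type} [CommRing A] [CommRing B] (f : A →+* B)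
    (σ : Fin n → Finset ι) (t : ι → A) (y : Fin (n + 2) → A) :
    f (spq σ t y) = spq σ (fun i => f (t i)) fun i => f (y i) := by
  unfold spq
  simp only [map_sub, map_mul, map_add, map_sum, map_prod, map_pow]

end spq

section poly

open MvPolynomial

/-- the polynomial of the coordinates different from `y_1` -/
def pP (Ω : Type) [CommRing Ω] {s N : ℕ} (m : ℕ) (σ : Fin (N + 1) → Finset (Fin s)) :
    MvPolynomial (Fin s ⊕ Fin (N + 1 + m)) Ω :=
  -∑ j : Fin N, (∏ i ∈ σ j.castSucc, X (Sum.inl i)) * X (Sum.inr (Fin.castAdd m j.succ)) ^ 3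

theorem pP_vars {Ω : Type} [Field Ω] {s N : ℕ} (m : ℕ) (σ : Fin (N + 1) → Finset (Fin s)) :
    (Sum.inr (Fin.castAdd m 0) : Fin s ⊕ Fin (N + 1 + m)) ∉ (pP Ω m σ).vars := by
  classical
  -- the polynomial does not change if the variable is replaced by zero
  have hsup : pP Ω m σ ∈ supported Ω {v : Fin s ⊕ Fin (N + 1 + m) |
      v ≠ Sum.inr (Fin.castAdd m 0)} := by
    unfold pP
    refine Subalgebra.neg_mem _ (Subalgebra.sum_mem _ fun j _ => Subalgebra.mul_mem _
      (Subalgebra.prod_mem _ fun i _ => ?_) (Subalgebra.pow_mem _ ?_ 3))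
    · refine (X_mem_supported).2 ?_
      show Sum.inl i ≠ _
      simp
    · refine (X_mem_supported).2 ?_
      show Sum.inr _ ≠ Sum.inr _
      intro h
      have h1 := Fin.castAdd_injective _ _ (Sum.inr_injective h)
      exact absurd h1 (Fin.succ_ne_zero j)
  intro h
  exact (mem_supported.1 hsup) h rfl

theorem pP_aeval {Ω A : Type} [Field Ω] [CommRing A] [Algebra Ω A] {s N : ℕ} (m : ℕ)
    (σ : Fin (N + 1) → Finset (Fin s)) (v : Fin s ⊕ Fin (N + 1 + m) → A) :
    aeval v (pP Ω m σ) = -∑ j : Fin N, (∏ i ∈ σ j.castSucc, v (Sum.inl i)) *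
      v (Sum.inr (Fin.castAdd m j.succ)) ^ 3 := by
  unfold pP
  rw [map_neg, map_sum]
  congr 1
  refine Finset.sum_congr rfl fun j _ => ?_
  rw [map_mul, map_prod, map_pow, aeval_X]
  congr 1
  exact Finset.prod_congr rfl fun i _ => aeval_X _ _

end poly

theorem nt_smul {E H k : Type} [Field E] [Field k] [AddCommGroup H] [LinearOrder H]
    [IsOrderedAddMonoid H] (L : LTS E H k) {a x y : E} (ha : a ≠ 0) :
    L.NT (a * x) (a * y) ↔ L.NT x y := by
  unfold LTS.NT
  have key : ∀ {x y : E}, x ≠ 0 → y ≠ 0 → (L.v (a * x) = L.v (a * y) ↔ L.v x = L.v y) := by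
    intro x y hx hy
    rw [L.v_mul _ _ ha hx, L.v_mul _ _ ha hy, add_right_inj]
  have key2 : ∀ x y : E, Cb (L.ac (a * x) * L.ac (a * y) ^ 2) ↔ Cb (L.ac x * L.ac y ^ 2) := by
    intro x y
    rw [L.ac_mul, L.ac_mul]
    have ha' := L.ac_ne a ha
    constructor
    · rintro ⟨z, hz⟩
      refine ⟨z / L.ac a, ?_⟩
      rw [div_pow, hz]
      field_simp
    · rintro ⟨z, hz⟩
      refine ⟨L.ac a * z, ?_⟩
      rw [mul_pow, hz]
      ring
  rw [key2]
  constructor
  · rintro ⟨h1, h2, h3, h4⟩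
    have h1' := right_ne_zero_of_mul h1
    have h2' := right_ne_zero_of_mul h2
    exact ⟨h1', h2', (key h1' h2').1 h3, h4⟩
  · rintro ⟨h1, h2, h3, h4⟩
    exact ⟨mul_ne_zero ha h1, mul_ne_zero ha h2, (key h1 h2).2 h3, h4⟩

theorem nt_div {E H k : Type} [Field E] [Field k] [AddCommGroup H] [LinearOrder H]
    [IsOrderedAddMonoid H] (L : LTS E H k) {x y : E} (hx : x ≠ 0) (hy : y ≠ 0) :
    L.NT x y ↔ L.v (y / x) = 0 ∧ ¬ Cb (L.ac (y / x)) := by
  have h1 : x * 1 = x := mul_one x
  have h2 : x * (y / x) = y := mul_div_cancel₀ y hx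
  have h3 : L.NT x y ↔ L.NT 1 (y / x) := by
    have := nt_smul L (a := x) (x := 1) (y := y / x) hx
    rw [h1, h2] at this
    exact this
  rw [h3]
  unfold LTS.NT
  rw [L.v_one, L.ac_one, one_mul]
  have hz : L.ac (y / x) ≠ 0 := L.ac_ne _ (div_ne_zero hy hx)
  have h4 : Cb (L.ac (y / x) ^ 2) ↔ Cb (L.ac (y / x)) := by
    constructor
    · rintro ⟨z, hz'⟩
      refine ⟨z ^ 2 / L.ac (y / x), ?_⟩
      rw [div_pow, ← pow_mul, mul_comm 2 3, pow_mul, hz']
      field_simp
    · rintro ⟨z, hz'⟩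
      exact ⟨z ^ 2, by rw [← hz']; ring⟩
  rw [h4]
  constructor
  · rintro ⟨-, -, h5, h6⟩
    exact ⟨h5.symm, h6⟩
  · rintro ⟨h5, h6⟩
    exact ⟨one_ne_zero, div_ne_zero hy hx, h5.symm, h6⟩

section core

variable {Ω K E : Type} [Field Ω] [IsAlgClosed Ω] [CharZero Ω] [Field K] [Field E] [Algebra Ω K]
    [Algebra K E] [Algebra Ω E] [IsScalarTower Ω K E] [IsFF Ω K]

/-- the reduction of a point of the very general member satisfies the special equation -/
theorem red_rel {s N : ℕ} {σ : Fin (N + 1) → Finset (Fin s)} (hσl : σ (Fin.last N) = ∅)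
    {T : Finset (Finset (Fin s))} (hT0 : ∅ ∈ T) (hTσ : ∀ j, σ j ∈ T)
    {G : Finset (Fin s) → MvPolynomial (Fin (N + 1 + 2)) Ω}
    (hG : ∀ τ ∈ T, (G τ).IsHomogeneous 3) (c : E) (t : Fin s → E)
    (g : Fin (N + 1 + 2) → E) (hg : eqn T t (Ph Ω σ) G c g = 0) (hg0 : g 0 ≠ 0)
    (w : Place Ω E) (hwc : 0 < w.ord c) (ht : ∀ i, w.Reg (t i))
    (hx : ∀ j : Fin (N + 1), w.Reg (g j.castSucc.succ / g 0)) :
    w.Reg (g (Fin.last (N + 2)) / g 0) ∧
      spq σ (fun i => w.red (t i)) (fun i => w.red (g i / g 0)) = 0 := by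
  classical
  have hscale : ∀ a : E, a ≠ 0 → eqn T t (Ph Ω σ) G c (fun i => g i / a) = 0 := by
    intro a ha
    have e1 : ∀ F : Finset (Fin s) → MvPolynomial (Fin (N + 1 + 2)) Ω,
        (∀ τ ∈ T, (F τ).IsHomogeneous 3) → fv T t F (fun i => g i / a) =
          (a⁻¹) ^ 3 * fv T t F g := by
      intro F hF
      rw [← fv_smul t hF]
      congr 1
      funext i
      rw [div_eq_inv_mul]
    unfold eqn at hg ⊢
    rw [e1 _ fun τ _ => Ph_hom σ τ, e1 _ hG]
    linear_combination (a⁻¹) ^ 3 * hg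
  have hcr : w.Reg c := Or.inr hwc.le
  have hcz : w.red c = 0 := (w.red_eq_zero_iff hcr).2 (Or.inr hwc)
  have hredeq : ∀ a : E, a ≠ 0 → (∀ i, w.Reg (g i / a)) →
      spq σ (fun i => w.red (t i)) (fun i => w.red (g i / a)) = 0 := by
    intro a ha hr
    have e1 := hscale a ha
    unfold eqn at e1
    obtain ⟨e2, e3⟩ := red_fv w T ht (Ph Ω σ) hr
    obtain ⟨e4, e5⟩ := red_fv w T ht G hr
    have e6 := w.red_add e2 (w.reg_mul hcr e4)
    rw [e1, w.red_zero, w.red_mul hcr e4, hcz, zero_mul, add_zero, e3,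
      fv_ph hT0 hTσ] at e6
    exact e6.symm
  have hlast : w.Reg (g (Fin.last (N + 2)) / g 0) := by
    by_contra hT
    have hT0' : g (Fin.last (N + 2)) / g 0 ≠ 0 := fun h => hT (Or.inl h)
    have hT1' : w.ord (g (Fin.last (N + 2)) / g 0) < 0 := by
      by_contra h
      exact hT (Or.inr (not_lt.1 h))
    have hl0 : g (Fin.last (N + 2)) ≠ 0 := by
      intro h
      rw [h, zero_div] at hT0'
      exact hT0' rfl
    have hsm : ∀ f : E, w.Reg f → w.Reg (f / (g (Fin.last (N + 2)) / g 0)) ∧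
        w.red (f / (g (Fin.last (N + 2)) / g 0)) = 0 := by
      intro f hf
      by_cases hf0 : f = 0
      · rw [hf0, zero_div]
        exact ⟨w.reg_zero, w.red_zero⟩
      · have h1 := (w.reg_iff hf0).1 hf
        have h2 : 0 < w.ord (f / (g (Fin.last (N + 2)) / g 0)) := by
          rw [w.ord_div hf0 hT0']
          omega
        have h3 : w.Reg (f / (g (Fin.last (N + 2)) / g 0)) := Or.inr h2.le
        exact ⟨h3, (w.red_eq_zero_iff h3).2 (Or.inr h2)⟩
    have hq : ∀ i, g i / g (Fin.last (N + 2)) = (g i / g 0) / (g (Fin.last (N + 2)) / g 0) := by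
      intro i
      rw [div_div_div_cancel_right₀ hg0]
    have hall : ∀ i, w.Reg (g i / g (Fin.last (N + 2))) ∧
        (i ≠ Fin.last (N + 2) → w.red (g i / g (Fin.last (N + 2))) = 0) := by
      intro i
      refine TrL.cases3 (P := fun i => w.Reg (g i / g (Fin.last (N + 2))) ∧
        (i ≠ Fin.last (N + 2) → w.red (g i / g (Fin.last (N + 2))) = 0)) ?_ ?_ ?_ i
      · rw [hq, div_self hg0]
        have := hsm 1 w.reg_one
        exact ⟨this.1, fun _ => this.2⟩
      · intro j
        rw [hq]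
        have := hsm _ (hx j)
        exact ⟨this.1, fun _ => this.2⟩
      · rw [div_self hl0]
        exact ⟨w.reg_one, fun h => absurd rfl h⟩
    have h2 := hredeq _ hl0 fun i => (hall i).1
    have e0 : w.red (g 0 / g (Fin.last (N + 2))) = 0 := (hall 0).2 (by
      intro h
      exact absurd (congrArg Fin.val h) (by simp))
    have ej : ∀ j : Fin N, w.red (g j.castSucc.succ.succ / g (Fin.last (N + 2))) = 0 := by
      intro j
      refine (hall _).2 fun h => ?_
      have h3 := congrArg Fin.val h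
      simp only [Fin.val_succ, Fin.val_castSucc, Fin.val_last] at h3
      have := j.isLt
      omega
    have e1 : w.red (g (Fin.last (N + 2)) / g (Fin.last (N + 2))) = 1 := by
      rw [div_self hl0, w.red_one]
    unfold spq at h2
    beta_reduce at h2
    rw [e0, zero_mul, zero_mul, zero_sub, neg_eq_zero, Fin.sum_univ_castSucc,
      Finset.sum_eq_zero fun j _ => by rw [ej, zero_pow (by norm_num), mul_zero], zero_add, hσl,
      Finset.prod_empty, one_mul] at h2
    have e2 : (Fin.last N).succ.succ = Fin.last (N + 2) := rfl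
    rw [e2, e1, one_pow] at h2
    exact one_ne_zero h2
  refine ⟨hlast, hredeq _ hg0 fun i => ?_⟩
  refine TrL.cases3 (P := fun i => w.Reg (g i / g 0)) ?_ hx hlast i
  rw [div_self hg0]
  exact w.reg_one

/-- **The theorem over function fields.** -/
theorem core3 {s N m : ℕ} {σ : Fin (N + 1) → Finset (Fin s)} (hσ : Function.Injective σ)
    (hσl : σ (Fin.last N) = ∅) {T : Finset (Finset (Fin s))} (hT0 : ∅ ∈ T)
    (hTσ : ∀ j, σ j ∈ T) {G : Finset (Fin s) → MvPolynomial (Fin (N + 1 + 2)) Ω}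
    (hG : ∀ τ ∈ T, (G τ).IsHomogeneous 3) {c : K} (hc : Transcendental Ω c) (t : Fin s → E)
    (g : Fin (N + 1 + 2) → E) (R : Fin m → E)
    (hg : eqn T t (Ph Ω σ) G (algebraMap K E c) g = 0) (hg0 : g 0 ≠ 0)
    (hi : AlgebraicIndependent K (UU t g R))
    (h3 : ∃ M, ¬ 3 ∣ M ∧ finrank (Kc K (UU t g R)) E = 3 * M)
    (l : Fin (N + 1 + 2) → E)
    (hl : ∀ i j, ¬ AlgebraicIndependent K (Fin.cons (l i / l j) t : Fin (s + 1) → E)) :
    ¬ Relation.ReflTransGen (fun a b : Fin (N + 1 + 2) → E => a ≠ 0 ∧ b ≠ 0 ∧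
      Lkk (eqn T (fun i => Polynomial.C (t i)) (Ph Ω σ) G
        (Polynomial.C (algebraMap K E c))) a b) g l := by
  classical
  intro hch
  obtain ⟨M, hM, hfr⟩ := h3
  have hUe : ∀ v, UU t g R ((eqv s (N + 1) m).symm v) =
      uu t (fun j => g j.castSucc.succ / g 0) R v := by
    intro v
    unfold UU
    rw [Function.comp_apply, Equiv.apply_symm_apply]
  -- indices
  have hinl : ∀ i : Fin s, UU t g R (finSumFinEquiv (Sum.inl i)) = t i := by
    intro i
    rw [show finSumFinEquiv (Sum.inl i) = (eqv s (N + 1) m).symm (Sum.inl i) by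
      simp [eqv], hUe]
    rfl
  have hinx : ∀ j : Fin (N + 1), UU t g R (finSumFinEquiv (Sum.inr (Fin.castAdd m j))) =
      g j.castSucc.succ / g 0 := by
    intro j
    rw [show finSumFinEquiv (Sum.inr (Fin.castAdd m j)) =
      (eqv s (N + 1) m).symm (Sum.inr (Sum.inl j)) by simp [eqv], hUe]
    rfl
  have hpv : (finSumFinEquiv (Sum.inr (Fin.castAdd m (0 : Fin (N + 1))) :
      Fin s ⊕ Fin (N + 1 + m))) ∉
      (MvPolynomial.rename finSumFinEquiv (pP Ω m σ)).vars := by
    intro h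
    obtain ⟨a, ha, hb⟩ := MvPolynomial.mem_vars_rename _ _ h
    rw [finSumFinEquiv.injective hb] at ha
    exact pP_vars m σ ha
  have hred : ∀ w : Place Ω E, 0 < w.ord (algebraMap K E c) → (∀ j, w.Reg (UU t g R j)) →
      (w.red (g (Fin.last (N + 2)) / g 0)) ^ 3 = w.red (g 1 / g 0) ^ 2 +
        w.red (g 1 / g 0) + MvPolynomial.aeval (fun v => w.red (UU t g R (finSumFinEquiv v)))
          (pP Ω m σ) := by
    intro w hw hr
    obtain ⟨-, h2⟩ := red_rel hσl hT0 hTσ hG (algebraMap K E c) t g hg hg0 w hw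
      (fun i => by rw [← hinl i]; exact hr _) (fun j => by rw [← hinx j]; exact hr _)
    unfold spq at h2
    rw [Fin.sum_univ_castSucc, hσl, Finset.prod_empty, one_mul] at h2
    beta_reduce at h2
    rw [div_self hg0, w.red_one] at h2
    have e2 : (Fin.last N).succ.succ = Fin.last (N + 2) := rfl
    rw [e2] at h2
    rw [pP_aeval]
    have e3 : ∑ j : Fin N, (∏ i ∈ σ j.castSucc, w.red (UU t g R (finSumFinEquiv (Sum.inl i)))) *
        w.red (UU t g R (finSumFinEquiv (Sum.inr (Fin.castAdd m j.succ)))) ^ 3 =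
        ∑ j : Fin N, (∏ i ∈ σ j.castSucc, w.red (t i)) *
          w.red (g j.castSucc.succ.succ / g 0) ^ 3 := by
      refine Finset.sum_congr rfl fun j _ => ?_
      rw [hinx, Finset.prod_congr rfl fun i _ => by rw [hinl]]
      rfl
    rw [e3]
    linear_combination -h2
  have hfin1 : ∀ j : Fin (N + 1), (0 : Fin (N + 1)) = j → g j.castSucc.succ / g 0 = g 1 / g 0 := by
    rintro _ rfl
    rfl
  obtain ⟨w, hwc, -, hUr, hind, ⟨M', hM', hfr'⟩, hlast⟩ := stage hc (U := UU t g R) hi
    (i0 := finSumFinEquiv (Sum.inr (Fin.castAdd m (0 : Fin (N + 1)))))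
    (p := MvPolynomial.rename finSumFinEquiv (pP Ω m σ)) hpv (fun w hw hr _ => by
      refine ⟨w.red (g (Fin.last (N + 2)) / g 0), ?_⟩
      rw [hred w hw hr, hinx, hfin1 0 rfl, MvPolynomial.aeval_rename]
      rfl) hM hfr
  have ht : ∀ i, w.Reg (t i) := fun i => by rw [← hinl i]; exact hUr _
  have hx : ∀ j : Fin (N + 1), w.Reg (g j.castSucc.succ / g 0) := fun j => by
    rw [← hinx j]
    exact hUr _
  set tb : Fin s → w.RF := fun i => w.red (t i) with htb
  set x : Fin (N + 1 + m) → w.RF := fun a => w.red (UU t g R (finSumFinEquiv (Sum.inr a))) with hxd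
  have hVe : Sum.elim tb x = fun v => w.red (UU t g R (finSumFinEquiv v)) := by
    funext v
    rcases v with i | a
    · show w.red (t i) = _
      rw [hinl]
    · rfl
  have hx0 : x (Fin.castAdd m 0) = w.red (g 1 / g 0) := by
    show w.red (UU t g R (finSumFinEquiv (Sum.inr (Fin.castAdd m 0)))) = _
    rw [hinx, hfin1 0 rfl]
  have hG0 : Good Ω tb (x (Fin.castAdd m 0)) := by
    refine exists_good (Fin.castAdd m (0 : Fin (N + 1))) s w.RF tb x (pP Ω m σ) (pP_vars m σ) ?_
      (a := w.red (g (Fin.last (N + 2)) / g 0)) ?_ hM' ?_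
    · rw [hVe]
      exact hind.comp _ finSumFinEquiv.injective
    · rw [hx0, hVe]
      exact hred w hwc hUr
    · rw [hVe, ← hfr']
      have : Set.range (fun v => w.red (UU t g R (finSumFinEquiv v))) =
          Set.range fun j => w.red (UU t g R j) :=
        finSumFinEquiv.surjective.range_comp fun j => w.red (UU t g R j)
      rw [this]
  rw [hx0] at hG0
  obtain ⟨H, k, _, _, _, _, L, Γ, h, hL, hLalg, hmono, hcpos, hth⟩ := good_c (K := K) w
    (t := t) (c := algebraMap K E c) (a := g 1 / g 0) hwc ht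
    (by rw [← hfin1 0 rfl]; exact hx 0) hG0 (by
      intro y hy hyi
      refine hlast (s + 1) (Fin.cons y t) (fun j => ?_) ?_
      · refine Fin.cases ?_ (fun j => ?_) j
        · exact hy
        · exact ht _
      · have h2 : (fun j => w.red ((Fin.cons y t : Fin (s + 1) → E) j)) =
            Fin.cons (w.red y) (fun i => w.red (t i)) := by
          funext j
          refine Fin.cases ?_ (fun j => ?_) j
          · rfl
          · rfl
        rw [h2]
        exact hyi)
  have hc0 : algebraMap K E c ≠ 0 := by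
    intro h0
    rw [h0, w.ord_zero] at hwc
    exact lt_irrefl _ hwc
  have hg1 : g 1 / g 0 ≠ 0 := by
    intro h0
    apply hL.ncube
    rw [h0, L.ac_zero]
    exact ⟨0, by norm_num⟩
  have hg1' : g 1 ≠ 0 := fun h0 => hg1 (by rw [h0, zero_div])
  have hstart : L.NT (g 0) (g 1) := (nt_div L hg0 hg1').2 ⟨hL.v_zero, hL.ncube⟩
  have hchain : g ≠ 0 ∧ l ≠ 0 ∧ L.NT (l 0) (l 1) := by
    clear hl
    induction hch with
    | refl =>
      have : g ≠ 0 := fun h => hg0 (congrFun h 0)
      exact ⟨this, this, hstart⟩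
    | tail _ h' ih =>
      rename_i b l' _
      obtain ⟨hb0, hl0, d, Cc, hd, hC, ⟨a1, ha1, e1⟩, b1, hb1, e2⟩ := h'
      refine ⟨ih.1, hl0, ?_⟩
      have h5 := curve3 L hL.div hL.mem h hmono hL.const (t := t) (fun i => ⟨(hL.cube i).1, hth i⟩)
        (fun i => (hL.cube i).2) hL.indep hcpos hc0 hσ hT0 hTσ hG (Cc := Cc) hC hd (by
          rw [e1, e1]
          exact (nt_smul L ha1).2 ih.2.2) (by
          intro h0
          apply hl0
          funext i
          have h6 := congrFun h0 i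
          simp only [e2] at h6
          exact (mul_eq_zero.1 h6).resolve_left hb1)
      rw [e2, e2] at h5
      exact (nt_smul L hb1).1 h5
  obtain ⟨-, -, hend⟩ := hchain
  have hl0 := hend.1
  have hl1 := hend.2.1
  obtain ⟨h5, h6⟩ := (nt_div L hl0 hl1).1 hend
  exact h6 (hLalg _ (div_ne_zero hl1 hl0) (hl 1 0) h5)

end core

end

end Pool.Agent.H900.P3
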