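import Pool.Agent.H900.P3.A
set_option autoImplicit false
namespace Pool.Agent.H900.P3
open Polynomial

section aux

variable {H : Type} [AddCommGroup H] [LinearOrder H] [IsOrderedAddMonoid H]

theorem d_le1 (a b γ : H) (l d : ℕ) : a + l • γ ≤ b + (l + d) • γ ↔ a - b ≤ d • γ := by
  have e : b + (l + d) • γ = (b + d • γ) + l • γ := by rw [add_nsmul]; abel
  rw [e, add_le_add_iff_right, sub_le_iff_le_add']

theorem d_lt1 (a b γ : H) (l d : ℕ) : a + l • γ < b + (l + d) • γ ↔ a - b < d • γ := by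
  have e : b + (l + d) • γ = (b + d • γ) + l • γ := by rw [add_nsmul]; abel
  rw [e, add_lt_add_iff_right, sub_lt_iff_lt_add']

theorem d_le2 (a b γ : H) (l d : ℕ) : a + (l + d) • γ ≤ b + l • γ ↔ d • γ ≤ b - a := by
  have e : a + (l + d) • γ = (a + d • γ) + l • γ := by rw [add_nsmul]; abel
  rw [e, add_le_add_iff_right, le_sub_iff_add_le']

theorem d_lt2 (a b γ : H) (l d : ℕ) : a + (l + d) • γ < b + l • γ ↔ d • γ < b - a := by
  have e : a + (l + d) • γ = (a + d • γ) + l • γ := by rw [add_nsmul]; abel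
  rw [e, add_lt_add_iff_right, lt_sub_iff_add_lt']

theorem d_smul_lt {a b : H} (h : a < b) {n : ℕ} (hn : n ≠ 0) : n • a < n • b :=
  nsmul_right_strictMono hn h

theorem d_smul_le {a b : H} (h : a ≤ b) (n : ℕ) : n • a ≤ n • b :=
  nsmul_le_nsmul_right h n

theorem d_lt_of_smul_lt {a b : H} {n : ℕ} (h : n • a < n • b) : a < b := by
  by_contra hc
  exact absurd h (not_lt.2 (d_smul_le (not_lt.1 hc) n))

end aux

section vx

variable {E H k : Type} [Field E] [Field k] [AddCommGroup H] [LinearOrder H]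
    [IsOrderedAddMonoid H] (L : LTS E H k)

/-- `l` is a vertex of the Newton polygon, with the supporting line of slope `g0`. -/
def Vx (F : Bool → E[X]) (l : ℕ) (g0 : H) : Prop :=
  L.NT ((F true).coeff l) ((F false).coeff l) ∧ ∀ b l', (F b).coeff l' ≠ 0 →
    L.v ((F true).coeff l) + l • g0 ≤ L.v ((F b).coeff l') + l' • g0 ∧
    (l < l' → L.v ((F true).coeff l) + l • g0 < L.v ((F b).coeff l') + l' • g0)

theorem vx_next (hdiv : ∀ n : ℕ, n ≠ 0 → ∀ x : H, ∃ y, n • y = x)
    {Γ : AddSubgroup H} (hΓ : ∀ x : E, x ≠ 0 → L.v x ∈ Γ) {F : Bool → E[X]}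
    (hstep : ∀ (γ N : H) (e : ℕ), e ≠ 0 → e • γ ∈ Γ → L.PGe γ N (F true) → L.PGe γ N (F false) →
      L.psy γ N (F true) ≠ 0 → L.psy γ N (F false) ≠ 0 →
      (L.psy γ N (F true)).natTrailingDegree = (L.psy γ N (F false)).natTrailingDegree →
      ¬ Cb ((L.psy γ N (F true)).trailingCoeff * (L.psy γ N (F false)).trailingCoeff ^ 2) →
      (L.psy γ N (F true)).natDegree = (L.psy γ N (F false)).natDegree ∧
        ¬ Cb ((L.psy γ N (F true)).leadingCoeff * (L.psy γ N (F false)).leadingCoeff ^ 2))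
    {l : ℕ} {g0 : H} (h : Vx L F l g0) {b1 : Bool} {l1 : ℕ} (hl1 : l < l1)
    (hb1 : (F b1).coeff l1 ≠ 0) : ∃ l2 γ, l < l2 ∧ Vx L F l2 γ := by
  classical
  obtain ⟨⟨hf0, hg0, hv0, hn0⟩, hB⟩ := h
  have hFl : ∀ b, (F b).coeff l ≠ 0 ∧ L.v ((F b).coeff l) = L.v ((F true).coeff l) := by
    intro b
    cases b
    · exact ⟨hg0, hv0.symm⟩
    · exact ⟨hf0, rfl⟩
  set S : Finset (ℕ × Bool) := ((Finset.range (max (F true).natDegree (F false).natDegree + 1)) ×ˢ
    Finset.univ).filter (fun p => l < p.1 ∧ (F p.2).coeff p.1 ≠ 0) with hS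
  have hmemS : ∀ (b : Bool) (l' : ℕ), l < l' → (F b).coeff l' ≠ 0 → (l', b) ∈ S := by
    intro b l' hll hne
    rw [hS, Finset.mem_filter, Finset.mem_product, Finset.mem_range]
    refine ⟨⟨?_, Finset.mem_univ _⟩, hll, hne⟩
    have h1 := le_natDegree_of_ne_zero hne
    cases b
    · have := le_max_right (F true).natDegree (F false).natDegree
      simp only
      omega
    · have := le_max_left (F true).natDegree (F false).natDegree
      simp only
      omega
  have hex : ∀ p : ℕ × Bool, ∃ s : H, l < p.1 →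
      (p.1 - l) • s = L.v ((F true).coeff l) - L.v ((F p.2).coeff p.1) := by
    intro p
    by_cases hp : l < p.1
    · obtain ⟨s, hs⟩ := hdiv (p.1 - l) (by omega)
        (L.v ((F true).coeff l) - L.v ((F p.2).coeff p.1))
      exact ⟨s, fun _ => hs⟩
    · exact ⟨0, fun h' => absurd h' hp⟩
  choose s hs using hex
  obtain ⟨p0, hp0, hmax⟩ := S.exists_max_image s ⟨_, hmemS b1 l1 hl1 hb1⟩
  rw [hS, Finset.mem_filter] at hp0
  obtain ⟨-, hlp0, hnp0⟩ := hp0
  set γ : H := s p0 with hγ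
  -- the line of slope `γ`
  have hgt : ∀ (b : Bool) (l' : ℕ), l < l' → (F b).coeff l' ≠ 0 →
      L.v ((F true).coeff l) + l • γ ≤ L.v ((F b).coeff l') + l' • γ := by
    intro b l' hll hne
    obtain ⟨d, rfl⟩ : ∃ d, l' = l + d := ⟨l' - l, by omega⟩
    rw [d_le1]
    have h1 := hs (l + d, b) hll
    simp only [Nat.add_sub_cancel_left] at h1
    rw [← h1]
    exact d_smul_le (hmax _ (hmemS b _ hll hne)) d
  have hγg : γ < g0 := by
    have h1 := (hB p0.2 p0.1 hnp0).2 hlp0
    obtain ⟨d, hd⟩ : ∃ d, p0.1 = l + d := ⟨p0.1 - l, by omega⟩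
    have h2 := hs p0 hlp0
    rw [hd] at h1 h2
    rw [Nat.add_sub_cancel_left] at h2
    rw [d_lt1, ← h2] at h1
    exact d_lt_of_smul_lt h1
  have hlt : ∀ (b : Bool) (l' : ℕ), l' < l → (F b).coeff l' ≠ 0 →
      L.v ((F true).coeff l) + l • γ < L.v ((F b).coeff l') + l' • γ := by
    intro b l' hll hne
    have h1 := (hB b l' hne).1
    obtain ⟨d, hd⟩ : ∃ d, l = l' + d := ⟨l - l', by omega⟩
    rw [show l • γ = (l' + d) • γ by rw [← hd], d_lt2]
    rw [show l • g0 = (l' + d) • g0 by rw [← hd], d_le2] at h1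
    exact lt_of_lt_of_le (d_smul_lt hγg (by omega)) h1
  have hall : ∀ (b : Bool) (l' : ℕ), (F b).coeff l' ≠ 0 →
      L.v ((F true).coeff l) + l • γ ≤ L.v ((F b).coeff l') + l' • γ := by
    intro b l' hne
    rcases lt_trichotomy l' l with h1 | h1 | h1
    · exact (hlt b l' h1 hne).le
    · rw [h1, (hFl b).2]
    · exact hgt b l' h1 hne
  set N : H := L.v ((F true).coeff l) + l • γ with hN
  have hP : ∀ b, L.PGe γ N (F b) := by
    intro b j
    by_cases hj : (F b).coeff j = 0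
    · exact Or.inl hj
    · right
      rw [sub_le_iff_le_add]
      exact hall b j hj
  have hlow : ∀ (b : Bool) (j : ℕ), j < l → (L.psy γ N (F b)).coeff j = 0 := by
    intro b j hj
    rw [LTS.coeff_psy]
    by_cases hz : (F b).coeff j = 0
    · rw [hz, LTS.sy_zero]
    · apply LTS.sy_of_ne
      intro he
      have h1 := hlt b j hj hz
      rw [he, sub_add_cancel] at h1
      exact lt_irrefl _ h1
  have hat : ∀ b : Bool, (L.psy γ N (F b)).coeff l = L.ac ((F b).coeff l) := by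
    intro b
    rw [LTS.coeff_psy]
    apply LTS.sy_def L _ (hFl b).1
    rw [(hFl b).2, hN, add_sub_cancel_right]
  have hacne : ∀ b : Bool, L.ac ((F b).coeff l) ≠ 0 := fun b => L.ac_ne _ (hFl b).1
  have hpne : ∀ b : Bool, L.psy γ N (F b) ≠ 0 := by
    intro b h0
    apply hacne b
    rw [← hat b, h0, coeff_zero]
  have htd : ∀ b : Bool, (L.psy γ N (F b)).natTrailingDegree = l := by
    intro b
    apply le_antisymm
    · exact natTrailingDegree_le_of_ne_zero (by rw [hat]; exact hacne b)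
    · by_contra hc
      have h1 : (L.psy γ N (F b)).coeff (L.psy γ N (F b)).natTrailingDegree ≠ 0 :=
        trailingCoeff_nonzero_iff_nonzero.2 (hpne b)
      exact h1 (hlow b _ (not_le.1 hc))
  have htc : ∀ b : Bool, (L.psy γ N (F b)).trailingCoeff = L.ac ((F b).coeff l) := by
    intro b
    rw [trailingCoeff, htd, hat]
  have heΓ : (p0.1 - l) • γ ∈ Γ := by
    rw [hs p0 hlp0]
    exact Γ.sub_mem (hΓ _ hf0) (hΓ _ hnp0)
  obtain ⟨hd1, hd2⟩ := hstep γ N (p0.1 - l) (by omega) heΓ (hP true) (hP false) (hpne true)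
    (hpne false) (by rw [htd, htd]) (by rw [htc, htc]; exact hn0)
  set l2 : ℕ := (L.psy γ N (F true)).natDegree with hl2
  have hle2 : ∀ b : Bool, (L.psy γ N (F b)).natDegree = l2 := by
    intro b
    cases b
    · exact hd1.symm
    · rfl
  have htop : ∀ b : Bool, (L.psy γ N (F b)).coeff l2 ≠ 0 := by
    intro b
    have h1 := leadingCoeff_ne_zero.2 (hpne b)
    rwa [leadingCoeff, hle2] at h1
  have hsy : ∀ b : Bool, (F b).coeff l2 ≠ 0 ∧ L.v ((F b).coeff l2) = N - l2 • γ ∧
      (L.psy γ N (F b)).leadingCoeff = L.ac ((F b).coeff l2) := by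
    intro b
    have h1 := htop b
    rw [LTS.coeff_psy] at h1
    obtain ⟨h2, h3, h4⟩ := L.sy_ne h1
    refine ⟨h2, h3, ?_⟩
    rw [leadingCoeff, hle2, LTS.coeff_psy]
    exact h4
  have hstar : (L.psy γ N (F p0.2)).coeff p0.1 ≠ 0 := by
    rw [LTS.coeff_psy]
    rw [LTS.sy_def L _ hnp0]
    · exact L.ac_ne _ hnp0
    · obtain ⟨d, hd⟩ : ∃ d, p0.1 = l + d := ⟨p0.1 - l, by omega⟩
      have h2 := hs p0 hlp0
      rw [hd, Nat.add_sub_cancel_left] at h2
      rw [hN, hd, add_nsmul, ← hγ.symm.symm] at *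
      have h3 : d • γ = L.v ((F true).coeff l) - L.v ((F p0.2).coeff (l + d)) := h2
      rw [h3]
      abel
  have hl12 : p0.1 ≤ l2 := by
    rw [← hle2 p0.2]
    exact le_natDegree_of_ne_zero hstar
  refine ⟨l2, γ, by omega, ⟨(hsy true).1, (hsy false).1, ?_, ?_⟩, ?_⟩
  · rw [(hsy true).2.1, (hsy false).2.1]
  · rw [← (hsy true).2.2, ← (hsy false).2.2]
    exact hd2
  · intro b l' hne
    have h1 : L.v ((F true).coeff l2) + l2 • γ = N := by
      rw [(hsy true).2.1, sub_add_cancel]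
    rw [h1]
    refine ⟨hall b l' hne, fun hl' => lt_of_le_of_ne (hall b l' hne) ?_⟩
    intro he
    have h2 : (L.psy γ N (F b)).coeff l' = 0 := by
      apply coeff_eq_zero_of_natDegree_lt
      rw [hle2]
      exact hl'
    rw [LTS.coeff_psy, LTS.sy_def L _ hne] at h2
    · exact L.ac_ne _ hne h2
    · rw [he, add_sub_cancel_right]

theorem vx_start (hpos : ∃ x : H, 0 < x) {F : Bool → E[X]}
    (h0 : L.NT ((F true).coeff 0) ((F false).coeff 0)) : ∃ g0, Vx L F 0 g0 := by
  classical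
  obtain ⟨x0, hx0⟩ := hpos
  set Z : ℕ × Bool → H := fun p => |L.v ((F true).coeff 0) - L.v ((F p.2).coeff p.1)| with hZ
  set S : Finset (ℕ × Bool) := ((Finset.range (max (F true).natDegree (F false).natDegree + 1)) ×ˢ
    Finset.univ) with hS
  set g0 : H := x0 + ∑ p ∈ S, Z p with hg0
  have hsum : 0 ≤ ∑ p ∈ S, Z p := Finset.sum_nonneg fun p _ => abs_nonneg _
  have hg0p : 0 ≤ g0 := add_nonneg hx0.le hsum
  have hkey : ∀ (b : Bool) (l' : ℕ), 0 < l' → (F b).coeff l' ≠ 0 →
      L.v ((F true).coeff 0) + 0 • g0 < L.v ((F b).coeff l') + l' • g0 := by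
    intro b l' hl' hne
    have hmem : (l', b) ∈ S := by
      rw [hS, Finset.mem_product, Finset.mem_range]
      refine ⟨?_, Finset.mem_univ _⟩
      have h1 := le_natDegree_of_ne_zero hne
      cases b
      · have := le_max_right (F true).natDegree (F false).natDegree
        simp only
        omega
      · have := le_max_left (F true).natDegree (F false).natDegree
        simp only
        omega
    have h1 : Z (l', b) ≤ ∑ p ∈ S, Z p :=
      Finset.single_le_sum (f := Z) (fun p _ => abs_nonneg _) hmem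
    have h2 : L.v ((F true).coeff 0) - L.v ((F b).coeff l') ≤ Z (l', b) := le_abs_self _
    have h3 : L.v ((F true).coeff 0) - L.v ((F b).coeff l') < g0 := by
      refine lt_of_le_of_lt (h2.trans h1) ?_
      rw [hg0]
      exact lt_add_of_pos_left _ hx0
    have h4 : g0 ≤ l' • g0 := by
      have := nsmul_le_nsmul_left hg0p hl'
      rwa [Nat.succ_eq_add_one, zero_add, one_nsmul] at this
    have h5 := d_lt1 (L.v ((F true).coeff 0)) (L.v ((F b).coeff l')) g0 0 l'
    rw [zero_add] at h5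
    exact h5.2 (lt_of_lt_of_le h3 h4)
  refine ⟨g0, h0, fun b l' hne => ?_⟩
  rcases Nat.eq_zero_or_pos l' with rfl | hl'
  · refine ⟨?_, fun h => absurd h (lt_irrefl _)⟩
    cases b
    · rw [h0.2.2.1]
    · exact le_rfl
  · exact ⟨(hkey b l' hl' hne).le, fun _ => hkey b l' hl' hne⟩

end vx

/-- (D) Newton polygons -/
theorem newton3 {E H k : Type} [Field E] [Field k] [AddCommGroup H] [LinearOrder H]
    [IsOrderedAddMonoid H] (L : LTS E H k) (hdiv : ∀ n : ℕ, n ≠ 0 → ∀ x : H, ∃ y, n • y = x)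
    (hpos : ∃ x : H, 0 < x) {Γ : AddSubgroup H} (hΓ : ∀ x : E, x ≠ 0 → L.v x ∈ Γ) {f g : E[X]}
    (hstep : ∀ (γ N : H) (e : ℕ), e ≠ 0 → e • γ ∈ Γ → L.PGe γ N f → L.PGe γ N g →
      L.psy γ N f ≠ 0 → L.psy γ N g ≠ 0 →
      (L.psy γ N f).natTrailingDegree = (L.psy γ N g).natTrailingDegree →
      ¬ Cb ((L.psy γ N f).trailingCoeff * (L.psy γ N g).trailingCoeff ^ 2) →
      (L.psy γ N f).natDegree = (L.psy γ N g).natDegree ∧
        ¬ Cb ((L.psy γ N f).leadingCoeff * (L.psy γ N g).leadingCoeff ^ 2))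
    (h0 : L.NT (f.coeff 0) (g.coeff 0)) :
    f.natDegree = g.natDegree ∧ L.NT f.leadingCoeff g.leadingCoeff := by
  set F : Bool → E[X] := fun b => cond b f g with hF
  have hmain : ∀ n l : ℕ, max f.natDegree g.natDegree - l = n → (∃ g0, Vx L F l g0) →
      f.natDegree = g.natDegree ∧ L.NT f.leadingCoeff g.leadingCoeff := by
    intro n
    induction n using Nat.strong_induction_on with
    | _ n ih =>
    rintro l hn ⟨g0, hV⟩
    have hlf : l ≤ f.natDegree := le_natDegree_of_ne_zero hV.1.1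
    have hlg : l ≤ g.natDegree := le_natDegree_of_ne_zero hV.1.2.1
    by_cases hex : ∃ (b1 : Bool) (l1 : ℕ), l < l1 ∧ (F b1).coeff l1 ≠ 0
    · obtain ⟨b1, l1, hl1, hb1⟩ := hex
      obtain ⟨l2, γ, hl2, hV2⟩ := vx_next L hdiv hΓ (F := F) hstep hV hl1 hb1
      have hlf2 : l2 ≤ f.natDegree := le_natDegree_of_ne_zero hV2.1.1
      have hm := le_max_left f.natDegree g.natDegree
      exact ih (max f.natDegree g.natDegree - l2) (by omega) l2 rfl ⟨γ, hV2⟩
    · push Not at hex
      have hf : f.natDegree = l := by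
        refine le_antisymm (natDegree_le_iff_coeff_eq_zero.2 fun N hN => hex true N hN) hlf
      have hg : g.natDegree = l := by
        refine le_antisymm (natDegree_le_iff_coeff_eq_zero.2 fun N hN => hex false N hN) hlg
      refine ⟨hf.trans hg.symm, ?_⟩
      have h1 := hV.1
      rw [leadingCoeff, leadingCoeff, hf, hg]
      exact h1
  exact hmain _ 0 rfl (vx_start L hpos h0)
end Pool.Agent.H900.P3
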