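import Pool.Agent.H900.P3.A
set_option autoImplicit false
namespace Pool.Agent.H900.P3
open Polynomial
open Pool.Agent.H900.PN (fv)

namespace DomAux

variable {E H k : Type} [Field E] [Field k] [AddCommGroup H] [LinearOrder H]
    [IsOrderedAddMonoid H] (L : LTS E H k)

theorem pge_one (γ : H) : L.PGe γ 0 1 := by
  have h := (L.pge_C (γ := γ) (N := 0) (a := 1) (Or.inr (le_of_eq L.v_one.symm))).1
  rwa [map_one] at h

theorem pge_prod {γ : H} {J : Type} (s : Finset J) {N : J → H} {f : J → E[X]}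
    (h : ∀ j ∈ s, L.PGe γ (N j) (f j)) : L.PGe γ (∑ j ∈ s, N j) (∏ j ∈ s, f j) := by
  classical
  induction s using Finset.induction_on with
  | empty =>
    rw [Finset.sum_empty, Finset.prod_empty]
    exact pge_one L γ
  | insert a s ha ih =>
    rw [Finset.sum_insert ha, Finset.prod_insert ha]
    exact (L.pge_mul (h a (Finset.mem_insert_self a s))
      (ih fun j hj => h j (Finset.mem_insert_of_mem hj))).1

theorem pge_pow {γ N : H} {f : E[X]} (h : L.PGe γ N f) (n : ℕ) :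
    L.PGe γ (n • N) (f ^ n) := by
  induction n with
  | zero =>
    rw [zero_smul, pow_zero]
    exact pge_one L γ
  | succ n ih =>
    rw [succ_nsmul, pow_succ]
    exact (L.pge_mul ih h).1

/-- the set of the polynomials which do not matter is closed under sums -/
theorem small_sum {γ M : H} {J : Type} (s : Finset J) {f : J → E[X]}
    (h : ∀ j ∈ s, L.PGe γ M (f j) ∧ L.psy γ M (f j) = 0) :
    L.PGe γ M (∑ j ∈ s, f j) ∧ L.psy γ M (∑ j ∈ s, f j) = 0 := by
  obtain ⟨h1, h2⟩ := L.pge_sum s fun j hj => (h j hj).1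
  exact ⟨h1, h2.trans (Finset.sum_eq_zero fun j hj => (h j hj).2)⟩

theorem small_lt {γ M N : H} {f : E[X]} (h : M < N) (hf : L.PGe γ N f) :
    L.PGe γ M f ∧ L.psy γ M f = 0 := ⟨L.pge_le h.le hf, L.psy_lt h hf⟩

end DomAux

/-- (E) the terms with the coefficient `c` do not matter -/
theorem dom {Ω E H k : Type} [Field Ω] [Field E] [Algebra Ω E] [Field k] [AddCommGroup H]
    [LinearOrder H] [IsOrderedAddMonoid H] (L : LTS E H k) (h : H →+ ℚ) (hmono : Monotone h)
    (hconst : ∀ a : Ω, a ≠ 0 → L.v (algebraMap Ω E a) = 0) {ι : Type} (T : Finset (Finset ι))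
    {t : ι → E} (ht : ∀ i, t i ≠ 0 ∧ h (L.v (t i)) = 0) {c : E} (hc0 : c ≠ 0)
    (hc : 0 < h (L.v c)) {r : ℕ} {G : Finset ι → MvPolynomial (Fin r) Ω}
    (hG : ∀ τ ∈ T, (G τ).IsHomogeneous 3) {γ M : H} {y : Fin r → E[X]}
    (hy : ∀ i, y i = 0 ∨ ∃ l, L.PGe γ l (y i) ∧ h M ≤ 3 * h l) :
    L.PGe γ M (C c * fv T (fun i => C (t i)) G y) ∧
      L.psy γ M (C c * fv T (fun i => C (t i)) G y) = 0 := by
  have hy' : ∀ i, ∃ l, L.PGe γ l (y i) ∧ h M ≤ 3 * h l := by
    intro i
    rcases hy i with h0 | h1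
    · rw [h0]
      rcases le_total (h M) 0 with h2 | h2
      · exact ⟨0, L.pge_zero γ 0, by rw [map_zero]; linarith⟩
      · exact ⟨M, L.pge_zero γ M, by linarith⟩
    · exact h1
  choose l hl hM using hy'
  unfold fv
  rw [Finset.mul_sum]
  refine DomAux.small_sum L T fun τ hτ => ?_
  have hGτ := hG τ hτ
  rw [MvPolynomial.aeval_def, MvPolynomial.eval₂_eq, Finset.mul_sum, Finset.mul_sum]
  refine DomAux.small_sum L _ fun m hm => ?_
  have hm3 : ∑ i ∈ m.support, m i = 3 := by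
    have := hGτ (MvPolynomial.mem_support_iff.1 hm)
    rw [Finsupp.weight_apply] at this
    simpa [Finsupp.sum] using this
  have h1 : L.PGe γ (L.v c) (C c) := (L.pge_C (Or.inr le_rfl)).1
  have h2 : L.PGe γ (∑ i ∈ τ, L.v (t i)) (∏ i ∈ τ, C (t i)) :=
    DomAux.pge_prod L τ fun i _ => (L.pge_C (Or.inr le_rfl)).1
  have h3 : L.PGe γ 0 (algebraMap Ω E[X] ((G τ).coeff m)) := by
    rw [Polynomial.algebraMap_apply]
    refine (L.pge_C ?_).1
    by_cases h0 : (G τ).coeff m = 0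
    · left
      rw [h0, map_zero]
    · right
      rw [hconst _ h0]
  have h4 : L.PGe γ (∑ i ∈ m.support, m i • l i) (∏ i ∈ m.support, y i ^ m i) :=
    DomAux.pge_prod L m.support fun i _ => DomAux.pge_pow L (hl i) (m i)
  have h5 := (L.pge_mul h1 (L.pge_mul h2 (L.pge_mul h3 h4).1).1).1
  refine DomAux.small_lt L ?_ h5
  by_contra hlt
  have h6 := hmono (not_lt.1 hlt)
  have h7 : h (∑ i ∈ τ, L.v (t i)) = 0 := by
    rw [map_sum]
    exact Finset.sum_eq_zero fun i _ => (ht i).2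
  have h8 : h (∑ i ∈ m.support, m i • l i) = ∑ i ∈ m.support, (m i : ℚ) * h (l i) := by
    rw [map_sum]
    refine Finset.sum_congr rfl fun i _ => ?_
    rw [map_nsmul, nsmul_eq_mul]
  have h9 : h M = ∑ i ∈ m.support, (m i : ℚ) * (h M / 3) := by
    rw [← Finset.sum_mul, ← Nat.cast_sum, hm3]
    push_cast
    ring
  have h10 : ∑ i ∈ m.support, (m i : ℚ) * (h M / 3) ≤ ∑ i ∈ m.support, (m i : ℚ) * h (l i) := by
    refine Finset.sum_le_sum fun i _ => ?_
    refine mul_le_mul_of_nonneg_left ?_ (Nat.cast_nonneg _)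
    have := hM i
    linarith
  rw [map_add, map_add, map_add, h7, h8, map_zero] at h6
  linarith

end Pool.Agent.H900.P3
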