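import Pool.Agent.H900.P3.Ph
import Pool.Agent.H900.P3.C1
import Pool.Agent.H900.P3.C2
import Pool.Agent.H900.P3.D
import Pool.Agent.H900.P3.E

/-! # Curves on the very general member -/

set_option autoImplicit false
set_option linter.unusedSectionVars false
set_option linter.unusedVariables false

namespace Pool.Agent.H900.P3

open Polynomial
open Pool.Agent.H900.PN (fv)

noncomputable section

section cap

variable {E H k : Type} [Field E] [Field k] [AddCommGroup H] [LinearOrder H]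
    [IsOrderedAddMonoid H] (L : LTS E H k)

theorem cap_of {Γ : AddSubgroup H} (hΓ : ∀ x : E, x ≠ 0 → L.v x ∈ Γ) {s n : ℕ} {t : Fin s → E}
    (ht : ∀ i, t i ≠ 0)
    (hi : ∀ m : Fin s → ℤ, (∃ x ∈ Γ, ∑ i, m i • L.v (t i) = 3 • x) → ∀ i, (3 : ℤ) ∣ m i)
    {σ : Fin n → Finset (Fin s)} (hσ : Function.Injective σ) :
    Cap Γ fun j => L.v (∏ i ∈ σ j, t i) := by
  classical
  have hp : ∀ j, ∏ i ∈ σ j, t i ≠ 0 := fun j => Finset.prod_ne_zero_iff.2 fun i _ => ht i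
  have hv : ∀ j, L.v (∏ i ∈ σ j, t i) = ∑ i, (if i ∈ σ j then (1 : ℤ) else 0) • L.v (t i) := by
    intro j
    have h1 : ∀ i, (if i ∈ σ j then (1 : ℤ) else 0) • L.v (t i) =
        if i ∈ σ j then L.v (t i) else 0 := by
      intro i
      split_ifs
      · exact one_smul _ _
      · exact zero_smul _ _
    rw [L.v_prod _ fun i _ => ht i, Finset.sum_congr rfl fun i _ => h1 i, Finset.sum_ite_mem,
      Finset.univ_inter]
  refine ⟨fun j => hΓ _ (hp j), fun i j hij x hx h => ?_, fun i j l hij hil hjl x hx h => ?_⟩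
  · apply hij
    apply hσ
    have h1 := hi (fun a => (if a ∈ σ i then (1 : ℤ) else 0) - (if a ∈ σ j then (1 : ℤ) else 0))
      ⟨x, hx, by
        rw [← h]
        beta_reduce
        rw [hv, hv, ← Finset.sum_sub_distrib]
        exact Finset.sum_congr rfl fun a _ => sub_smul _ _ _⟩
    ext a
    have h2 := h1 a
    by_cases h3 : a ∈ σ i <;> by_cases h4 : a ∈ σ j
    · exact ⟨fun _ => h4, fun _ => h3⟩
    · rw [if_pos h3, if_neg h4] at h2
      omega
    · rw [if_neg h3, if_pos h4] at h2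
      omega
    · exact ⟨fun h => absurd h h3, fun h => absurd h h4⟩
  · apply hij
    apply hσ
    have h1 := hi (fun a => 2 * (if a ∈ σ i then (1 : ℤ) else 0) -
      (if a ∈ σ j then (1 : ℤ) else 0) - (if a ∈ σ l then (1 : ℤ) else 0))
      ⟨x, hx, by
        rw [← h]
        beta_reduce
        rw [hv, hv, hv, Finset.smul_sum, ← Finset.sum_sub_distrib, ← Finset.sum_sub_distrib]
        refine Finset.sum_congr rfl fun a _ => ?_
        rw [sub_smul, sub_smul, mul_smul, two_zsmul, two_nsmul]⟩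
    ext a
    have h2 := h1 a
    by_cases h3 : a ∈ σ i <;> by_cases h4 : a ∈ σ j <;> by_cases h5 : a ∈ σ l <;>
      simp only [h3, h4, h5, if_true, if_false] at h2 ⊢ <;> omega

end cap

section lev

variable {Ω E H k : Type} [Field Ω] [Field E] [Algebra Ω E] [Field k] [AddCommGroup H]
    [LinearOrder H] [IsOrderedAddMonoid H] (L : LTS E H k) {Γ : AddSubgroup H}
    (hΓ : ∀ x : E, x ≠ 0 → L.v x ∈ Γ) (h : H →+ ℚ) (hmono : Monotone h)
    (hconst : ∀ a : Ω, a ≠ 0 → L.v (algebraMap Ω E a) = 0) {s n : ℕ} {t : Fin s → E}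
    (ht : ∀ i, t i ≠ 0 ∧ h (L.v (t i)) = 0) {c : E} (hc0 : c ≠ 0) (hc : 0 < h (L.v c))
    {σ : Fin n → Finset (Fin s)} {T : Finset (Finset (Fin s))} (hT0 : ∅ ∈ T)
    (hTσ : ∀ j, σ j ∈ T) {G : Finset (Fin s) → MvPolynomial (Fin (n + 2)) Ω}
    (hG : ∀ τ ∈ T, (G τ).IsHomogeneous 3) {Cc : Fin (n + 2) → E[X]}
    (hC : fv T (fun i => C (t i)) (Ph Ω σ) Cc + C c * fv T (fun i => C (t i)) G Cc = 0)

/-- the initial forms of level `μ` -/
def Bj (α : Fin n → H) (γ μ : H) (t : Fin s → E) (σ : Fin n → Finset (Fin s))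
    (Cc : Fin (n + 2) → E[X]) (j : Fin n) : k[X] :=
  open Classical in
  if Cc j.succ.succ ≠ 0 ∧ L.v (∏ i ∈ σ j, t i) + 3 • α j = μ then
    L.psy γ (α j) (Cc j.succ.succ) else 0

include hΓ hmono hconst ht hc0 hc hT0 hTσ hG hC

theorem level {γ ν μ : H} {α : Fin n → H} (hν0 : L.PGe γ ν (Cc 0)) (hν1 : L.PGe γ ν (Cc 1))
    (hμ : μ ≤ 3 • ν) (hα : ∀ j : Fin n, Cc j.succ.succ ≠ 0 → L.PGe γ (α j) (Cc j.succ.succ) ∧
      L.psy γ (α j) (Cc j.succ.succ) ≠ 0 ∧ μ ≤ L.v (∏ i ∈ σ j, t i) + 3 • α j) :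
    L.psy γ μ (Cc 0 * Cc 1 * (Cc 0 + Cc 1)) =
      ∑ j, C (L.ac (∏ i ∈ σ j, t i)) * Bj L α γ μ t σ Cc j ^ 3 ∧
    Lev Γ γ μ (fun j => L.v (∏ i ∈ σ j, t i)) (Bj L α γ μ t σ Cc) := by
  classical
  have hp : ∀ j, ∏ i ∈ σ j, t i ≠ 0 := fun j => Finset.prod_ne_zero_iff.2 fun i _ => (ht i).1
  have hβ : ∀ j, h (L.v (∏ i ∈ σ j, t i)) = 0 := by
    intro j
    rw [L.v_prod _ fun i _ => (ht i).1, map_sum]
    exact Finset.sum_eq_zero fun i _ => (ht i).2
  -- the special terms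
  have hY : L.PGe γ μ (Cc 0 * Cc 1 * (Cc 0 + Cc 1)) := by
    refine L.pge_le hμ ?_
    have h1 := (L.pge_mul (L.pge_mul hν0 hν1).1 (L.pge_add hν0 hν1).1).1
    rw [show (3 : ℕ) • ν = ν + ν + ν by rw [succ_nsmul, two_nsmul]]
    exact h1
  have hterm : ∀ j, L.PGe γ μ (C (∏ i ∈ σ j, t i) * Cc j.succ.succ ^ 3) ∧
      L.psy γ μ (C (∏ i ∈ σ j, t i) * Cc j.succ.succ ^ 3) =
        C (L.ac (∏ i ∈ σ j, t i)) * Bj L α γ μ t σ Cc j ^ 3 := by
    intro j
    by_cases hj : Cc j.succ.succ = 0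
    · have h1 : Bj L α γ μ t σ Cc j = 0 := if_neg fun h => h.1 hj
      rw [hj, h1, zero_pow (by norm_num), zero_pow (by norm_num), mul_zero, mul_zero]
      exact ⟨L.pge_zero _ _, L.psy_zero _ _⟩
    obtain ⟨h1, h2, h3⟩ := hα j hj
    have h4 := L.pge_mul (L.pge_mul h1 h1).1 h1
    have h5 := L.pge_C (γ := γ) (N := L.v (∏ i ∈ σ j, t i)) (a := ∏ i ∈ σ j, t i) (Or.inr le_rfl)
    have h6 := L.pge_mul h5.1 h4.1
    have e1 : L.v (∏ i ∈ σ j, t i) + (α j + α j + α j) = L.v (∏ i ∈ σ j, t i) + 3 • α j := by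
      rw [show (3 : ℕ) • α j = α j + α j + α j by rw [succ_nsmul, two_nsmul]]
    have e2 : C (∏ i ∈ σ j, t i) * (Cc j.succ.succ * Cc j.succ.succ * Cc j.succ.succ) =
        C (∏ i ∈ σ j, t i) * Cc j.succ.succ ^ 3 := by ring
    rw [e1, e2] at h6
    refine ⟨L.pge_le h3 h6.1, ?_⟩
    by_cases h7 : L.v (∏ i ∈ σ j, t i) + 3 • α j = μ
    · have h8 : Bj L α γ μ t σ Cc j = L.psy γ (α j) (Cc j.succ.succ) := if_pos ⟨hj, h7⟩
      rw [h8, ← h7, h6.2, h5.2, h4.2, (L.pge_mul h1 h1).2, L.sy_def _ (hp j) rfl]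
      ring
    · have h8 : Bj L α γ μ t σ Cc j = 0 := if_neg fun h => h7 h.2
      rw [h8, zero_pow (by norm_num), mul_zero]
      exact L.psy_lt (lt_of_le_of_ne h3 (Ne.symm h7)) h6.1
  have hS := L.pge_sum Finset.univ fun j _ => (hterm j).1
  rw [Finset.sum_congr rfl fun j _ => (hterm j).2] at hS
  -- the other terms
  have hD := dom L h hmono hconst T ht hc0 hc hG (γ := γ) (M := μ) (y := Cc) (by
    intro i
    refine Fin.cases ?_ (fun i => Fin.cases ?_ (fun j => ?_) i) i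
    · refine Or.inr ⟨ν, hν0, ?_⟩
      have := hmono hμ
      rw [map_nsmul, nsmul_eq_mul] at this
      exact_mod_cast this
    · refine Or.inr ⟨ν, hν1, ?_⟩
      have := hmono hμ
      rw [map_nsmul, nsmul_eq_mul] at this
      exact_mod_cast this
    · by_cases hj : Cc j.succ.succ = 0
      · exact Or.inl hj
      · refine Or.inr ⟨α j, (hα j hj).1, ?_⟩
        have := hmono (hα j hj).2.2
        rw [map_add, hβ, zero_add, map_nsmul, nsmul_eq_mul] at this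
        exact_mod_cast this)
  refine ⟨?_, ?_⟩
  · have e1 : Cc 0 * Cc 1 * (Cc 0 + Cc 1) + C c * fv T (fun i => C (t i)) G Cc =
        ∑ j : Fin n, C (∏ i ∈ σ j, t i) * Cc j.succ.succ ^ 3 := by
      rw [fv_ph hT0 hTσ] at hC
      unfold spq at hC
      have e2 : ∑ j : Fin n, (∏ i ∈ σ j, C (t i)) * Cc j.succ.succ ^ 3 =
          ∑ j : Fin n, C (∏ i ∈ σ j, t i) * Cc j.succ.succ ^ 3 := by
        refine Finset.sum_congr rfl fun j _ => ?_
        rw [map_prod]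
      rw [← e2]
      linear_combination hC
    have h1 := (L.pge_add hY hD.1).2
    rw [e1, hS.2, hD.2, add_zero] at h1
    exact h1.symm
  · intro j hj
    have h1 : Cc j.succ.succ ≠ 0 ∧ L.v (∏ i ∈ σ j, t i) + 3 • α j = μ := by
      by_contra hcon
      exact hj (if_neg hcon)
    refine ⟨α j, h1.2, fun i hi => ?_⟩
    have h2 : Bj L α γ μ t σ Cc j = L.psy γ (α j) (Cc j.succ.succ) := if_pos h1
    rw [h2, mem_support_iff, LTS.coeff_psy] at hi
    obtain ⟨h3, h4, -⟩ := L.sy_ne hi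
    rw [← h4]
    exact hΓ _ h3

theorem loc1 (hcap : Cap Γ fun j => L.v (∏ i ∈ σ j, t i)) {γ ν : H}
    (hν0 : L.PGe γ ν (Cc 0)) (hν1 : L.PGe γ ν (Cc 1)) {α : Fin n → H}
    (hα : ∀ j : Fin n, Cc j.succ.succ ≠ 0 → L.PGe γ (α j) (Cc j.succ.succ) ∧
      L.psy γ (α j) (Cc j.succ.succ) ≠ 0) (j : Fin n) (hj : Cc j.succ.succ ≠ 0) :
    3 • ν ≤ L.v (∏ i ∈ σ j, t i) + 3 • α j := by
  classical
  by_contra hcon
  have hcon' := not_le.1 hcon
  obtain ⟨j1, hj1, hmin⟩ := Finset.exists_min_image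
    (Finset.univ.filter fun j : Fin n => Cc j.succ.succ ≠ 0)
    (fun j => L.v (∏ i ∈ σ j, t i) + 3 • α j) ⟨j, by simp [hj]⟩
  have hj1' : Cc j1.succ.succ ≠ 0 := (Finset.mem_filter.1 hj1).2
  set μ := L.v (∏ i ∈ σ j1, t i) + 3 • α j1 with hμ
  have hμν : μ < 3 • ν := lt_of_le_of_lt (hmin j (by simp [hj])) hcon'
  obtain ⟨h1, h2⟩ := level L hΓ h hmono hconst ht hc0 hc hT0 hTσ hG hC hν0 hν1 hμν.le
    (α := α) fun j' hj' => ⟨(hα j' hj').1, (hα j' hj').2, hmin j' (by simp [hj'])⟩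
  have h3 : L.psy γ μ (Cc 0 * Cc 1 * (Cc 0 + Cc 1)) = 0 := by
    refine L.psy_lt hμν ?_
    have h1 := (L.pge_mul (L.pge_mul hν0 hν1).1 (L.pge_add hν0 hν1).1).1
    rw [show (3 : ℕ) • ν = ν + ν + ν by rw [succ_nsmul, two_nsmul]]
    exact h1
  rw [h3] at h1
  refine sum_ne hcap h2 (c := fun j => L.ac (∏ i ∈ σ j, t i)) (fun j => L.ac_ne _
    (Finset.prod_ne_zero_iff.2 fun i _ => (ht i).1)) ⟨j1, ?_⟩ h1.symm
  have h4 : Bj L α γ μ t σ Cc j1 = L.psy γ (α j1) (Cc j1.succ.succ) := if_pos ⟨hj1', rfl⟩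
  rw [h4]
  exact (hα j1 hj1').2

end lev

theorem cb_neg {k : Type} [Field k] (x : k) : Cb (-x * x ^ 2) := ⟨-x, by ring⟩

theorem cb_mul {k : Type} [Field k] {x y : k} (hx : Cb x) (hy : Cb y) : Cb (x * y) := by
  obtain ⟨a, rfl⟩ := hx
  obtain ⟨b, rfl⟩ := hy
  exact ⟨a * b, by ring⟩

theorem cb_prod {k J : Type} [Field k] (s : Finset J) {f : J → k} (h : ∀ j ∈ s, Cb (f j)) :
    Cb (∏ j ∈ s, f j) := by
  classical
  induction s using Finset.induction_on with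
  | empty => exact ⟨1, by rw [Finset.prod_empty, one_pow]⟩
  | insert a s ha ih =>
    rw [Finset.prod_insert ha]
    exact cb_mul (h a (Finset.mem_insert_self a s))
      (ih fun j hj => h j (Finset.mem_insert_of_mem hj))

/-- **Nontrivial classes are constant along rational curves.** -/
theorem curve3 {Ω E H k : Type} [Field Ω] [Field E] [Algebra Ω E] [Field k] [AddCommGroup H]
    [LinearOrder H] [IsOrderedAddMonoid H] (L : LTS E H k) {Γ : AddSubgroup H}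
    (hdiv : ∀ n : ℕ, n ≠ 0 → ∀ x : H, ∃ y, n • y = x)
    (hΓ : ∀ x : E, x ≠ 0 → L.v x ∈ Γ) (h : H →+ ℚ) (hmono : Monotone h)
    (hconst : ∀ a : Ω, a ≠ 0 → L.v (algebraMap Ω E a) = 0) {s n : ℕ} {t : Fin s → E}
    (ht : ∀ i, t i ≠ 0 ∧ h (L.v (t i)) = 0) (htc : ∀ i, Cb (L.ac (t i)))
    (hi : ∀ m : Fin s → ℤ, (∃ x ∈ Γ, ∑ i, m i • L.v (t i) = 3 • x) → ∀ i, (3 : ℤ) ∣ m i)
    {c : E} (hc : 0 < h (L.v c)) (hc0 : c ≠ 0)
    {σ : Fin n → Finset (Fin s)} (hσ : Function.Injective σ) {T : Finset (Finset (Fin s))}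
    (hT0 : ∅ ∈ T)
    (hTσ : ∀ j, σ j ∈ T) {G : Finset (Fin s) → MvPolynomial (Fin (n + 2)) Ω}
    (hG : ∀ τ ∈ T, (G τ).IsHomogeneous 3) {Cc : Fin (n + 2) → E[X]}
    (hC : fv T (fun i => C (t i)) (Ph Ω σ) Cc + C c * fv T (fun i => C (t i)) G Cc = 0)
    {d : ℕ} (hd : ∀ i, (Cc i).natDegree ≤ d) (h0 : L.NT ((Cc 0).coeff 0) ((Cc 1).coeff 0))
    (hld : (fun i => (Cc i).coeff d) ≠ 0) : L.NT ((Cc 0).coeff d) ((Cc 1).coeff d) := by
  classical
  have hcap : Cap Γ fun j => L.v (∏ i ∈ σ j, t i) := cap_of L hΓ (fun i => (ht i).1) hi hσ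
  have hp : ∀ j, ∏ i ∈ σ j, t i ≠ 0 := fun j => Finset.prod_ne_zero_iff.2 fun i _ => (ht i).1
  have hvc : 0 < L.v c := by
    by_contra hcon
    have := hmono (not_lt.1 hcon)
    rw [map_zero] at this
    exact absurd hc (not_lt.2 this)
  have hex : ∀ (γ : H) (j : Fin n), ∃ α : H, Cc j.succ.succ ≠ 0 →
      L.PGe γ α (Cc j.succ.succ) ∧ L.psy γ α (Cc j.succ.succ) ≠ 0 := by
    intro γ j
    by_cases hj : Cc j.succ.succ = 0
    · exact ⟨0, fun h => absurd hj h⟩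
    · obtain ⟨α, hα⟩ := L.exists_lev γ hj
      exact ⟨α, fun _ => hα⟩
  obtain ⟨hDeq, hNT⟩ := newton3 L hdiv ⟨_, hvc⟩ hΓ (f := Cc 0) (g := Cc 1) (by
    intro γ N e he heγ hf hg hf0 hg0 htd hcb
    choose α hα using hex γ
    have h1 := loc1 L hΓ h hmono hconst ht hc0 hc hT0 hTσ hG hC hcap hf hg hα
    obtain ⟨h2, h3⟩ := level L hΓ h hmono hconst ht hc0 hc hT0 hTσ hG hC hf hg le_rfl
      (α := α) fun j hj => ⟨(hα j hj).1, (hα j hj).2, h1 j hj⟩
    have h4 := L.pge_mul (L.pge_mul hf hg).1 (L.pge_add hf hg).1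
    rw [(L.pge_mul hf hg).2, (L.pge_add hf hg).2] at h4
    rw [show (3 : ℕ) • N = N + N + N by rw [succ_nsmul, two_nsmul]] at h2 h3
    rw [h4.2] at h2
    rw [← show (3 : ℕ) • N = N + N + N by rw [succ_nsmul, two_nsmul]] at h2 h3
    have hsup : ∀ f : E[X], ∀ i ∈ (L.psy γ N f).support, N - i • γ ∈ Γ := by
      intro f i hi
      rw [mem_support_iff, LTS.coeff_psy] at hi
      obtain ⟨h5, h6, -⟩ := L.sy_ne hi
      rw [← h6]
      exact hΓ _ h5
    refine exp_step he heγ hcap h3 (c := fun j => L.ac (∏ i ∈ σ j, t i)) (fun j =>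
      ⟨L.ac_ne _ (hp j), ?_⟩) hf0 hg0 ?_ (hsup _) (hsup _) h2 htd hcb
    · rw [L.ac_prod]
      exact cb_prod _ fun i _ => htc i
    · intro h5
      apply hcb
      have h6 : L.psy γ N (Cc 0) = -L.psy γ N (Cc 1) := eq_neg_of_add_eq_zero_left h5
      have h7 : (-L.psy γ N (Cc 1)).trailingCoeff = -(L.psy γ N (Cc 1)).trailingCoeff := by
        unfold trailingCoeff
        rw [natTrailingDegree_neg, coeff_neg]
      rw [h6, h7]
      exact cb_neg _) h0
  set D := (Cc 0).natDegree with hD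
  have hDd : D ≤ d := hd 0
  by_cases hlt : D = d
  · have h1 : (Cc 0).coeff d = (Cc 0).leadingCoeff := by rw [← hlt]; rfl
    have h2 : (Cc 1).coeff d = (Cc 1).leadingCoeff := by rw [← hlt, hDeq]; rfl
    rw [h1, h2]
    exact hNT
  exfalso
  have hlt' : D < d := lt_of_le_of_ne hDd hlt
  have hz0 : (Cc 0).coeff d = 0 := coeff_eq_zero_of_natDegree_lt hlt'
  have hz1 : (Cc 1).coeff d = 0 := coeff_eq_zero_of_natDegree_lt (hDeq ▸ hlt')
  obtain ⟨j, hj⟩ : ∃ j : Fin n, (Cc j.succ.succ).coeff d ≠ 0 := by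
    by_contra hcon
    push Not at hcon
    apply hld
    funext i
    refine Fin.cases ?_ (fun i => Fin.cases ?_ (fun j => ?_) i) i
    · exact hz0
    · exact hz1
    · exact hcon j
  have hj' : Cc j.succ.succ ≠ 0 := by
    intro h
    rw [h, coeff_zero] at hj
    exact hj rfl
  set S : H := ∑ l ∈ Finset.range (D + 1), (|L.v ((Cc 0).coeff l)| + |L.v ((Cc 1).coeff l)|)
    with hS
  set z : H := L.v (∏ i ∈ σ j, t i) + 3 • L.v ((Cc j.succ.succ).coeff d) + 3 • S with hz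
  set x : H := |z| + L.v c with hx
  have hx0 : 0 < x := add_pos_of_nonneg_of_pos (abs_nonneg _) hvc
  have hzx : z < x := lt_of_le_of_lt (le_abs_self z) (lt_add_of_pos_right _ hvc)
  have hSl : ∀ l, l ≤ D → -S ≤ L.v ((Cc 0).coeff l) ∧ -S ≤ L.v ((Cc 1).coeff l) := by
    intro l hl
    have h1 : |L.v ((Cc 0).coeff l)| + |L.v ((Cc 1).coeff l)| ≤ S :=
      Finset.single_le_sum (f := fun l => |L.v ((Cc 0).coeff l)| + |L.v ((Cc 1).coeff l)|)
        (fun _ _ => add_nonneg (abs_nonneg _) (abs_nonneg _))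
        (Finset.mem_range.2 (Nat.lt_succ_of_le hl))
    constructor
    · have h2 : |L.v ((Cc 0).coeff l)| ≤ S := le_trans (le_add_of_nonneg_right (abs_nonneg _)) h1
      exact le_trans (neg_le_neg h2) (neg_abs_le _)
    · have h2 : |L.v ((Cc 1).coeff l)| ≤ S := le_trans (le_add_of_nonneg_left (abs_nonneg _)) h1
      exact le_trans (neg_le_neg h2) (neg_abs_le _)
  have hge : ∀ {f : E[X]}, f.natDegree = D → (∀ l, l ≤ D → -S ≤ L.v (f.coeff l)) →
      L.PGe (-x) (-S - D • x) f := by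
    intro f hf hl l
    by_cases hlD : l ≤ D
    · right
      refine le_trans ?_ (hl l hlD)
      rw [smul_neg, sub_neg_eq_add, sub_add_eq_add_sub, sub_le_iff_le_add]
      exact add_le_add_right (nsmul_le_nsmul_left hx0.le hlD) _
    · left
      exact coeff_eq_zero_of_natDegree_lt (by omega)
  choose α hα using hex (-x)
  have h1 := loc1 L hΓ h hmono hconst ht hc0 hc hT0 hTσ hG hC hcap
    (hge rfl fun l hl => (hSl l hl).1) (hge hDeq.symm fun l hl => (hSl l hl).2) hα j hj'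
  have h2 : α j ≤ L.v ((Cc j.succ.succ).coeff d) - d • x := by
    have h3 := ((hα j hj').1 d).resolve_left hj
    rw [smul_neg, sub_neg_eq_add] at h3
    exact le_sub_iff_add_le.2 h3
  have h3 : 3 • (-S - D • x) ≤ L.v (∏ i ∈ σ j, t i) +
      3 • (L.v ((Cc j.succ.succ).coeff d) - d • x) :=
    le_trans h1 (add_le_add_right (nsmul_le_nsmul_right h2 3) _)
  have h4 : 3 • ((D + 1) • x) ≤ 3 • (d • x) :=
    nsmul_le_nsmul_right (nsmul_le_nsmul_left hx0.le hlt') 3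
  have h5 : 3 • x ≤ z := by
    have h6 : 3 • x + (3 • (-S - D • x) + 3 • (d • x)) = 3 • ((D + 1) • x) +
      (3 • (d • x) - 3 • S - 3 • (D • x) - 3 • (D • x)) := by
      rw [add_smul, one_smul]
      simp only [smul_sub, smul_add, smul_neg]
      abel
    have h7 : z + 3 • (D • x) - 3 • (d • x) = (L.v (∏ i ∈ σ j, t i) +
      3 • (L.v ((Cc j.succ.succ).coeff d) - d • x)) - 3 • (-S - D • x) := by
      rw [hz]
      simp only [smul_sub, smul_neg]
      abel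
    have h8 : 0 ≤ z + 3 • (D • x) - 3 • (d • x) := by
      rw [h7]
      exact sub_nonneg.2 h3
    have h9 : 3 • ((D + 1) • x) = 3 • (D • x) + 3 • x := by
      rw [add_smul, one_smul, smul_add]
    rw [h9] at h4
    have h10 : 0 ≤ z - 3 • x := by
      refine le_trans h8 ?_
      rw [add_sub_assoc, sub_eq_add_neg z]
      refine add_le_add_right ?_ _
      rw [sub_le_iff_le_add]
      have := h4
      calc 3 • (D • x) = (3 • (D • x) + 3 • x) + -(3 • x) := by abel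
        _ ≤ 3 • (d • x) + -(3 • x) := add_le_add_left h4 _
        _ = -(3 • x) + 3 • (d • x) := by abel
    exact sub_nonneg.1 h10
  have h6 : x ≤ 3 • x := by
    have : (1 : ℕ) • x ≤ 3 • x := nsmul_le_nsmul_left hx0.le (by norm_num)
    rwa [one_smul] at this
  exact absurd (lt_of_lt_of_le hzx (h6.trans h5)) (lt_irrefl _)

end

end Pool.Agent.H900.P3
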