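import Mathlib
import Pool.Agent.H900.PN.Fv
import Pool.Agent.H900.LF.Tf

/-! # The prime three: definitions -/

set_option autoImplicit false

namespace Pool.Agent.H900.P3

open Polynomial

noncomputable section

/-- `x` is a cube -/
def Cb {k : Type} [Field k] (x : k) : Prop := ∃ y, y ^ 3 = x

/-- the coefficient in degree `N` -/
def syv {E H k : Type} [Field E] [Field k] (v : E → H) (ac : E → k) (N : H) (x : E) : k :=
  open Classical in if x ≠ 0 ∧ v x = N then ac x else 0

/-- A valuation `v` of `E` with values in an ordered group `H`, together with an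
angular component `ac` with values in the field `k`. -/
structure LTS (E H k : Type) [Field E] [Field k] [AddCommGroup H] [LinearOrder H]
    [IsOrderedAddMonoid H] where
  v : E → H
  ac : E → k
  ac_zero : ac 0 = 0
  ac_ne : ∀ x, x ≠ 0 → ac x ≠ 0
  v_mul : ∀ x y, x ≠ 0 → y ≠ 0 → v (x * y) = v x + v y
  ac_mul : ∀ x y, ac (x * y) = ac x * ac y
  add' : ∀ (N : H) (x y : E), (x = 0 ∨ N ≤ v x) → (y = 0 ∨ N ≤ v y) →
    (x + y = 0 ∨ N ≤ v (x + y)) ∧ syv v ac N (x + y) = syv v ac N x + syv v ac N y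

section lts

variable {E H k : Type} [Field E] [Field k] [AddCommGroup H] [LinearOrder H]
    [IsOrderedAddMonoid H] (L : LTS E H k)

/-- the value is at least `N` -/
def LTS.Ge (N : H) (x : E) : Prop := x = 0 ∨ N ≤ L.v x

/-- the coefficient in degree `N` -/
def LTS.sy (N : H) (x : E) : k := syv L.v L.ac N x

/-- all terms of the polynomial `f` have value at least `N`, if the value of the
variable is `γ` -/
def LTS.PGe (γ N : H) (f : E[X]) : Prop := ∀ j : ℕ, L.Ge (N - j • γ) (f.coeff j)

/-- the initial form of `f` in degree `N` -/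
def LTS.psy (γ N : H) (f : E[X]) : k[X] :=
  ∑ j ∈ f.support, monomial j (L.sy (N - j • γ) (f.coeff j))

/-- the class of `x / y` is defined and not trivial -/
def LTS.NT (x y : E) : Prop := x ≠ 0 ∧ y ≠ 0 ∧ L.v x = L.v y ∧ ¬ Cb (L.ac x * L.ac y ^ 2)

end lts

/-- the exponents of the terms of level `μ`, if the value of the variable is `γ` -/
def Lev {H k J : Type} [AddCommGroup H] [Field k] (Γ : AddSubgroup H) (γ μ : H) (β : J → H)
    (A : J → k[X]) : Prop :=
  ∀ j, A j ≠ 0 → ∃ α : H, β j + 3 • α = μ ∧ ∀ i ∈ (A j).support, α - i • γ ∈ Γ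

/-- the elements `β_j` are different modulo `3 Γ`, and no three of them are in arithmetic
progression modulo `3 Γ` -/
def Cap {H J : Type} [AddCommGroup H] (Γ : AddSubgroup H) (β : J → H) : Prop :=
  (∀ j, β j ∈ Γ) ∧ (∀ i j, i ≠ j → ∀ x ∈ Γ, β i - β j ≠ 3 • x) ∧
    ∀ i j l, i ≠ j → i ≠ l → j ≠ l → ∀ x ∈ Γ, 2 • β i - β j - β l ≠ 3 • x

end

end Pool.Agent.H900.P3
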