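import Pool.Agent.H900.P3.Mn
import Pool.Agent.H900.PN.Dt

/-! # The primes two and three together -/

set_option autoImplicit false
set_option linter.unusedSectionVars false
set_option linter.unusedVariables false

namespace Pool.Agent.H900.P3

open MvPolynomial FF Module Pool.Agent.Helper93K9.PAR Pool.Agent.H900.LF
open Pool.Agent.H900.PN (fam)

noncomputable section

theorem exists_sig {s N : ℕ} {T : Finset (Finset (Fin s))} (hT0 : ∅ ∈ T) (hN : N + 1 ≤ T.card) :
    ∃ σ : Fin (N + 1) → Finset (Fin s), Function.Injective σ ∧ σ (Fin.last N) = ∅ ∧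
      ∀ j, σ j ∈ T := by
  classical
  have h1 : N ≤ (T.erase ∅).card := by
    rw [Finset.card_erase_of_mem hT0]
    omega
  obtain ⟨T', hT', hcard⟩ := Finset.exists_subset_card_eq h1
  let e := (Finset.equivFinOfCardEq hcard).symm
  have he : ∀ j : Fin N, (e j : Finset (Fin s)) ∈ T.erase ∅ := fun j => hT' (e j).2
  refine ⟨Fin.snoc (α := fun _ => Finset (Fin s)) (fun j => (e j : Finset (Fin s))) ∅, ?_, ?_, ?_⟩
  · intro i j
    refine Fin.lastCases ?_ (fun i => ?_) i
    · refine Fin.lastCases (fun _ => rfl) (fun j h => ?_) j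
      rw [Fin.snoc_last, Fin.snoc_castSucc] at h
      exact absurd h.symm (Finset.ne_of_mem_erase (he j))
    · refine Fin.lastCases (fun h => ?_) (fun j h => ?_) j
      · rw [Fin.snoc_last, Fin.snoc_castSucc] at h
        exact absurd h (Finset.ne_of_mem_erase (he i))
      · rw [Fin.snoc_castSucc, Fin.snoc_castSucc] at h
        rw [e.injective (Subtype.ext h)]
  · rw [Fin.snoc_last]
  · intro j
    refine Fin.lastCases ?_ (fun j => ?_) j
    · rw [Fin.snoc_last]
      exact hT0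
    · rw [Fin.snoc_castSucc]
      exact Finset.mem_of_mem_erase (he j)

/-- **The main theorem for independent coefficients.** -/
theorem main_six {s n m : ℕ} {T : Finset (Finset (Fin s))} (hn : 1 ≤ n) (hT : n ≤ T.card)
    (hT0 : ∅ ∈ T) (hT1 : ∃ i, {i} ∈ T)
    {F : Finset (Fin s) → MvPolynomial (Fin (n + 2)) ℂ} (hF : ∀ τ ∈ T, (F τ).IsHomogeneous 3)
    (hind : AlgebraicIndependent ℚ
      (fun p : T × {β : Fin (n + 2) →₀ ℕ // β.degree = 3} => coeff p.2.1 (F p.1)))
    {M : Type} [Field M] [Algebra (Kt s) M] (g : Fin (n + 2) → M) (R : Fin m → M)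
    (hg0 : g ≠ 0) (hg : aeval g (fam T F) = 0) {ι' : Type} {y : ι' → M}
    (hy : AlgebraicIndependent (Kt s) y) (hc : ((n + m : ℕ) : Cardinal) ≤ Cardinal.mk ι')
    (h6 : ¬ 6 ∣ finrank (IntermediateField.adjoin (Kt s)
      ({z | ∃ i j, z = g i / g j} ∪ Set.range R)) M)
    (l : Fin (n + 2) → M) (hl : ∀ i, IsAlgebraic (Kt s) (l i)) :
    ¬ Relation.ReflTransGen (Joined (fam T F)) g l := by
  classical
  obtain ⟨i0, hi0⟩ := hT1
  have h2 : n + 1 ≤ 2 * T.card := by omega
  obtain ⟨D, j0, hj0, hj1, hTD⟩ := Pool.Agent.H900.PN.exists_dat hT0 hi0 hn h2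
  by_cases hodd : Odd (finrank (IntermediateField.adjoin (Kt s)
      ({z | ∃ i j, z = g i / g j} ∪ Set.range R)) M)
  · exact Pool.Agent.H900.PN.main_aux D hj0 hj1 hT0 hi0 hTD hF hind g R hg0 hg hy hc hodd l hl
  have h3 : ¬ 3 ∣ finrank (IntermediateField.adjoin (Kt s)
      ({z | ∃ i j, z = g i / g j} ∪ Set.range R)) M := by
    intro h3
    obtain ⟨a, ha⟩ := Nat.not_odd_iff_even.1 hodd
    apply h6
    omega
  have hirr := Pool.Agent.H900.PN.fam_irr D hj0 hj1 hT0 hi0 hTD hF hind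
  obtain ⟨N, rfl⟩ : ∃ N, n = N + 1 := ⟨n - 1, by omega⟩
  obtain ⟨σ, hσ, hσl, hTσ⟩ := exists_sig hT0 hT
  exact main_aux3 hσ hσl hT0 hTσ hF hind hirr g R hg0 hg hy hc h3 l hl

end

end Pool.Agent.H900.P3
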