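import Pool.Agent.H900.P3.Df

/-! # Valuations for which a given point has a nontrivial class -/

set_option autoImplicit false

namespace Pool.Agent.H900.P3

open MvPolynomial Module FF

noncomputable section

/-- the value of the composition with a discrete place `w` with uniformizer `ϖ` -/
def compV {Ω E H k : Type} [Field Ω] [Field E] [Algebra Ω E] [Field k] [AddCommGroup H]
    [LinearOrder H] [IsOrderedAddMonoid H] (w : Place Ω E) (ϖ : E) (L : LTS w.RF H k) (x : E) :
    ℚ ×ₗ H := toLex ((w.ord x : ℚ), L.v (w.red (x * ϖ ^ (-w.ord x))))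

/-- the angular component of the composition with a discrete place `w` with uniformizer `ϖ` -/
def compAc {Ω E H k : Type} [Field Ω] [Field E] [Algebra Ω E] [Field k] [AddCommGroup H]
    [LinearOrder H] [IsOrderedAddMonoid H] (w : Place Ω E) (ϖ : E) (L : LTS w.RF H k) (x : E) :
    k := L.ac (w.red (x * ϖ ^ (-w.ord x)))

/-- the properties of the valuation `L` -/
structure GoodL (Ω : Type) {E H k : Type} [Field Ω] [Field E] [Algebra Ω E] [Field k]
    [AddCommGroup H] [LinearOrder H] [IsOrderedAddMonoid H] (L : LTS E H k) (Γ : AddSubgroup H)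
    {s : ℕ} (t : Fin s → E) (a : E) : Prop where
  div : ∀ n : ℕ, n ≠ 0 → ∀ x : H, ∃ y, n • y = x
  mem : ∀ x : E, x ≠ 0 → L.v x ∈ Γ
  const : ∀ b : Ω, b ≠ 0 → L.v (algebraMap Ω E b) = 0
  cube : ∀ i, t i ≠ 0 ∧ Cb (L.ac (t i))
  indep : ∀ m : Fin s → ℤ, (∃ x ∈ Γ, ∑ i, m i • L.v (t i) = 3 • x) → ∀ i, (3 : ℤ) ∣ m i
  v_zero : L.v a = 0
  ncube : ¬ Cb (L.ac a)

/-- There is a valuation for which the class of `a` is not trivial, and the class of the elements
which are algebraic over `Ω(t)` is trivial. -/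
def Good (Ω : Type) {E : Type} [Field Ω] [Field E] [Algebra Ω E] {s : ℕ} (t : Fin s → E)
    (a : E) : Prop :=
  ∃ (H k : Type) (_ : AddCommGroup H) (_ : LinearOrder H) (_ : IsOrderedAddMonoid H)
    (_ : Field k) (L : LTS E H k) (Γ : AddSubgroup H), GoodL Ω L Γ t a ∧
      ∀ x : E, x ≠ 0 → ¬ AlgebraicIndependent Ω (Fin.cons x t : Fin (s + 1) → E) → L.v x = 0 →
        Cb (L.ac x)

end

end Pool.Agent.H900.P3
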