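import Pool.Agent.H900.P3.Tc
import Pool.Agent.H900.PN.Ir

/-! # The main theorem for independent coefficients, for the prime three -/

set_option autoImplicit false
set_option linter.unusedSectionVars false
set_option linter.unusedVariables false

namespace Pool.Agent.H900.P3

open MvPolynomial FF Module Pool.Agent.Helper93K9.PAR Pool.Agent.H900.LF
open Pool.Agent.H900.PN (fv fv_map eqn UU uu eqv Lkk fam aeval_fam fam_hom fam_coeff gp0)

noncomputable section

section main

variable {s N m : ℕ} {σ : Fin (N + 1) → Finset (Fin s)} (hσ : Function.Injective σ)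
    (hσl : σ (Fin.last N) = ∅) {T : Finset (Finset (Fin s))} (hT0 : ∅ ∈ T)
    (hTσ : ∀ j, σ j ∈ T)
    {F : Finset (Fin s) → MvPolynomial (Fin (N + 1 + 2)) ℂ} (hF : ∀ τ ∈ T, (F τ).IsHomogeneous 3)
    (hind : AlgebraicIndependent ℚ
      (fun p : T × {β : Fin (N + 1 + 2) →₀ ℕ // β.degree = 3} => coeff p.2.1 (F p.1)))

include hσ hσl hT0 hTσ hF hind

theorem main_3 {M : Type} [Field M] [Algebra (Kt s) M] (g : Fin (N + 1 + 2) → M) (R : Fin m → M)
    (hg : aeval g (fam T F) = 0) (hg0 : g 0 ≠ 0)
    (hi : AlgebraicIndependent (Kt s)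
      (Sum.elim (fun j : Fin (N + 1) => g j.castSucc.succ / g 0) R))
    (h3 : ∃ M0, ¬ 3 ∣ M0 ∧ finrank (IntermediateField.adjoin (Kt s)
      (Set.range (Sum.elim (fun j : Fin (N + 1) => g j.castSucc.succ / g 0) R))) M = 3 * M0)
    (l : Fin (N + 1 + 2) → M) (hl : ∀ i, IsAlgebraic (Kt s) (l i)) :
    ¬ Relation.ReflTransGen (Joined (fam T F)) g l := by
  classical
  intro hch
  let _ : Algebra ℂ M := ((algebraMap (Kt s) M).comp (algebraMap ℂ (Kt s))).toAlgebra
  have _ : IsScalarTower ℂ (Kt s) M := IsScalarTower.of_algebraMap_eq fun _ => rfl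
  set t : Fin s → M := fun i => algebraMap (Kt s) M (Pool.Agent.X328.FD.tf s i) with ht
  set S : Set M := Set.range (Sum.elim (fun j : Fin (N + 1) => g j.castSucc.succ / g 0) R) with hS
  have htop : (IsScalarTower.toAlgHom ℂ (Kt s) M).fieldRange =
      IntermediateField.adjoin ℂ (Set.range t) := by
    have h1 : IntermediateField.adjoin ℂ (Set.range (Pool.Agent.X328.FD.tf s)) = ⊤ :=
      Pool.Agent.X328.FD.tf_top
    rw [AlgHom.fieldRange_eq_map, ← h1, IntermediateField.adjoin_map, ← Set.range_comp]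
    rfl
  have hranU : Set.range (UU t g R) = Set.range t ∪ S := by
    unfold UU
    rw [(eqv s (N + 1) m).surjective.range_comp]
    exact Set.Sum.elim_range _ _
  have hres : (IntermediateField.adjoin (Kt s) S).restrictScalars ℂ = Kc ℂ (UU t g R) := by
    rw [Pool.Agent.X328.FD.res_type, htop, sup_comm, ← IntermediateField.adjoin_union,
      Set.union_comm, ← hranU]
  have h3' : ∃ M0, ¬ 3 ∣ M0 ∧ finrank (Kc ℂ (UU t g R)) M = 3 * M0 := by
    rw [← hres]
    exact h3
  have hiU : AlgebraicIndependent ℂ (UU t g R) := by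
    unfold UU
    rw [algebraicIndependent_equiv]
    have h1 := AlgebraicIndependent.sumElim_comp (Pool.Agent.X328.FD.tf_indep (m := s)) hi
    have h2 : uu t (fun j => g j.castSucc.succ / g 0) R =
        (Sum.elim (Sum.elim (fun j : Fin (N + 1) => g j.castSucc.succ / g 0) R)
          (algebraMap (Kt s) M ∘ Pool.Agent.X328.FD.tf s)) ∘ Equiv.sumComm _ _ := by
      funext v
      rcases v with v | v
      · rfl
      · rfl
    rw [h2, algebraicIndependent_equiv]
    exact h1
  have halg' : ∀ z : M, IsAlgebraic (Kt s) z → IsAlgebraic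
      (IntermediateField.adjoin ℂ (Set.range t)) z := by
    intro z hz
    rw [← htop]
    let f : Kt s →+* (IsScalarTower.toAlgHom ℂ (Kt s) M).fieldRange :=
      (algebraMap (Kt s) M).codRestrict (IsScalarTower.toAlgHom ℂ (Kt s) M).fieldRange
        fun a => ⟨a, rfl⟩
    obtain ⟨P, hP, hPz⟩ := hz
    refine ⟨P.map f, ?_, ?_⟩
    · rwa [Ne, Polynomial.map_eq_zero]
    · rw [Polynomial.aeval_def, Polynomial.eval₂_map]
      exact hPz
  refine over_C3 hσ hσl hT0 hTσ hF hind t g R ?_ hg0 hiU h3' l
    (fun i j => dep_of_alg (halg' _ ?_)) ?_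
  · rw [← hg, aeval_fam]
  · rw [div_eq_mul_inv]
    exact (hl i).mul (hl j).inv
  · refine Relation.ReflTransGen.mono (fun a b' h => ?_) _ _ hch
    obtain ⟨ha, hb', d, Cc, hd, hC, e1, e2⟩ := h
    refine ⟨ha, hb', d, Cc, hd, ?_, e1, e2⟩
    have _ : IsScalarTower ℂ (Kt s) (Polynomial M) := IsScalarTower.of_algebraMap_eq fun _ => rfl
    rw [← hC, aeval_fam]
    rfl

/-- **The main theorem for independent coefficients.** -/
theorem main_aux3 (hirr : Irreducible (fam T F)) {M : Type} [Field M] [Algebra (Kt s) M] (g : Fin (N + 1 + 2) → M) (R : Fin m → M)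
    (hg0 : g ≠ 0) (hg : aeval g (fam T F) = 0) {ι' : Type} {y : ι' → M}
    (hy : AlgebraicIndependent (Kt s) y) (hc : ((N + 1 + m : ℕ) : Cardinal) ≤ Cardinal.mk ι')
    (h3 : ¬ 3 ∣ finrank (IntermediateField.adjoin (Kt s)
      ({z | ∃ i j, z = g i / g j} ∪ Set.range R)) M)
    (l : Fin (N + 1 + 2) → M) (hl : ∀ i, IsAlgebraic (Kt s) (l i)) :
    ¬ Relation.ReflTransGen (Joined (fam T F)) g l := by
  classical
  set f := fam T F with hfdef
  have hf : f.IsHomogeneous 3 := fam_hom hF
  have hco : ∀ l, coeff (Finsupp.single l 3) f ≠ 0 := fun l =>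
    fam_coeff hT0 _ (hind.ne_zero (⟨∅, hT0⟩, ⟨Finsupp.single l 3, Finsupp.degree_single _ _⟩))
  set S : Set M := {z | ∃ i j, z = g i / g j} ∪ Set.range R with hS
  have halg : ∀ z : M, IsAlgebraic (IntermediateField.adjoin (Kt s) S) z := by
    intro z
    have : FiniteDimensional (IntermediateField.adjoin (Kt s) S) M :=
      FiniteDimensional.of_finrank_pos (Nat.pos_of_ne_zero fun h0 => h3 (by rw [h0]; exact dvd_zero 3))
    exact Algebra.IsAlgebraic.isAlgebraic z
  have hga := gp0 hf hco hg0 hg halg hy hc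
  have hg00 := hga 0
  -- the cylinder
  let x : Fin (N + 1 + m + 2) → M := Fin.cons (g 0) (Fin.snoc (α := fun _ => M)
    (Fin.append (fun j : Fin (N + 1) => g j.castSucc.succ) fun l : Fin m => R l * g 0)
    (g (Fin.last (N + 1 + 1))))
  let rr : Fin (N + 1 + 2) → Fin (N + 1 + m + 2) := Fin.cons 0 (Fin.snoc (α := fun _ => Fin (N + 1 + m + 2))
    (fun j : Fin (N + 1) => (Fin.castAdd m j).castSucc.succ) (Fin.last (N + 1 + m + 1)))
  have x0 : x 0 = g 0 := rfl
  have xl : x (Fin.last (N + 1 + m + 1)) = g (Fin.last (N + 1 + 1)) := by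
    show (Fin.cons (g 0) (Fin.snoc (α := fun _ => M) (Fin.append (fun j : Fin (N + 1) =>
      g j.castSucc.succ) fun l : Fin m => R l * g 0) (g (Fin.last (N + 1 + 1)))) :
        Fin (N + 1 + m + 2) → M) (Fin.last (N + 1 + m + 1)) = _
    rw [← Fin.succ_last (N + 1 + m), Fin.cons_succ, Fin.snoc_last]
  have xm : ∀ i : Fin (N + 1 + m), x i.castSucc.succ = (Fin.append (fun j : Fin (N + 1) =>
      g j.castSucc.succ) fun l : Fin m => R l * g 0) i := by
    intro i
    show (Fin.cons (g 0) (Fin.snoc (α := fun _ => M) (Fin.append (fun j : Fin (N + 1) =>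
      g j.castSucc.succ) fun l : Fin m => R l * g 0) (g (Fin.last (N + 1 + 1)))) :
        Fin (N + 1 + m + 2) → M) i.castSucc.succ = _
    rw [Fin.cons_succ, Fin.snoc_castSucc]
  have r0 : rr 0 = 0 := rfl
  have rl : rr (Fin.last (N + 1 + 1)) = Fin.last (N + 1 + m + 1) := by
    show (Fin.cons 0 (Fin.snoc (α := fun _ => Fin (N + 1 + m + 2))
      (fun j : Fin (N + 1) => (Fin.castAdd m j).castSucc.succ) (Fin.last (N + 1 + m + 1))) :
        Fin (N + 1 + 2) → Fin (N + 1 + m + 2)) (Fin.last (N + 1 + 1)) = _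
    rw [← Fin.succ_last (N + 1), Fin.cons_succ, Fin.snoc_last]
  have rm : ∀ j : Fin (N + 1), rr j.castSucc.succ = (Fin.castAdd m j).castSucc.succ := by
    intro j
    show (Fin.cons 0 (Fin.snoc (α := fun _ => Fin (N + 1 + m + 2))
      (fun j : Fin (N + 1) => (Fin.castAdd m j).castSucc.succ) (Fin.last (N + 1 + m + 1))) :
        Fin (N + 1 + 2) → Fin (N + 1 + m + 2)) j.castSucc.succ = _
    rw [Fin.cons_succ, Fin.snoc_castSucc]
  have hxr : ∀ i, x (rr i) = g i := by
    intro i
    refine TrL.cases3 (P := fun i => x (rr i) = g i) ?_ ?_ ?_ i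
    · rw [r0, x0]
    · intro j
      rw [rm, xm, Fin.append_left]
    · rw [rl, xl]
  have rinj : Function.Injective rr := by
    have hval : ∀ i, (rr i).val = if i = Fin.last (N + 1 + 1) then N + 1 + m + 1 else i.val := by
      intro i
      refine TrL.cases3 (P := fun i => (rr i).val = if i = Fin.last (N + 1 + 1) then N + 1 + m + 1
        else i.val) ?_ ?_ ?_ i
      · rw [r0, if_neg (by
          intro h
          exact absurd (congrArg Fin.val h) (by simp))]
        rfl
      · intro j
        rw [rm, if_neg (by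
          intro h
          have h3 := congrArg Fin.val h
          simp only [Fin.val_succ, Fin.val_castSucc, Fin.val_last] at h3
          have := j.isLt
          omega)]
        rfl
      · rw [rl, if_pos rfl]
        rfl
    intro i j h
    have h1 := congrArg Fin.val h
    rw [hval, hval] at h1
    have hi := i.isLt
    have hj := j.isLt
    have hil : i ≠ Fin.last (N + 1 + 1) → i.val < N + 1 + 1 := fun h => Fin.val_lt_last h
    have hjl : j ≠ Fin.last (N + 1 + 1) → j.val < N + 1 + 1 := fun h => Fin.val_lt_last h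
    by_cases h2 : i = Fin.last (N + 1 + 1) <;> by_cases h3 : j = Fin.last (N + 1 + 1)
    · rw [h2, h3]
    · rw [if_pos h2, if_neg h3] at h1
      have := hjl h3
      omega
    · rw [if_neg h2, if_pos h3] at h1
      have := hil h2
      omega
    · rw [if_neg h2, if_neg h3] at h1
      exact Fin.ext h1
  have hF' : (rename rr f).IsHomogeneous 3 := hf.rename_isHomogeneous
  have hirr' : Irreducible (rename rr f) := by
    have h1 : Prime f := hirr.prime
    let e := Equiv.ofInjective rr rinj
    have h2 : Prime (renameEquiv (Kt s) e f) := (MulEquiv.prime_iff (renameEquiv (Kt s) e)).2 h1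
    have h3 : Prime (rename (Subtype.val : Set.range rr → Fin (N + 1 + m + 2))
        (renameEquiv (Kt s) e f)) := (prime_rename_iff _).2 h2
    rw [renameEquiv_apply, rename_rename] at h3
    exact h3.irreducible
  have hlast' : coeff (Finsupp.single (Fin.last (N + 1 + m + 1)) 3) (rename rr f) ≠ 0 := by
    have h1 : aeval (Pi.single (Fin.last (N + 1 + m + 1)) 1 : Fin (N + 1 + m + 2) → Kt s)
        (rename rr f) = coeff (Finsupp.single (Fin.last (N + 1 + m + 1)) 3) (rename rr f) :=
      TrL.aeval_single hF' _ _ (Pi.single_eq_same _ _) fun i hi => Pi.single_eq_of_ne hi _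
    rw [← h1, aeval_rename]
    have h2 := TrL.aeval_single (R := Kt s) hf (Fin.last (N + 1 + 1))
      ((Pi.single (Fin.last (N + 1 + m + 1)) 1 : Fin (N + 1 + m + 2) → Kt s) ∘ rr) (by
        rw [Function.comp_apply, rl, Pi.single_eq_same]) (fun i hi => by
        rw [Function.comp_apply, Pi.single_eq_of_ne]
        intro h
        exact hi (rinj (h.trans rl.symm)))
    rw [h2]
    exact hco _
  have hxf : aeval x (rename rr f) = 0 := by
    rw [aeval_rename, show x ∘ rr = g from funext hxr, hg]
  have hx0 : x 0 ≠ 0 := hg00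
  have hyx : ∀ i : Fin (N + 1 + m), yx x i =
      (Fin.append (fun j : Fin (N + 1) => g j.castSucc.succ / g 0) R : Fin (N + 1 + m) → M) i := by
    intro i
    unfold yx
    rw [xm, x0]
    refine Fin.addCases (fun j => ?_) (fun l => ?_) i
    · rw [Fin.append_left, Fin.append_left]
    · rw [Fin.append_right, Fin.append_right, mul_div_cancel_right₀ _ hg00]
  have hyxe : yx x = (Sum.elim (fun j : Fin (N + 1) => g j.castSucc.succ / g 0) R) ∘
      finSumFinEquiv.symm := by
    funext i
    rw [hyx]
    refine Fin.addCases (fun j => ?_) (fun l => ?_) i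
    · rw [Fin.append_left, Function.comp_apply, finSumFinEquiv_symm_apply_castAdd]
      rfl
    · rw [Fin.append_right, Function.comp_apply, finSumFinEquiv_symm_apply_natAdd]
      rfl
  have hrf : rf (Kt s) x = IntermediateField.adjoin (Kt s) S := by
    have hall : ∀ a, x a / g 0 ∈ IntermediateField.adjoin (Kt s) S := by
      intro a
      refine TrL.cases3 (P := fun a => x a / g 0 ∈ IntermediateField.adjoin (Kt s) S) ?_ ?_ ?_ a
      · rw [x0, div_self hg00]
        exact one_mem _
      · intro i
        rw [xm]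
        refine Fin.addCases (fun j => ?_) (fun l => ?_) i
        · rw [Fin.append_left]
          exact IntermediateField.subset_adjoin _ _ (Or.inl ⟨_, _, rfl⟩)
        · rw [Fin.append_right, mul_div_cancel_right₀ _ hg00]
          exact IntermediateField.subset_adjoin _ _ (Or.inr ⟨_, rfl⟩)
      · rw [xl]
        exact IntermediateField.subset_adjoin _ _ (Or.inl ⟨_, _, rfl⟩)
    apply le_antisymm
    · rw [rf, IntermediateField.adjoin_le_iff]
      rintro _ ⟨i, j, rfl⟩
      rw [← div_div_div_cancel_right₀ hg00]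
      exact div_mem (hall i) (hall j)
    · rw [IntermediateField.adjoin_le_iff]
      rintro _ (⟨i, j, rfl⟩ | ⟨l, rfl⟩)
      · exact IntermediateField.subset_adjoin _ _ ⟨rr i, rr j, by rw [hxr, hxr]⟩
      · refine IntermediateField.subset_adjoin _ _
          ⟨(Fin.natAdd (N + 1) l).castSucc.succ, 0, ?_⟩
        rw [xm, Fin.append_right, x0, mul_div_cancel_right₀ _ hg00]
  have hxi : AlgebraicIndependent (Kt s) (yx x) := by
    refine Pool.Agent.X328.FD.indep_count (y := y) (alg_of_gens _ {z | ∃ i j, z = x i / x j}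
      ?_ ?_) hy ?_
    · have h1 : ∀ a, IsAlgebraic (IntermediateField.adjoin (Kt s) (Set.range (yx x)))
          (x a / x 0) := by
        refine TrL.cases3 (P := fun a => IsAlgebraic
          (IntermediateField.adjoin (Kt s) (Set.range (yx x))) (x a / x 0)) ?_ ?_ ?_
        · rw [div_self hx0]
          exact isAlgebraic_one
        · intro i
          exact alg_mem (IntermediateField.subset_adjoin _ _ ⟨i, rfl⟩)
        · exact alg_last hF' hlast' hxf hx0
      rintro _ ⟨i, j, rfl⟩
      rw [← div_div_div_cancel_right₀ hx0]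
      rw [div_eq_mul_inv]
      exact (h1 i).mul (h1 j).inv
    · have h2 : IntermediateField.adjoin (Kt s) {z | ∃ i j, z = x i / x j} =
          IntermediateField.adjoin (Kt s) S := hrf
      rw [h2]
      exact halg
    · rw [Cardinal.mk_fin]
      exact hc
  have hcub := cub (Kt s) M (N + 1 + m) (rename rr f) hF' hirr' hlast' x
  have hgen := hcub.2 hxf hx0 hxi
  have hdeg := (hcub.1 hgen).2.2
  have hoddx : ∃ M0, ¬ 3 ∣ M0 ∧ finrank (Kc (Kt s) (yx x)) M = 3 * M0 := by
    refine ⟨_, h3, ?_⟩
    rw [hdeg, hrf]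
  have hran : Set.range (Sum.elim (fun j : Fin (N + 1) => g j.castSucc.succ / g 0) R) =
      Set.range (yx x) := by
    rw [hyxe]
    exact (finSumFinEquiv.symm.surjective.range_comp _).symm
  refine main_3 hσ hσl hT0 hTσ hF hind g R hg hg00 ?_ ?_ l hl
  · rw [hyxe, algebraicIndependent_equiv] at hxi
    exact hxi
  · rw [hran]
    exact hoddx

end main

end

end Pool.Agent.H900.P3
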