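import Pool.Agent.H900.P3.A

/-! # The special family -/

set_option autoImplicit false
set_option linter.unusedSectionVars false

namespace Pool.Agent.H900.P3

open Polynomial
open Pool.Agent.H900.PN (fv)

noncomputable section

/-- the special cubic -/
def spq {A ι : Type} [CommRing A] {n : ℕ} (σ : Fin n → Finset ι) (t : ι → A)
    (y : Fin (n + 2) → A) : A :=
  y 0 * y 1 * (y 0 + y 1) - ∑ j : Fin n, (∏ i ∈ σ j, t i) * y j.succ.succ ^ 3

/-- the family of the special cubic -/
def Ph (k : Type) [CommRing k] {ι : Type} {n : ℕ} (σ : Fin n → Finset ι) (τ : Finset ι) :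
    MvPolynomial (Fin (n + 2)) k :=
  open Classical in
  (if τ = ∅ then MvPolynomial.X 0 * MvPolynomial.X 1 * (MvPolynomial.X 0 + MvPolynomial.X 1)
    else 0) - ∑ j : Fin n, if σ j = τ then MvPolynomial.X j.succ.succ ^ 3 else 0

theorem fv_ph {n : ℕ} {ι k A : Type} [CommRing k] [CommRing A] [Algebra k A]
    {σ : Fin n → Finset ι} {T : Finset (Finset ι)} (hT0 : ∅ ∈ T) (hTσ : ∀ j, σ j ∈ T)
    (t : ι → A) (y : Fin (n + 2) → A) : fv T t (Ph k σ) y = spq σ t y := by
  classical
  have h1 : ∀ τ, MvPolynomial.aeval y (Ph k σ τ) =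
      (if τ = ∅ then y 0 * y 1 * (y 0 + y 1) else 0) -
        ∑ j : Fin n, if σ j = τ then y j.succ.succ ^ 3 else 0 := by
    intro τ
    unfold Ph
    rw [map_sub, map_sum]
    congr 1
    · by_cases h : τ = ∅
      · rw [if_pos h, if_pos h]
        simp only [map_mul, map_add, MvPolynomial.aeval_X]
      · rw [if_neg h, if_neg h, map_zero]
    · refine Finset.sum_congr rfl fun j _ => ?_
      by_cases h : σ j = τ
      · rw [if_pos h, if_pos h, map_pow, MvPolynomial.aeval_X]
      · rw [if_neg h, if_neg h, map_zero]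
  unfold fv spq
  have h5 : ∀ τ, (∏ i ∈ τ, t i) * MvPolynomial.aeval y (Ph k σ τ) =
      (∏ i ∈ τ, t i) * (if τ = ∅ then y 0 * y 1 * (y 0 + y 1) else 0) -
      ∑ j : Fin n, (∏ i ∈ τ, t i) * (if σ j = τ then y j.succ.succ ^ 3 else 0) := by
    intro τ
    rw [h1, mul_sub, Finset.mul_sum]
  rw [Finset.sum_congr rfl fun τ _ => h5 τ, Finset.sum_sub_distrib, Finset.sum_comm]
  congr 1
  · rw [Finset.sum_eq_single ∅]
    · rw [if_pos rfl, Finset.prod_empty, one_mul]
    · intro τ _ hτ
      rw [if_neg hτ, mul_zero]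
    · intro h
      exact absurd hT0 h
  · refine Finset.sum_congr rfl fun j _ => ?_
    rw [Finset.sum_eq_single (σ j)]
    · rw [if_pos rfl]
    · intro τ _ hτ
      rw [if_neg fun h => hτ h.symm, mul_zero]
    · intro h
      exact absurd (hTσ j) h

theorem Ph_hom {n : ℕ} {ι k : Type} [CommRing k] (σ : Fin n → Finset ι) (τ : Finset ι) :
    (Ph k σ τ).IsHomogeneous 3 := by
  classical
  have hX : ∀ a : Fin (n + 2), (MvPolynomial.X a : MvPolynomial _ k).IsHomogeneous 1 :=
    fun a => MvPolynomial.isHomogeneous_X k a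
  unfold Ph
  refine MvPolynomial.IsHomogeneous.sub ?_ (MvPolynomial.IsHomogeneous.sum _ _ _ fun j _ => ?_)
  · split_ifs
    · exact ((hX _).mul (hX _)).mul ((hX _).add (hX _))
    · exact MvPolynomial.isHomogeneous_zero _ _ _
  · split_ifs
    · exact (hX _).pow 3
    · exact MvPolynomial.isHomogeneous_zero _ _ _

theorem Ph_map {n : ℕ} {ι k k' : Type} [CommRing k] [CommRing k'] (f : k →+* k')
    (σ : Fin n → Finset ι) (τ : Finset ι) : MvPolynomial.map f (Ph k σ τ) = Ph k' σ τ := by
  classical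
  unfold Ph
  rw [map_sub, map_sum]
  congr 1
  · split_ifs
    · simp only [map_mul, map_add, MvPolynomial.map_X]
    · rw [map_zero]
  · refine Finset.sum_congr rfl fun j _ => ?_
    split_ifs
    · rw [map_pow, MvPolynomial.map_X]
    · rw [map_zero]

end

end Pool.Agent.H900.P3
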