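import Pool.Agent.H900.P3.Co
import Pool.Agent.H900.PN.Tc

/-! # Transfer to the complex numbers, for the prime three -/

set_option autoImplicit false
set_option linter.unusedSectionVars false
set_option linter.unusedVariables false

namespace Pool.Agent.H900.P3

open MvPolynomial FF Module Pool.Agent.Helper93K9.PAR
open Pool.Agent.H900.PN (fv fv_map eqn UU uu eqv Lkk chain_lift2 base_fam)

noncomputable section

/-- **The theorem over the complex numbers**, for independent parameters. -/
theorem over_C3 {s N m : ℕ} {σ : Fin (N + 1) → Finset (Fin s)} (hσ : Function.Injective σ)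
    (hσl : σ (Fin.last N) = ∅) {T : Finset (Finset (Fin s))} (hT0 : ∅ ∈ T)
    (hTσ : ∀ j, σ j ∈ T)
    {F : Finset (Fin s) → MvPolynomial (Fin (N + 1 + 2)) ℂ} (hF : ∀ τ ∈ T, (F τ).IsHomogeneous 3)
    (hind : AlgebraicIndependent ℚ
      (fun p : T × {β : Fin (N + 1 + 2) →₀ ℕ // β.degree = 3} => coeff p.2.1 (F p.1)))
    {M : Type} [Field M] [Algebra ℂ M] (t : Fin s → M) (g : Fin (N + 1 + 2) → M) (R : Fin m → M)
    (hg : fv T t F g = 0) (hg0 : g 0 ≠ 0) (hi : AlgebraicIndependent ℂ (UU t g R))
    (h3 : ∃ M0, ¬ 3 ∣ M0 ∧ finrank (Kc ℂ (UU t g R)) M = 3 * M0) (l : Fin (N + 1 + 2) → M)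
    (hl1 : ∀ i j, ¬ AlgebraicIndependent ℂ (Fin.cons (l i / l j) t : Fin (s + 1) → M)) :
    ¬ Relation.ReflTransGen (fun a b : Fin (N + 1 + 2) → M => a ≠ 0 ∧ b ≠ 0 ∧
      Lkk (fv T (fun i => Polynomial.C (t i)) F) a b) g l := by
  classical
  intro hch
  obtain ⟨Tt, hTt⟩ := chain_lift2 hch
  obtain ⟨Ω, c, G, hΩ, hc, halg, hG, hFG⟩ := base_fam (Nat.succ_pos _) hT0 F (Ph ℚ σ)
    hF (fun τ _ => Ph_hom σ τ) hind
  have hchar : CharZero Ω := inferInstance
  have hFΩ : ∀ {A : Type} [CommRing A] [Algebra ℂ A] (tt : Fin s → A) (y : Fin (N + 1 + 2) → A),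
      fv T tt F y = eqn T tt (Ph Ω σ) G (algebraMap ℂ A c) y := by
    intro A _ _ tt y
    unfold eqn fv
    rw [Finset.mul_sum, ← Finset.sum_add_distrib]
    refine Finset.sum_congr rfl fun τ hτ => ?_
    rw [hFG τ hτ, map_add, map_mul, aeval_C]
    have h1 : map (algebraMap ℚ ℂ) (Ph ℚ σ τ) = map (algebraMap Ω ℂ) (Ph Ω σ τ) := by
      rw [Ph_map, Ph_map]
    rw [h1, aeval_map_algebraMap, aeval_map_algebraMap]
    ring
  obtain ⟨M0, hM0, hM1⟩ := h3
  have hfin : FiniteDimensional (Kc ℂ (UU t g R)) M := by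
    apply FiniteDimensional.of_finrank_pos
    rw [hM1]
    have : M0 ≠ 0 := by
      rintro rfl
      exact hM0 (dvd_zero 3)
    omega
  obtain ⟨K, E, _, _, _, _, _, _, ι, ε, c', u', hFF, hc', hιε, hu', hTm, hTc, hdu⟩ :=
    LF.desc2 Ω ℂ M c hc halg _ (UU t g R)
      (Finset.univ.image l ∪ (Tt ∪ (Finset.univ.image g ∪ (Finset.univ.image t ∪
        Finset.univ.image R)))) ∅ hfin
  have hEinj : Function.Injective ε := (ε : E →+* M).injective
  have hιinj : Function.Injective ι := (ι : K →+* ℂ).injective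
  choose l' hεl using fun i => hTm (l i) (Finset.mem_union_left _
    (Finset.mem_image_of_mem _ (Finset.mem_univ i)))
  choose g' hεg using fun i => hTm (g i) (Finset.mem_union_right _ (Finset.mem_union_right _
    (Finset.mem_union_left _ (Finset.mem_image_of_mem _ (Finset.mem_univ i)))))
  choose t' hεt using fun i => hTm (t i) (Finset.mem_union_right _ (Finset.mem_union_right _
    (Finset.mem_union_right _ (Finset.mem_union_left _
      (Finset.mem_image_of_mem _ (Finset.mem_univ i))))))
  choose R' hεR using fun i => hTm (R i) (Finset.mem_union_right _ (Finset.mem_union_right _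
    (Finset.mem_union_right _ (Finset.mem_union_right _
      (Finset.mem_image_of_mem _ (Finset.mem_univ i))))))
  have hUU : ∀ i, ε (UU t' g' R' i) = UU t g R i := by
    intro i
    unfold UU
    rw [Function.comp_apply, Function.comp_apply]
    rcases eqv s (N + 1) m i with a | a | a
    · exact hεt a
    · show ε (g' a.castSucc.succ / g' 0) = g a.castSucc.succ / g 0
      rw [map_div₀, hεg, hεg]
    · exact hεR a
  have huy : u' = UU t' g' R' := by
    funext i
    apply hEinj
    rw [hu', hUU]
  have hευ : ∀ y : Fin (N + 1 + 2) → E, ε (eqn T t' (Ph Ω σ) G (algebraMap K E c') y) =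
      fv T t F (fun i => ε (y i)) := by
    intro y
    rw [hFΩ]
    unfold eqn
    rw [map_add, map_mul, hιε, hc', fv_map, fv_map, funext hεt]
  have hctr : Transcendental Ω c' := by
    intro h
    apply hc
    rw [← hc']
    exact h.algHom ι
  refine core3 hσ hσl hT0 hTσ hG hctr t' g' R' ?_ ?_ ?_ ?_ l' (fun i j hij => ?_) ?_
  · apply hEinj
    rw [hευ, funext hεg, hg, map_zero]
  · intro h0
    apply hg0
    rw [← hεg, h0, map_zero]
  · apply ind_down hιε
    rw [funext hUU]
    exact hi
  · rw [← huy, hdu]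
    exact ⟨M0, hM0, hM1⟩
  · apply hl1 i j
    have h1 := ind_up hιε (alg_of hc' halg) hij
    have h2 : (fun a => ε ((Fin.cons (l' i / l' j) t' : Fin (s + 1) → E) a)) =
        Fin.cons (l i / l j) t := by
      funext a
      refine Fin.cases ?_ (fun a => ?_) a
      · show ε (l' i / l' j) = l i / l j
        rw [map_div₀, hεl, hεl]
      · exact hεt _
    rw [h2] at h1
    exact h1
  · refine hTt E _ (ε : E →+* M)
      (fun z hz => hTm z (Finset.mem_union_right _ (Finset.mem_union_left _ hz)))
      (fun y => ?_) _ _ hεg hεl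
    rw [hFΩ]
    have e1 : ∀ H : Finset (Fin s) → MvPolynomial (Fin (N + 1 + 2)) Ω,
        Polynomial.map (ε : E →+* M) (fv T (fun i => Polynomial.C (t' i)) H y) =
          fv T (fun i => Polynomial.C (t i)) H fun i => (y i).map (ε : E →+* M) := by
      intro H
      have h2 := fv_map (Polynomial.mapAlgHom ε) T (fun i => Polynomial.C (t' i)) H y
      have h3 : (fun i => (Polynomial.mapAlgHom ε) (Polynomial.C (t' i))) =
          fun i => Polynomial.C (t i) := by
        funext i
        rw [← hεt]
        exact Polynomial.map_C _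
      rw [h3] at h2
      exact h2
    unfold eqn
    rw [Polynomial.map_add, Polynomial.map_mul, e1, e1, Polynomial.map_C]
    congr 2
    have h3 : (ε : E →+* M) (algebraMap K E c') = algebraMap ℂ M c := by
      show ε (algebraMap K E c') = _
      rw [hιε, hc']
    rw [h3, IsScalarTower.algebraMap_apply ℂ M (Polynomial M), Polynomial.algebraMap_apply]
    rfl

end

end Pool.Agent.H900.P3
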